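import Pool.Agent.PCn.Mom

/-!
# Almost every parameter: windows

By `mom` with `y = r^j`, `X_j(a) = (VV(r^j, r^(j+1))/r^j - kap M n (r-1))^2` has `∫ X_j ≤ C exp(-(j log r)^{1/28}/8)` for
large `j`, which is summable, so `∑_j X_j(a) < ∞` for almost every `a` in the cube
(`MeasureTheory.lintegral_tsum`, `ae_lt_top`) and `X_j(a) → 0`.  `VV` is measurable (`measurable_ch`) and, for large `j`, bounded
on the cube (`th_bd`), which gives integrability (to pass from the Bochner integral to `lintegral`: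
`ofReal_integral_eq_lintegral_ofReal`).
-/

namespace Pool.Agent.PCn

open MeasureTheory Filter Topology

/-- summability of the bounds of the second moments. -/
private lemma ae_summable (r : ℝ) (hr : 1 < r) :
    Summable (fun j : ℕ => Real.exp (-(lam (r ^ j) / 8))) := by
  have hlr : 0 < Real.log r := Real.log_pos hr
  set b : ℝ := Real.log r ^ (1 / 28 : ℝ) / 8 with hb
  have hb0 : 0 < b := by
    have := Real.rpow_pos_of_pos hlr (1 / 28 : ℝ)
    positivity
  have h1 : ∀ j : ℕ, lam (r ^ j) / 8 = b * (j : ℝ) ^ (1 / 28 : ℝ) := by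
    intro j
    unfold lam
    rw [Real.log_pow, Real.mul_rpow (Nat.cast_nonneg j) hlr.le, hb]
    ring
  have h2 : Tendsto (fun j : ℕ => ((j : ℝ) ^ (1 / 28 : ℝ)) ^ (56 : ℝ) *
      Real.exp (-b * (j : ℝ) ^ (1 / 28 : ℝ))) atTop (𝓝 0) :=
    (tendsto_rpow_mul_exp_neg_mul_atTop_nhds_zero 56 b hb0).comp
      ((tendsto_rpow_atTop (by norm_num : (0 : ℝ) < 1 / 28)).comp tendsto_natCast_atTop_atTop)
  have h3 : ∀ᶠ j : ℕ in atTop, Real.exp (-(lam (r ^ j) / 8)) ≤ 1 / (j : ℝ) ^ 2 := by
    filter_upwards [h2.eventually (ge_mem_nhds (zero_lt_one)), eventually_gt_atTop 0] with j hj hj0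
    have hj1 : (0 : ℝ) < j := by exact_mod_cast hj0
    rw [← Real.rpow_mul hj1.le, show (1 / 28 : ℝ) * 56 = ((2 : ℕ) : ℝ) by norm_num,
      Real.rpow_natCast, neg_mul, ← h1 j] at hj
    rw [le_div_iff₀ (by positivity), mul_comm]
    exact hj
  refine summable_of_isBigO_nat (Real.summable_one_div_nat_pow.2 (by norm_num : 1 < 2)) ?_
  refine Asymptotics.IsBigO.of_bound 1 ?_
  filter_upwards [h3] with j hj
  rw [one_mul, Real.norm_of_nonneg (Real.exp_pos _).le, Real.norm_of_nonneg (by positivity)]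
  exact hj

theorem ae_window {M : ℕ} {G ε : ℕ → ℝ} (h : Hyp M G ε) (n m : ℕ) (hm : 2 * n ≤ m) (r : ℝ)
    (hr : 1 < r) (hr2 : r ≤ 11 / 10) :
    ∀ᵐ a ∂(volume.restrict (Cu m)),
      Tendsto (fun j : ℕ => VV M (SS G ε a) n (r ^ j) (r ^ (j + 1)) / r ^ j) atTop
        (𝓝 (kap M n * (r - 1))) := by
  classical
  obtain ⟨C, Y1, hC, hY1, hmom⟩ := mom h n m hm r hr hr2
  obtain ⟨Y2, hY2, hbd⟩ := th_bd h n m
  have hcu : MeasurableSet (Cu m) := by
    unfold Cu
    exact measurableSet_Icc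
  haveI : IsFiniteMeasure (volume.restrict (Cu m)) := by
    constructor
    rw [Measure.restrict_apply MeasurableSet.univ, Set.univ_inter]
    exact (isCompact_Icc (a := (0 : Fin m → ℝ)) (b := 1)).measure_lt_top
  obtain ⟨J, hJ⟩ := eventually_atTop.1
    ((tendsto_pow_atTop_atTop_of_one_lt hr).eventually_ge_atTop (max Y1 Y2))
  have hrj : ∀ j : ℕ, 0 < r ^ j := fun j => pow_pos (by linarith) j
  set V : ℕ → (Fin m → ℝ) → ℝ := fun j a => VV M (SS G ε a) n (r ^ j) (r ^ (j + 1)) with hV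
  have hVm : ∀ j, Measurable (V j) := by
    intro j
    simp only [hV, VV]
    refine Finset.measurable_sum _ (fun p _ => ?_)
    refine Finset.measurable_prod _ (fun i _ => ?_)
    exact (measurable_of_countable th).comp
      (measurable_ch M (fun a : Fin m → ℝ => SS G ε a) (fun q => measurable_SS G ε q) p i)
  have hVb : ∀ j ≥ J, ∃ B, ∀ a ∈ Cu m, |V j a| ≤ B := by
    intro j hj
    have hyj := hJ j hj
    refine ⟨∑ p ∈ Finset.Ioc ⌊r ^ j⌋₊ ⌊r ^ (j + 1)⌋₊,
      ∏ i ∈ Finset.range (n + 1), Real.log (2 ^ (n + 4) * r ^ j), fun a ha => ?_⟩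
    simp only [hV, VV]
    refine (Finset.abs_sum_le_sum_abs _ _).trans (Finset.sum_le_sum (fun p hp => ?_))
    rw [Finset.mem_Ioc] at hp
    have hp1 : r ^ j < p := (Nat.floor_lt (hrj j).le).1 hp.1
    have hp2 : (p : ℝ) ≤ 11 / 10 * r ^ j := by
      have := (Nat.le_floor_iff (hrj (j + 1)).le).1 hp.2
      rw [pow_succ] at this
      nlinarith [hrj j]
    have hb := hbd (r ^ j) ((le_max_right _ _).trans hyj) a ha p hp1 hp2
    rw [Finset.abs_prod]
    refine Finset.prod_le_prod (fun i _ => abs_nonneg _) (fun i hi => ?_)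
    have hb' := hb i (Nat.lt_succ_iff.1 (Finset.mem_range.1 hi))
    rw [abs_of_nonneg hb'.1]
    exact hb'.2.1
  set X : ℕ → (Fin m → ℝ) → ℝ := fun j a => (V j a / r ^ j - kap M n * (r - 1)) ^ 2 with hX
  have hXm : ∀ j, Measurable (X j) := fun j => (((hVm j).div_const _).sub_const _).pow_const 2
  have hXi : ∀ j ≥ J, Integrable (X j) (volume.restrict (Cu m)) := by
    intro j hj
    obtain ⟨B, hB⟩ := hVb j hj
    refine Integrable.of_bound (hXm j).aestronglyMeasurable ((B / r ^ j + |kap M n * (r - 1)|) ^ 2) ?_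
    refine (ae_restrict_iff' hcu).2 (Eventually.of_forall (fun a ha => ?_))
    have h1 := hB a ha
    simp only [hX]
    rw [norm_pow, Real.norm_eq_abs]
    refine pow_le_pow_left₀ (abs_nonneg _) ?_ 2
    refine (abs_sub _ _).trans (add_le_add ?_ le_rfl)
    rw [abs_div, abs_of_pos (hrj j)]
    exact div_le_div_of_nonneg_right h1 (hrj j).le
  have hXb : ∀ j ≥ J, ∫ a in Cu m, X j a ≤ C * Real.exp (-(lam (r ^ j) / 8)) := by
    intro j hj
    have hyj := hJ j hj
    have h1 := hmom (r ^ j) ((le_max_left _ _).trans hyj)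
    have h2 : ∀ a, X j a = (1 / (r ^ j) ^ 2) *
        (VV M (SS G ε a) n (r ^ j) (r * r ^ j) - kap M n * ((r - 1) * r ^ j)) ^ 2 := by
      intro a
      have h0 := (hrj j).ne'
      simp only [hX, hV]
      rw [pow_succ' r j]
      field_simp
    simp only [h2]
    rw [integral_const_mul]
    calc 1 / (r ^ j) ^ 2 * (∫ a in Cu m,
          (VV M (SS G ε a) n (r ^ j) (r * r ^ j) - kap M n * ((r - 1) * r ^ j)) ^ 2)
        ≤ 1 / (r ^ j) ^ 2 * (C * (r ^ j) ^ 2 * Real.exp (-(lam (r ^ j) / 8))) :=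
          mul_le_mul_of_nonneg_left h1 (by positivity)
      _ = C * Real.exp (-(lam (r ^ j) / 8)) := by
          have h0 := (hrj j).ne'
          field_simp
  have hs : Summable (fun j : ℕ => C * Real.exp (-(lam (r ^ (j + J)) / 8))) :=
    ((summable_nat_add_iff J).2 (ae_summable r hr)).mul_left C
  have hfin : ∫⁻ a in Cu m, ∑' j : ℕ, ENNReal.ofReal (X (j + J) a) ≠ ⊤ := by
    rw [lintegral_tsum (fun j => (hXm (j + J)).ennreal_ofReal.aemeasurable)]
    refine ne_top_of_le_ne_top hs.tsum_ofReal_ne_top ?_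
    refine ENNReal.tsum_le_tsum (fun j => ?_)
    rw [← ofReal_integral_eq_lintegral_ofReal (hXi (j + J) (by omega))
      (Eventually.of_forall (fun a => sq_nonneg _))]
    exact ENNReal.ofReal_le_ofReal (hXb (j + J) (by omega))
  have hae := ae_lt_top (Measurable.ennreal_tsum
    (fun j => (hXm (j + J)).ennreal_ofReal)) hfin
  filter_upwards [hae] with a ha
  have h1 := ENNReal.tendsto_atTop_zero_of_tsum_ne_top ha.ne
  have h2 : Tendsto (fun j => X (j + J) a) atTop (𝓝 0) := by
    have h3 := (ENNReal.tendsto_toReal ENNReal.zero_ne_top).comp h1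
    rw [ENNReal.toReal_zero] at h3
    refine h3.congr (fun j => ?_)
    simp only [Function.comp]
    exact ENNReal.toReal_ofReal (sq_nonneg _)
  have h4 : Tendsto (fun j => X j a) atTop (𝓝 0) := (tendsto_add_atTop_iff_nat J).1 h2
  have h5 : Tendsto (fun j => |V j a / r ^ j - kap M n * (r - 1)|) atTop (𝓝 0) := by
    have h6 := (Real.continuous_sqrt.tendsto 0).comp h4
    rw [Real.sqrt_zero] at h6
    refine h6.congr (fun j => ?_)
    simp only [Function.comp, hX]
    exact Real.sqrt_sq_eq_abs _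
  have h7 := (tendsto_zero_iff_abs_tendsto_zero _).2 h5
  have h8 := h7.add_const (kap M n * (r - 1))
  rw [zero_add] at h8
  refine h8.congr (fun j => ?_)
  simp only [hV]
  ring

end Pool.Agent.PCn
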