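import Pool.Agent.PCn.Growth
import Pool.Agent.PCn.Avg

/-!
# The mean value of `θ` at the next term of a chain

`avg_ch`: `avg` with `A := m * A + 3`, `q = ch p i`, `z = SS G ε a q`, `t = tt m A y`, and `growth` (the residue class of `q` modulo `M`
is that of `2^i (p+1) - 1`, so `2q + 1` is congruent to `2^(i+1) (p+1) - 1`).
-/

namespace Pool.Agent.PCn

private theorem AvgC_lam : Filter.Tendsto lam Filter.atTop Filter.atTop := by
  unfold lam
  exact (tendsto_rpow_atTop (by norm_num)).comp Real.tendsto_log_atTop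

theorem kp_bd {M : ℕ} (hM : 0 < M) (p i : ℕ) : 0 ≤ kp M p i ∧ kp M p i ≤ (M : ℝ) / M.totient ∧
    1 ≤ (M : ℝ) / M.totient := by
  have ht : (0 : ℝ) < M.totient := by exact_mod_cast Nat.totient_pos.mpr hM
  have h1 : 1 ≤ (M : ℝ) / M.totient := by
    rw [le_div_iff₀ ht, one_mul]
    exact_mod_cast Nat.totient_le M
  refine ⟨?_, ?_, h1⟩
  · unfold kp
    split_ifs
    · linarith
    · exact le_refl _
  · unfold kp
    split_ifs
    · exact le_refl _
    · linarith

theorem gd_eq (M n p : ℕ) : gd M n p = ∏ i ∈ Finset.range n, kp M p i := by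
  classical
  unfold gd
  split_ifs with h
  · have e : ∀ i ∈ Finset.range n, kp M p i = (M : ℝ) / M.totient := by
      intro i hi
      rw [Finset.mem_range] at hi
      unfold kp
      rw [if_pos]
      exact h (i + 1) (Finset.mem_Icc.mpr ⟨by omega, by omega⟩)
    rw [Finset.prod_congr rfl e, Finset.prod_const, Finset.card_range]
  · unfold Good at h
    push Not at h
    obtain ⟨i, hi, hc⟩ := h
    rw [Finset.mem_Icc] at hi
    symm
    apply Finset.prod_eq_zero (i := i - 1) (Finset.mem_range.mpr (by omega))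
    unfold kp
    rw [if_neg]
    rwa [Nat.sub_add_cancel hi.1]

theorem avg_ch {M : ℕ} {G ε : ℕ → ℝ} (h : Hyp M G ε) (n m : ℕ) (A : ℝ) (hA : 0 ≤ A) :
    ∃ Y : ℝ, 3 ≤ Y ∧ ∀ y ≥ Y, ∀ a ∈ Cu m, ∀ p : ℕ, y < p → (p : ℝ) ≤ 11 / 10 * y → ∀ i < n,
      |(1 / tt m A y) * (∫ s in (0 : ℝ)..tt m A y, thc (2 ^ (n + 4) * y)
          ((2 * (ch M (SS G ε a) p i : ℤ) + 1 +
            M * ⌊SS G ε a (ch M (SS G ε a) p i) + s⌋).toNat)) - kp M p i| ≤
        Real.exp (-lam y) := by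
  obtain ⟨Y1, hY1, hg⟩ := growth h n m
  obtain ⟨Y2, hY2, hav⟩ := avg h.M0 n (m * A + 3)
  have hM : (0 : ℝ) < M := by exact_mod_cast h.M0
  obtain ⟨Y3, hY3⟩ := Filter.eventually_atTop.mp
    (AvgC_lam.eventually_ge_atTop (Real.log (40 * M)))
  obtain ⟨Y4, hY4⟩ := Filter.eventually_atTop.mp (AvgC_lam.eventually_ge_atTop 0)
  refine ⟨max (max Y1 Y2) (max Y3 Y4), le_trans hY1 (le_trans (le_max_left _ _) (le_max_left _ _)),
    fun y hy a ha p hyp hpy i hi => ?_⟩
  have hy1 : Y1 ≤ y := le_trans (le_trans (le_max_left _ _) (le_max_left _ _)) hy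
  have hy2 : Y2 ≤ y := le_trans (le_trans (le_max_right _ _) (le_max_left _ _)) hy
  have hy3 : Y3 ≤ y := le_trans (le_trans (le_max_left _ _) (le_max_right _ _)) hy
  have hy4 : Y4 ≤ y := le_trans (le_trans (le_max_right _ _) (le_max_right _ _)) hy
  have hy0 : 0 < y := by linarith
  have ha' : ∀ j, a j ∈ Set.Icc (-1 : ℝ) 2 := by
    intro j
    have h0 : (0 : ℝ) ≤ a j := ha.1 j
    have h1 : a j ≤ (1 : ℝ) := ha.2 j
    exact ⟨by linarith, by linarith⟩
  obtain ⟨g1, g2, g3, g4⟩ := hg y hy1 a ha' p hyp hpy i hi.le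
  have hlam := hY3 y hy3
  have hlam0 := hY4 y hy4
  have hmA : 0 ≤ (m : ℝ) * A := mul_nonneg (Nat.cast_nonneg m) hA
  have ht : tt m A y ≤ y / (40 * M) := by
    unfold tt
    rw [div_eq_mul_inv]
    apply mul_le_mul_of_nonneg_left _ hy0.le
    rw [Real.exp_neg]
    apply inv_anti₀ (by positivity)
    rw [← Real.log_le_iff_le_exp (by positivity)]
    refine hlam.trans ?_
    nlinarith
  have hq1 : 7 / 8 * y ≤ (ch M (SS G ε a) p i : ℝ) := by
    refine le_trans ?_ g1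
    have : (1 : ℝ) ≤ 2 ^ i := one_le_pow₀ (by norm_num)
    nlinarith
  have hq2 : (ch M (SS G ε a) p i : ℝ) ≤ 2 ^ (n + 2) * y := by
    refine g2.trans ?_
    apply mul_le_mul_of_nonneg_right _ hy0.le
    have h3 : (2 : ℝ) ^ i ≤ 2 ^ n := pow_le_pow_right₀ (by norm_num) hi.le
    have h4 : (2 : ℝ) ^ (n + 2) = 4 * 2 ^ n := by ring
    have h5 : (0 : ℝ) < 2 ^ n := by positivity
    rw [h4]
    linarith
  have key := hav y hy2 (ch M (SS G ε a) p i) hq1 hq2 (SS G ε a (ch M (SS G ε a) p i)) g4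
    (tt m A y) (le_refl _) ht
  have hk : (if Nat.Coprime (2 * ch M (SS G ε a) p i + 1) M then (M : ℝ) / M.totient else 0) =
      kp M p i := by
    unfold kp
    have hc : Nat.Coprime (2 * ch M (SS G ε a) p i + 1) M ↔
        Nat.Coprime (2 ^ (i + 1) * (p + 1) - 1) M := by
      have e : 2 * ch M (SS G ε a) p i + 1 ≡ 2 ^ (i + 1) * (p + 1) - 1 [MOD M] := by
        have e1 : 2 * (2 ^ i * (p + 1) - 1) + 1 = 2 ^ (i + 1) * (p + 1) - 1 := by
          have h6 : 1 ≤ 2 ^ i * (p + 1) := Nat.one_le_iff_ne_zero.mpr (by positivity)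
          have h7 : 2 ^ (i + 1) * (p + 1) = 2 * (2 ^ i * (p + 1)) := by ring
          omega
        rw [← e1]
        exact (g3.mul_left 2).add_right 1
      unfold Nat.Coprime
      rw [e.gcd_eq]
    by_cases hcc : Nat.Coprime (2 * ch M (SS G ε a) p i + 1) M
    · rw [if_pos hcc, if_pos (hc.mp hcc)]
    · rw [if_neg hcc, if_neg (fun h9 => hcc (hc.mpr h9))]
  convert key using 3
  rw [← hk]

end Pool.Agent.PCn
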