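import Pool.Agent.PCn.Defs

/-!
# Measurability and dependence of the chains

`measurable_ch`: induction on `i`: `{x : ch (i+1) = k}` is the countable union over `r` of
`{ch i = r} ∩ {T M (S x) r = k}` (`measurable_to_countable'` or `measurable_from_...`).
`ch_congr`: induction.
`measurable_tr`: `a ↦ ((ch p j)_{j ≤ i}, (ch p' j)_{j ≤ k})` is measurable into the countable type
`(Fin (i+1) → ℕ) × (Fin (k+1) → ℕ)`, on which every function is measurable (`measurable_from_...`/`measurable_of_countable`).
-/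

namespace Pool.Agent.PCn

theorem ch_zero (M : ℕ) (S : ℕ → ℝ) (p : ℕ) : ch M S p 0 = p := rfl

theorem ch_succ (M : ℕ) (S : ℕ → ℝ) (p i : ℕ) : ch M S p (i + 1) = T M S (ch M S p i) := by
  unfold ch
  rw [Function.iterate_succ_apply']

private theorem Basic_T {X : Type*} [MeasurableSpace X] (M : ℕ) (S : X → ℕ → ℝ)
    (hS : ∀ q, Measurable (fun x => S x q)) (q : ℕ) : Measurable (fun x => T M (S x) q) := by
  unfold T
  have h : Measurable (fun z : ℤ => (2 * (q : ℤ) + 1 + M * z).toNat) := measurable_of_countable _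
  exact h.comp (hS q).floor

theorem measurable_ch {X : Type*} [MeasurableSpace X] (M : ℕ) (S : X → ℕ → ℝ)
    (hS : ∀ q, Measurable (fun x => S x q)) (p i : ℕ) :
    Measurable (fun x => ch M (S x) p i) := by
  induction i with
  | zero => exact measurable_const
  | succ i ih =>
    simp_rw [ch_succ]
    have h : Measurable (fun z : X × ℕ => T M (S z.1) z.2) :=
      measurable_from_prod_countable_left fun q => Basic_T M S hS q
    exact h.comp (measurable_id.prodMk ih)

theorem ch_congr {M : ℕ} {S S' : ℕ → ℝ} {p i : ℕ}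
    (h : ∀ j < i, S (ch M S p j) = S' (ch M S p j)) : ∀ j ≤ i, ch M S' p j = ch M S p j := by
  intro j
  induction j with
  | zero => intro _; rfl
  | succ j ih =>
    intro hj
    rw [ch_succ, ch_succ, ih (by omega)]
    unfold T
    rw [h j (by omega)]

theorem measurable_SS (G ε : ℕ → ℝ) {m : ℕ} (q : ℕ) :
    Measurable (fun a : Fin m → ℝ => SS G ε a q) := by
  unfold SS pf
  fun_prop

theorem measurable_tr {X : Type*} [MeasurableSpace X] (M : ℕ) (S : X → ℕ → ℝ)
    (hS : ∀ q, Measurable (fun x => S x q)) (p p' i k : ℕ) (Φ : (ℕ → ℕ) → (ℕ → ℕ) → ℝ) :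
    Measurable (fun x => Φ (tr i (ch M (S x) p)) (tr k (ch M (S x) p'))) := by
  have h1 : Measurable (fun x => ((fun j : Fin (i + 1) => ch M (S x) p j,
      fun j : Fin (k + 1) => ch M (S x) p' j) : (Fin (i + 1) → ℕ) × (Fin (k + 1) → ℕ))) := by
    apply Measurable.prodMk
    · exact measurable_pi_lambda _ fun j => measurable_ch M S hS p j
    · exact measurable_pi_lambda _ fun j => measurable_ch M S hS p' j
  let e : ∀ n : ℕ, (Fin (n + 1) → ℕ) → ℕ → ℕ := fun n f j =>
    if h : j ≤ n then f ⟨j, by omega⟩ else 0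
  have he : ∀ (n : ℕ) (c : ℕ → ℕ), e n (fun j : Fin (n + 1) => c j) = tr n c := by
    intro n c
    funext j
    simp only [e, tr]
    by_cases h : j ≤ n
    · rw [dif_pos h, if_pos h]
    · rw [dif_neg h, if_neg h]
  have h2 : Measurable (fun z : (Fin (i + 1) → ℕ) × (Fin (k + 1) → ℕ) =>
      Φ (e i z.1) (e k z.2)) := measurable_of_countable _
  have h3 := h2.comp h1
  have h4 : (fun x => Φ (tr i (ch M (S x) p)) (tr k (ch M (S x) p'))) =
      ((fun z : (Fin (i + 1) → ℕ) × (Fin (k + 1) → ℕ) => Φ (e i z.1) (e k z.2)) ∘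
      fun x => ((fun j : Fin (i + 1) => ch M (S x) p j), (fun j : Fin (k + 1) => ch M (S x) p' j))) := by
    funext x
    simp only [Function.comp_apply]
    rw [he i (ch M (S x) p), he k (ch M (S x) p')]
  rw [h4]
  exact h3

end Pool.Agent.PCn
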