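import Mathlib

/-!
# Cunningham chains of almost all perturbations of the map `q ↦ 2q + 1`: definitions

`T M S q = 2q + 1 + M ⌊S q⌋`, `S q = G q + ε q * q * ∑_j a_j / (log q)^j` with real parameters `a_j` in `[0,1]`;
`G q = o(q)`, `ε q → 0`, `ε q ≥ exp(-(log q)^{1/30})`.  THEOREM (file `Main.lean`): for almost every sequence
`(a_j)`, for every `k` the number of the primes `p ≤ x` which start a chain of exact length `k` is
`~ c_k(M) x/(log x)^k`.

STRATEGY.  Windows `y < p ≤ r y`, weights `θ(p) θ(c_1) ... θ(c_n)` (`θ(c) = log c` for primes `c`), `L = log y`,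
`λ = L^{1/28}`.  First and second moment over the cube of the parameters `a_0, ..., a_{m-1}`, `m ≥ 2n`.  Given the
past (the values of the chains up to now, which depend only on the values of `S` at the earlier terms), there is a
vector `v` (Lagrange interpolation in the variable `1/log q`) such that moving the parameter `a` along `v` does
not change the past and moves `S` at the last term by the step of the motion; so one can average over a short motion
(`y e^{-Aλ}`), and the prime number theorem with error term gives the mean value of `θ`.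
-/

namespace Pool.Agent.PCn

open Filter Topology

/-- the map `q ↦ 2q + 1 + M ⌊S q⌋` -/
noncomputable def T (M : ℕ) (S : ℕ → ℝ) (q : ℕ) : ℕ := (2 * (q : ℤ) + 1 + M * ⌊S q⌋).toNat

/-- the `i`-th term of the chain of `p` -/
noncomputable def ch (M : ℕ) (S : ℕ → ℝ) (p i : ℕ) : ℕ := (T M S)^[i] p

/-- `log n` for primes `n`, and `0` otherwise -/
noncomputable def th (n : ℕ) : ℝ := if n.Prime then Real.log n else 0

/-- the same, cut off at `X` -/
noncomputable def thc (X : ℝ) (n : ℕ) : ℝ := if (n : ℝ) ≤ X then th n else 0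

/-- the perturbation with the parameters `a` -/
noncomputable def pf (ε : ℕ → ℝ) {m : ℕ} (a : Fin m → ℝ) (q : ℕ) : ℝ :=
  ε q * q * ∑ j : Fin m, a j / Real.log q ^ (j : ℕ)

/-- base function plus perturbation -/
noncomputable def SS (G ε : ℕ → ℝ) {m : ℕ} (a : Fin m → ℝ) (q : ℕ) : ℝ := G q + pf ε a q

/-- the scale `λ = (log y)^{1/28}` -/
noncomputable def lam (y : ℝ) : ℝ := Real.log y ^ (1 / 28 : ℝ)

/-- the length of the motion -/
noncomputable def tt (m : ℕ) (A y : ℝ) : ℝ := y * Real.exp (-((m * A + 3) * lam y))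

/-- the sequence cut off after the index `i` -/
def tr (i : ℕ) (c : ℕ → ℕ) : ℕ → ℕ := fun j => if j ≤ i then c j else 0

/-- the cube of the parameters -/
def Cu (m : ℕ) : Set (Fin m → ℝ) := Set.Icc 0 1

/-- the assumptions on the map -/
structure Hyp (M : ℕ) (G ε : ℕ → ℝ) : Prop where
  M0 : 0 < M
  G0 : Tendsto (fun q : ℕ => G q / q) atTop (𝓝 0)
  ε0 : Tendsto ε atTop (𝓝 0)
  εlow : ∀ᶠ q : ℕ in atTop, Real.exp (-(Real.log q) ^ (1 / 30 : ℝ)) ≤ ε q

/-- the numbers `2^i (p+1) - 1`, `1 ≤ i ≤ n`, are prime to `M` -/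
def Good (M n p : ℕ) : Prop := ∀ i ∈ Finset.Icc 1 n, Nat.Coprime (2 ^ i * (p + 1) - 1) M

open Classical in
/-- the expected mean value of the product of `n` factors `θ` -/
noncomputable def gd (M n p : ℕ) : ℝ := if Good M n p then ((M : ℝ) / M.totient) ^ n else 0

open Classical in
/-- the mean value of `θ` at the term `i + 1` of the chain of `p` -/
noncomputable def kp (M p i : ℕ) : ℝ :=
  if Nat.Coprime (2 ^ (i + 1) * (p + 1) - 1) M then (M : ℝ) / M.totient else 0

/-- the weighted number of the primes in a window whose first `n` successors are prime -/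
noncomputable def VV (M : ℕ) (S : ℕ → ℝ) (n : ℕ) (y z : ℝ) : ℝ :=
  ∑ p ∈ Finset.Ioc ⌊y⌋₊ ⌊z⌋₊, ∏ i ∈ Finset.range (n + 1), th (ch M S p i)

open Classical in
/-- the constant `#{b < M : all 2^i (b+1) - 1, i ≤ n, prime to M} * M^n / φ(M)^(n+1)` -/
noncomputable def kap (M n : ℕ) : ℝ :=
  ((Finset.range M).filter (fun b => ∀ i ≤ n, Nat.Coprime (2 ^ i * (b + 1) - 1) M)).card *
    (M : ℝ) ^ n / (M.totient : ℝ) ^ (n + 1)

open Classical in
/-- the number of the `p ≤ x` such that `p` and its first `n` successors are prime -/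
noncomputable def NN (M : ℕ) (S : ℕ → ℝ) (n x : ℕ) : ℕ :=
  ((Finset.range (x + 1)).filter (fun p => ∀ i ≤ n, (ch M S p i).Prime)).card

end Pool.Agent.PCn
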