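import Mathlib

/-!
# From windows to all `x` (deterministic)

Fix `l ≥ 10`, `r = 1 + 1/l`, `f(x) = ∑_{0 < p ≤ x} w p`.  `f(r^{j+1}) - f(r^j) = r^j (κ (r-1) + o(1))`, so
`f(r^j)/r^j → κ` (sum of a geometric-like series; Stolz-Cesàro, see Pool/Agent/RSC/Stolz.lean for a model, or
direct: `f(r^J) = f(1) + ∑_{j<J} r^j (κ(r-1) + e_j)` with `e_j → 0`).
For `r^j ≤ x < r^{j+1}`: `f(r^j)/r^{j+1} ≤ f(x)/x ≤ f(r^{j+1})/r^j`, so `limsup f(x)/x ≤ κ r`, `liminf ≥ κ/r`;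
let `l → ∞`.
-/

namespace Pool.Agent.PCn

open Filter Topology

private theorem DetA_lin {q : ℝ} (hq0 : 0 ≤ q) (hq : q < 1) {d ε : ℕ → ℝ}
    (h : ∀ j, |d (j + 1)| ≤ q * |d j| + ε j) (hε : Tendsto ε atTop (𝓝 0)) :
    Tendsto d atTop (𝓝 0) := by
  rw [Metric.tendsto_atTop] at hε ⊢
  intro δ hδ
  obtain ⟨N, hN⟩ := hε (δ * (1 - q) / 2) (by
    have : 0 < 1 - q := by linarith
    positivity)
  have h1 : ∀ m : ℕ, |d (N + m)| ≤ q ^ m * |d N| + δ / 2 := by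
    intro m
    induction m with
    | zero =>
      rw [add_zero, pow_zero, one_mul]
      linarith
    | succ m ih =>
      have h2 := h (N + m)
      have h3 := hN (N + m) (by omega)
      rw [Real.dist_eq, sub_zero] at h3
      have h4 := (abs_lt.1 h3).2
      have h5 : q * |d (N + m)| ≤ q * (q ^ m * |d N| + δ / 2) := mul_le_mul_of_nonneg_left ih hq0
      have h6 : N + (m + 1) = N + m + 1 := by omega
      rw [h6, pow_succ]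
      nlinarith
  have h2 : Tendsto (fun m : ℕ => q ^ m * |d N|) atTop (𝓝 0) := by
    have h3 := (tendsto_pow_atTop_nhds_zero_of_lt_one hq0 hq).mul_const |d N|
    rwa [zero_mul] at h3
  rw [Metric.tendsto_atTop] at h2
  obtain ⟨M, hM⟩ := h2 (δ / 2) (by positivity)
  refine ⟨N + M, fun j hj => ?_⟩
  obtain ⟨m, rfl⟩ : ∃ m, j = N + m := ⟨j - N, by omega⟩
  have h3 := hM m (by omega)
  rw [Real.dist_eq, sub_zero] at h3 ⊢
  have h4 := (abs_lt.1 h3).2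
  have h5 := h1 m
  linarith

private noncomputable def DetA_f (w : ℕ → ℝ) (x : ℝ) : ℝ :=
  ∑ p ∈ Finset.range (⌊x⌋₊ + 1), w p

private theorem DetA_step (w : ℕ → ℝ) {x y : ℝ} (h : x ≤ y) :
    DetA_f w y = DetA_f w x + ∑ p ∈ Finset.Ioc ⌊x⌋₊ ⌊y⌋₊, w p := by
  unfold DetA_f
  have h1 : ⌊x⌋₊ ≤ ⌊y⌋₊ := Nat.floor_le_floor h
  have h2 : Finset.Ioc ⌊x⌋₊ ⌊y⌋₊ = Finset.Ico (⌊x⌋₊ + 1) (⌊y⌋₊ + 1) := by
    ext k
    rw [Finset.mem_Ioc, Finset.mem_Ico]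
    omega
  rw [h2, Finset.sum_range_add_sum_Ico _ (by omega)]

private theorem DetA_geom (w : ℕ → ℝ) (κ : ℝ) {l : ℕ} (hl : 10 ≤ l)
    (h : Tendsto (fun j : ℕ =>
      (∑ p ∈ Finset.Ioc ⌊(1 + 1 / (l : ℝ)) ^ j⌋₊ ⌊(1 + 1 / (l : ℝ)) ^ (j + 1)⌋₊, w p) /
        (1 + 1 / (l : ℝ)) ^ j) atTop (𝓝 (κ * (1 / (l : ℝ))))) :
    Tendsto (fun j : ℕ => DetA_f w ((1 + 1 / (l : ℝ)) ^ j) / (1 + 1 / (l : ℝ)) ^ j) atTop
      (𝓝 κ) := by
  have hl0 : (0 : ℝ) < l := by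
    have : 0 < l := by omega
    exact_mod_cast this
  obtain ⟨r, hr⟩ : ∃ r : ℝ, r = 1 + 1 / (l : ℝ) := ⟨_, rfl⟩
  have hr1 : 1 < r := by
    rw [hr]
    have : 0 < 1 / (l : ℝ) := by positivity
    linarith
  have hr0 : 0 < r := by linarith
  rw [← hr] at h ⊢
  have hk : 1 / (l : ℝ) = r - 1 := by rw [hr]; ring
  rw [hk] at h
  have h1 : Tendsto (fun j : ℕ => DetA_f w (r ^ j) / r ^ j - κ) atTop (𝓝 0) := by
    refine DetA_lin (q := r⁻¹) (by positivity) (inv_lt_one_of_one_lt₀ hr1)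
      (ε := fun j : ℕ => r⁻¹ * |(∑ p ∈ Finset.Ioc ⌊r ^ j⌋₊ ⌊r ^ (j + 1)⌋₊, w p) / r ^ j -
        κ * (r - 1)|) (fun j => ?_) ?_
    · have h2 : DetA_f w (r ^ (j + 1)) = DetA_f w (r ^ j) +
          ∑ p ∈ Finset.Ioc ⌊r ^ j⌋₊ ⌊r ^ (j + 1)⌋₊, w p :=
        DetA_step w (pow_le_pow_right₀ hr1.le (Nat.le_succ j))
      have h3 : DetA_f w (r ^ (j + 1)) / r ^ (j + 1) - κ =
          r⁻¹ * (DetA_f w (r ^ j) / r ^ j - κ) +
          r⁻¹ * ((∑ p ∈ Finset.Ioc ⌊r ^ j⌋₊ ⌊r ^ (j + 1)⌋₊, w p) / r ^ j - κ * (r - 1)) := by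
        rw [h2, pow_succ]
        have : r ^ j ≠ 0 := by positivity
        field_simp
        ring
      rw [h3]
      refine le_trans (abs_add_le _ _) (le_of_eq ?_)
      rw [abs_mul, abs_mul, abs_of_pos (inv_pos.2 hr0)]
    · have h4 : Tendsto (fun j : ℕ => (∑ p ∈ Finset.Ioc ⌊r ^ j⌋₊ ⌊r ^ (j + 1)⌋₊, w p) / r ^ j -
          κ * (r - 1)) atTop (𝓝 0) := by
        have h5 := h.sub_const (κ * (r - 1))
        rwa [sub_self] at h5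
      have h5 := h4.abs.const_mul r⁻¹
      rwa [abs_zero, mul_zero] at h5
  have h2 := h1.add_const κ
  simp only [sub_add_cancel, zero_add] at h2
  exact h2

theorem det_a (w : ℕ → ℝ) (hw : ∀ p, 0 ≤ w p) (κ : ℝ)
    (h : ∀ l : ℕ, 10 ≤ l → Tendsto (fun j : ℕ =>
      (∑ p ∈ Finset.Ioc ⌊(1 + 1 / (l : ℝ)) ^ j⌋₊ ⌊(1 + 1 / (l : ℝ)) ^ (j + 1)⌋₊, w p) /
        (1 + 1 / (l : ℝ)) ^ j) atTop (𝓝 (κ * (1 / (l : ℝ))))) :
    Tendsto (fun x : ℕ => (∑ p ∈ Finset.range (x + 1), w p) / x) atTop (𝓝 κ) := by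
  have hfpos : ∀ x : ℝ, 0 ≤ DetA_f w x := fun x => Finset.sum_nonneg fun p _ => hw p
  have hκ : 0 ≤ κ := by
    have h1 := DetA_geom w κ le_rfl (h 10 le_rfl)
    refine ge_of_tendsto' h1 fun j => ?_
    have := hfpos ((1 + 1 / ((10 : ℕ) : ℝ)) ^ j)
    positivity
  rw [Metric.tendsto_atTop]
  intro ε hε
  obtain ⟨l₀, hl₀⟩ := exists_nat_gt (4 * κ / ε)
  obtain ⟨l, hl⟩ : ∃ l : ℕ, l = max l₀ 10 := ⟨_, rfl⟩
  have hl10 : 10 ≤ l := by omega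
  have hll : l₀ ≤ l := by omega
  have hl0 : (10 : ℝ) ≤ l := by exact_mod_cast hl10
  have hlpos : (0 : ℝ) < l := by linarith
  have hκl : κ * (1 / (l : ℝ)) < ε / 4 := by
    have h1 : 4 * κ / ε < l := lt_of_lt_of_le hl₀ (by exact_mod_cast hll)
    rw [div_lt_iff₀ hε] at h1
    rw [mul_one_div, div_lt_iff₀ hlpos]
    linarith
  have hg := DetA_geom w κ hl10 (h l hl10)
  obtain ⟨s, hs⟩ : ∃ s : ℝ, s = 1 / (l : ℝ) := ⟨_, rfl⟩
  have hs0 : 0 < s := by rw [hs]; positivity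
  have hs1 : s ≤ 1 / 10 := by
    rw [hs]
    exact one_div_le_one_div_of_le (by norm_num) hl0
  rw [← hs] at hg hκl
  obtain ⟨r, hr⟩ : ∃ r : ℝ, r = 1 + s := ⟨_, rfl⟩
  rw [← hr] at hg
  have hr1 : 1 < r := by rw [hr]; linarith
  have hr0 : 0 < r := by linarith
  rw [Metric.tendsto_atTop] at hg
  obtain ⟨J, hJ⟩ := hg (ε / 4) (by positivity)
  obtain ⟨x₀, hx₀⟩ := exists_nat_gt (r ^ J)
  refine ⟨max x₀ 1, fun x hx => ?_⟩
  have hx1 : 1 ≤ x := le_trans (le_max_right _ _) hx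
  have hx0' : x₀ ≤ x := le_trans (le_max_left _ _) hx
  have hxJ : r ^ J < (x : ℝ) := lt_of_lt_of_le hx₀ (by exact_mod_cast hx0')
  have hx1' : (1 : ℝ) ≤ x := by exact_mod_cast hx1
  have hxpos : (0 : ℝ) < x := by linarith
  obtain ⟨j, hj1, hj2⟩ := exists_nat_pow_near hx1' hr1
  have hjJ : J ≤ j := by
    by_contra hlt
    have h1 : r ^ (j + 1) ≤ r ^ J := pow_le_pow_right₀ hr1.le (by omega)
    linarith
  have hfx : ∑ p ∈ Finset.range (x + 1), w p = DetA_f w (x : ℝ) := by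
    unfold DetA_f
    rw [Nat.floor_natCast]
  have hlow : DetA_f w (r ^ j) ≤ DetA_f w (x : ℝ) := by
    rw [DetA_step w hj1]
    have := Finset.sum_nonneg (s := Finset.Ioc ⌊r ^ j⌋₊ ⌊(x : ℝ)⌋₊) fun p _ => hw p
    linarith
  have hup : DetA_f w (x : ℝ) ≤ DetA_f w (r ^ (j + 1)) := by
    rw [DetA_step w hj2.le]
    have := Finset.sum_nonneg (s := Finset.Ioc ⌊(x : ℝ)⌋₊ ⌊r ^ (j + 1)⌋₊) fun p _ => hw p
    linarith
  have hg1 := hJ j hjJ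
  have hg2 := hJ (j + 1) (by omega)
  rw [Real.dist_eq] at hg1 hg2
  obtain ⟨g1, hg1'⟩ : ∃ g, g = DetA_f w (r ^ j) / r ^ j := ⟨_, rfl⟩
  obtain ⟨g2, hg2'⟩ : ∃ g, g = DetA_f w (r ^ (j + 1)) / r ^ (j + 1) := ⟨_, rfl⟩
  rw [← hg1'] at hg1
  rw [← hg2'] at hg2
  have hrj : 0 < r ^ j := by positivity
  have hrj1 : 0 < r ^ (j + 1) := by positivity
  have e1 : DetA_f w (r ^ j) = g1 * r ^ j := by
    rw [hg1', div_mul_cancel₀ _ hrj.ne']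
  have e2 : DetA_f w (r ^ (j + 1)) = g2 * r ^ (j + 1) := by
    rw [hg2', div_mul_cancel₀ _ hrj1.ne']
  have hg10 : 0 ≤ g1 := by
    rw [hg1']
    exact div_nonneg (hfpos _) hrj.le
  have hg20 : 0 ≤ g2 := by
    rw [hg2']
    exact div_nonneg (hfpos _) hrj1.le
  have u1 : DetA_f w (x : ℝ) / x ≤ g2 * r := by
    rw [div_le_iff₀ hxpos]
    calc DetA_f w (x : ℝ) ≤ g2 * r ^ (j + 1) := by rw [← e2]; exact hup
      _ = g2 * r * r ^ j := by rw [pow_succ]; ring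
      _ ≤ g2 * r * x := mul_le_mul_of_nonneg_left hj1 (mul_nonneg hg20 hr0.le)
  have u2 : g1 * (1 - s) ≤ DetA_f w (x : ℝ) / x := by
    rw [le_div_iff₀ hxpos]
    have h1 : (1 - s) * x ≤ r ^ j := by
      have h2 : (1 - s) * r ≤ 1 := by
        rw [hr]
        nlinarith
      have h3 : 0 ≤ 1 - s := by linarith
      calc (1 - s) * x ≤ (1 - s) * (r ^ (j + 1)) := mul_le_mul_of_nonneg_left hj2.le h3
        _ = ((1 - s) * r) * r ^ j := by rw [pow_succ]; ring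
        _ ≤ 1 * r ^ j := mul_le_mul_of_nonneg_right h2 hrj.le
        _ = r ^ j := one_mul _
    calc g1 * (1 - s) * x = g1 * ((1 - s) * x) := by ring
      _ ≤ g1 * r ^ j := mul_le_mul_of_nonneg_left h1 hg10
      _ ≤ DetA_f w (x : ℝ) := by rw [← e1]; exact hlow
  rw [Real.dist_eq, hfx, abs_lt]
  rw [abs_lt] at hg1 hg2
  have hks : κ * s < ε / 4 := hκl
  constructor
  · have h1 : g1 * s ≤ (κ + ε / 4) * s := mul_le_mul_of_nonneg_right (by linarith) hs0.le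
    nlinarith
  · have h1 : g2 * s ≤ (κ + ε / 4) * s := mul_le_mul_of_nonneg_right (by linarith) hs0.le
    rw [hr] at u1
    nlinarith

end Pool.Agent.PCn
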