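import Pool.Agent.PCn.Ae
import Pool.Agent.PCn.DetA
import Pool.Agent.PCn.DetB

/-!
# The finite dimensional theorem

Countably many `l ≥ 10` in `ae_window`, `r = 1 + 1/l`; then `det_a` and `det_b` with `S = SS G ε a`, which is `o(q)` for every
`a` (`|∑ a_j/(log q)^j| ≤ ∑ |a_j|` for `q ≥ 3`).
-/

namespace Pool.Agent.PCn

open MeasureTheory Filter Topology

private theorem FinD_lim {M : ℕ} {G ε : ℕ → ℝ} (h : Hyp M G ε) {m : ℕ} (a : Fin m → ℝ) :
    Tendsto (fun q : ℕ => SS G ε a q / q) atTop (𝓝 0) := by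
  have h1 : Tendsto (fun q : ℕ => ε q * ∑ j : Fin m, a j / Real.log q ^ (j : ℕ)) atTop (𝓝 0) := by
    have h2 : Tendsto (fun q : ℕ => |ε q| * ∑ j : Fin m, |a j|) atTop (𝓝 0) := by
      have := h.ε0.abs.mul_const (∑ j : Fin m, |a j|)
      rwa [abs_zero, zero_mul] at this
    refine squeeze_zero_norm' ?_ h2
    filter_upwards [eventually_ge_atTop 3] with q hq
    rw [Real.norm_eq_abs, abs_mul]
    refine mul_le_mul_of_nonneg_left ?_ (abs_nonneg _)
    refine (Finset.abs_sum_le_sum_abs _ _).trans (Finset.sum_le_sum fun j _ => ?_)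
    have hq3 : (3 : ℝ) ≤ q := by exact_mod_cast hq
    have hlog : 1 ≤ Real.log q := by
      rw [Real.le_log_iff_exp_le (by linarith)]
      exact Real.exp_one_lt_three.le.trans hq3
    have hp : 1 ≤ Real.log q ^ (j : ℕ) := one_le_pow₀ hlog
    rw [abs_div, abs_of_pos (lt_of_lt_of_le one_pos hp)]
    exact div_le_self (abs_nonneg _) hp
  have h3 := h.G0.add h1
  rw [add_zero] at h3
  refine h3.congr' ?_
  filter_upwards [eventually_ge_atTop 1] with q hq
  have hq0 : (q : ℝ) ≠ 0 := by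
    have : q ≠ 0 := by omega
    exact_mod_cast this
  unfold SS pf
  field_simp

theorem fin_dim {M : ℕ} {G ε : ℕ → ℝ} (h : Hyp M G ε) (n m : ℕ) (hm : 2 * n ≤ m) :
    ∀ᵐ a ∂(volume.restrict (Cu m)),
      Tendsto (fun x : ℕ => (NN M (SS G ε a) n x : ℝ) * Real.log x ^ (n + 1) / x) atTop
        (𝓝 (kap M n)) := by
  have h1 : ∀ᵐ a ∂(volume.restrict (Cu m)), ∀ l : ℕ, 10 ≤ l →
      Tendsto (fun j : ℕ => VV M (SS G ε a) n ((1 + 1 / (l : ℝ)) ^ j)
        ((1 + 1 / (l : ℝ)) ^ (j + 1)) / (1 + 1 / (l : ℝ)) ^ j) atTop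
        (𝓝 (kap M n * ((1 + 1 / (l : ℝ)) - 1))) := by
    rw [ae_all_iff]
    intro l
    by_cases hl : 10 ≤ l
    · have hl' : (10 : ℝ) ≤ l := by exact_mod_cast hl
      have hl0 : (0 : ℝ) < l := by linarith
      have h2 : (0 : ℝ) < 1 / (l : ℝ) := by positivity
      have h3 : 1 / (l : ℝ) ≤ 1 / 10 := one_div_le_one_div_of_le (by norm_num) hl'
      filter_upwards [ae_window h n m hm (1 + 1 / (l : ℝ)) (by linarith) (by linarith)] with a ha _
      exact ha
    · exact Eventually.of_forall fun a h => absurd h hl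
  filter_upwards [h1] with a ha
  refine det_b M (SS G ε a) (FinD_lim h a) n (kap M n) (det_a _ (fun p => ?_) _ fun l hl => ?_)
  · refine Finset.prod_nonneg fun i _ => ?_
    unfold th
    split_ifs
    · exact Real.log_natCast_nonneg _
    · exact le_rfl
  · have h4 := ha l hl
    have h5 : (1 + 1 / (l : ℝ)) - 1 = 1 / (l : ℝ) := by ring
    rw [h5] at h4
    exact h4

end Pool.Agent.PCn
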