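import Mathlib

/-!
# The averaging lemma

For `0 ≤ s ≤ t` let `Ψ_s a = a + s • v (π a)`.  By `hinv` it is a bijection with inverse `Ψ_{-s}`, and it preserves the
Lebesgue measure: on the measurable set `{π = i}`, which is invariant, it is the translation by `s • v i`
(countably many `i`).  So with `Q = Icc 0 1`
`∫ 1_Q(a) H (π a) (ℓ a) = ∫ 1_Q(Ψ_s a) H (π a) (ℓ (Ψ_s a)) = ∫ 1_Q(Ψ_s a) H (π a) (ℓ a + s)` (`hslide`; both sides vanish
if `H (π a) = 0`), which differs from `∫ 1_Q(a) H (π a) (ℓ a + s)` by at most `K` times the measure of the set where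
exactly one of `a`, `Ψ_s a` lies in `Q`, contained in `[-tρ, 1+tρ]^m` minus `[tρ, 1-tρ]^m`, of measure
`(1 + 2tρ)^m - (1 - 2tρ)^m ≤ 4 m 2^m tρ` (`tρ ≤ 1/4`).  Integrate over `s ∈ [0, t]`, divide by `t`, exchange the
integrals (everything is bounded and measurable), and use `havg`.
-/

namespace Pool.Agent.PCn

open MeasureTheory

private theorem Flow_meas {m : ℕ} {ι : Type} [Countable ι] [MeasurableSpace ι]
    [MeasurableSingletonClass ι] (π : (Fin m → ℝ) → ι) (hπ : Measurable π) (v : ι → Fin m → ℝ)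
    (s : ℝ) : Measurable (fun a : Fin m → ℝ => a + s • v (π a)) := by
  have h1 : Measurable fun a : Fin m → ℝ => v (π a) :=
    (Measurable.of_discrete (f := v)).comp hπ
  exact measurable_id.add (h1.const_smul s)

theorem flow_pres {m : ℕ} {ι : Type} [Countable ι] [MeasurableSpace ι]
    [MeasurableSingletonClass ι] (π : (Fin m → ℝ) → ι) (hπ : Measurable π) (v : ι → Fin m → ℝ)
    (hinv : ∀ (a : Fin m → ℝ) (s : ℝ), π (a + s • v (π a)) = π a) (s : ℝ) :
    MeasurePreserving (fun a : Fin m → ℝ => a + s • v (π a)) := by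
  have hm := Flow_meas π hπ v s
  refine ⟨hm, ?_⟩
  ext B hB
  rw [Measure.map_apply hm hB]
  have hd : ∀ C : Set (Fin m → ℝ), MeasurableSet C →
      volume C = ∑' i : ι, volume (C ∩ π ⁻¹' {i}) := by
    intro C hC
    rw [← measure_iUnion]
    · congr 1
      ext a
      simp
    · intro i j hij
      refine Set.disjoint_left.2 ?_
      rintro a ⟨_, h1⟩ ⟨_, h2⟩
      exact hij (h1.symm.trans h2)
    · intro i
      exact hC.inter (hπ (measurableSet_singleton i))
  rw [hd _ (hm hB), hd B hB]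
  congr 1
  ext i
  have h1 : (fun a : Fin m → ℝ => a + s • v (π a)) ⁻¹' B ∩ π ⁻¹' {i} =
      (fun a : Fin m → ℝ => a + s • v i) ⁻¹' (B ∩ π ⁻¹' {i}) := by
    ext a
    simp only [Set.mem_inter_iff, Set.mem_preimage, Set.mem_singleton_iff]
    constructor
    · rintro ⟨h2, h3⟩
      rw [h3] at h2
      refine ⟨h2, ?_⟩
      have h4 := hinv a s
      rw [h3] at h4
      exact h4
    · rintro ⟨h2, h3⟩
      have h4 := hinv (a + s • v i) (-s)
      rw [h3] at h4
      have h5 : a + s • v i + -s • v i = a := by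
        rw [add_assoc, ← add_smul]
        simp
      rw [h5] at h4
      rw [h4]
      exact ⟨h2, rfl⟩
  rw [h1, measure_preimage_add_right]

private theorem Flow_pow (m : ℕ) {A B : ℝ} (hB : 0 ≤ B) (hB1 : B ≤ 1) (hAB : B ≤ A) (hA : A ≤ 2) :
    A ^ m - B ^ m ≤ m * 2 ^ m * (A - B) := by
  induction m with
  | zero => simp
  | succ m ih =>
    have h1 : A ^ (m + 1) - B ^ (m + 1) = A * (A ^ m - B ^ m) + (A - B) * B ^ m := by ring
    have h2 : B ^ m ≤ 1 := pow_le_one₀ hB hB1
    have h3 : (1 : ℝ) ≤ 2 ^ m := one_le_pow₀ (by norm_num)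
    have h4 : B ^ m ≤ A ^ m := pow_le_pow_left₀ hB hAB m
    have h5 : A * (A ^ m - B ^ m) ≤ 2 * (m * 2 ^ m * (A - B)) := by
      calc A * (A ^ m - B ^ m) ≤ 2 * (A ^ m - B ^ m) :=
            mul_le_mul_of_nonneg_right hA (by linarith)
        _ ≤ _ := by linarith
    have h6 : (A - B) * B ^ m ≤ (A - B) * (2 * 2 ^ m) :=
      mul_le_mul_of_nonneg_left (by linarith) (by linarith)
    rw [h1]
    push_cast
    calc _ ≤ 2 * (m * 2 ^ m * (A - B)) + (A - B) * (2 * 2 ^ m) := by linarith
      _ = _ := by ring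

theorem shell (m : ℕ) (x : ℝ) (h0 : 0 ≤ x) (h1 : x ≤ 1 / 4) :
    volume.real ((Set.Icc (fun _ : Fin m => -x) (fun _ => 1 + x)) \
      Set.Icc (fun _ => x) (fun _ => 1 - x)) ≤ 4 * m * 2 ^ m * x := by
  have hsub : Set.Icc (fun _ : Fin m => x) (fun _ => 1 - x) ⊆
      Set.Icc (fun _ : Fin m => -x) (fun _ => 1 + x) := by
    rintro a ⟨h2, h3⟩
    refine ⟨fun i => ?_, fun i => ?_⟩
    · have := h2 i
      simp only at this ⊢
      linarith
    · have := h3 i
      simp only at this ⊢
      linarith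
  have hfin : ∀ c d : Fin m → ℝ, volume (Set.Icc c d) ≠ ⊤ := by
    intro c d
    rw [Real.volume_Icc_pi]
    exact ENNReal.prod_ne_top fun i _ => ENNReal.ofReal_ne_top
  rw [measureReal_sdiff hsub measurableSet_Icc (hfin _ _)]
  have hv : ∀ c d : ℝ, c ≤ d → volume.real (Set.Icc (fun _ : Fin m => c) (fun _ => d)) =
      (d - c) ^ m := by
    intro c d hcd
    rw [Measure.real, Real.volume_Icc_pi_toReal]
    · simp
    · intro i
      exact hcd
  rw [hv _ _ (by linarith), hv _ _ (by linarith)]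
  have h2 := Flow_pow m (A := 1 + x - -x) (B := 1 - x - x) (by linarith) (by linarith) (by linarith)
    (by linarith)
  calc _ ≤ _ := h2
    _ = _ := by ring

theorem flow {m : ℕ} {ι : Type} [Countable ι] [MeasurableSpace ι] [MeasurableSingletonClass ι]
    (π : (Fin m → ℝ) → ι) (hπ : Measurable π) (v : ι → Fin m → ℝ) (ρ : ℝ) (hρ : 0 ≤ ρ)
    (hv : ∀ i j, |v i j| ≤ ρ) (hinv : ∀ (a : Fin m → ℝ) (s : ℝ), π (a + s • v (π a)) = π a)
    (ℓ : (Fin m → ℝ) → ℝ) (hℓ : Measurable ℓ) (H : ι → ℝ → ℝ) (hH : ∀ i, Measurable (H i))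
    (K : ℝ) (hK : ∀ i z, |H i z| ≤ K)
    (hslide : ∀ (a : Fin m → ℝ) (s : ℝ), (∃ z, H (π a) z ≠ 0) →
      ℓ (a + s • v (π a)) = ℓ a + s)
    (κ : ι → ℝ) (t η : ℝ) (ht : 0 < t) (htρ : t * ρ ≤ 1 / 4)
    (havg : ∀ a ∈ Set.Icc (0 : Fin m → ℝ) 1,
      |(1 / t) * (∫ s in (0 : ℝ)..t, H (π a) (ℓ a + s)) - κ (π a)| ≤ η) :
    |(∫ a in Set.Icc (0 : Fin m → ℝ) 1, H (π a) (ℓ a)) -
      ∫ a in Set.Icc (0 : Fin m → ℝ) 1, κ (π a)| ≤ η + K * (4 * m * 2 ^ m * (t * ρ)) := by
  have hK0 : 0 ≤ K := le_trans (abs_nonneg _) (hK (π 0) 0)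
  obtain ⟨Q, hQ⟩ : ∃ Q : Set (Fin m → ℝ), Q = Set.Icc 0 1 := ⟨_, rfl⟩
  have hQm : MeasurableSet Q := by rw [hQ]; exact measurableSet_Icc
  have hQv : volume Q = 1 := by
    rw [hQ, Real.volume_Icc_pi]
    simp
  have hQr : volume.real Q = 1 := by
    rw [Measure.real, hQv]
    rfl
  rw [← hQ] at havg ⊢
  have hHu : Measurable (fun p : ι × ℝ => H p.1 p.2) :=
    measurable_from_prod_countable_right hH
  have hG : Measurable (fun p : (Fin m → ℝ) × ℝ => H (π p.1) (ℓ p.1 + p.2)) :=
    hHu.comp ((hπ.comp measurable_fst).prodMk ((hℓ.comp measurable_fst).add measurable_snd))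
  have hF : Measurable (fun a : Fin m → ℝ => H (π a) (ℓ a)) :=
    hHu.comp (hπ.prodMk hℓ)
  have hGs : ∀ s : ℝ, Measurable (fun a : Fin m → ℝ => H (π a) (ℓ a + s)) := fun s =>
    hG.comp (measurable_id.prodMk measurable_const)
  have hκ : Measurable (fun a : Fin m → ℝ => κ (π a)) :=
    (Measurable.of_discrete (f := κ)).comp hπ
  -- the shell
  obtain ⟨x, hx⟩ : ∃ x, x = t * ρ := ⟨_, rfl⟩
  have hx0 : 0 ≤ x := by rw [hx]; positivity
  rw [← hx] at htρ ⊢
  obtain ⟨Sh, hSh⟩ : ∃ Sh : Set (Fin m → ℝ), Sh = (Set.Icc (fun _ : Fin m => -x) (fun _ => 1 + x)) \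
      Set.Icc (fun _ => x) (fun _ => 1 - x) := ⟨_, rfl⟩
  have hShm : MeasurableSet Sh := by
    rw [hSh]
    exact measurableSet_Icc.diff measurableSet_Icc
  have hShv : volume.real Sh ≤ 4 * m * 2 ^ m * x := by
    rw [hSh]
    exact shell m x hx0 htρ
  have hShf : volume Sh ≠ ⊤ := by
    rw [hSh]
    refine ne_top_of_le_ne_top ?_ (measure_mono Set.sdiff_subset)
    rw [Real.volume_Icc_pi]
    exact ENNReal.prod_ne_top fun i _ => ENNReal.ofReal_ne_top
  -- one shift
  have hshift : ∀ s ∈ Set.Ioc (0 : ℝ) t,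
      |(∫ a in Q, H (π a) (ℓ a)) - ∫ a in Q, H (π a) (ℓ a + s)| ≤ K * volume.real Sh := by
    intro s hs
    have hp := flow_pres π hπ v hinv s
    have hΨm := Flow_meas π hπ v s
    have e1 : (∫ a in Q, H (π a) (ℓ a)) =
        ∫ a, Q.indicator (fun a => H (π a) (ℓ a)) (a + s • v (π a)) := by
      rw [← integral_indicator hQm]
      conv_lhs => rw [← hp.map_eq]
      exact integral_map hΨm.aemeasurable (hF.indicator hQm).aestronglyMeasurable
    have e2 : ∀ a : Fin m → ℝ, Q.indicator (fun a => H (π a) (ℓ a)) (a + s • v (π a)) =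
        {a : Fin m → ℝ | a + s • v (π a) ∈ Q}.indicator (fun a => H (π a) (ℓ a + s)) a := by
      intro a
      have h1 : H (π (a + s • v (π a))) (ℓ (a + s • v (π a))) = H (π a) (ℓ a + s) := by
        rw [hinv]
        by_cases hz : ∃ z, H (π a) z ≠ 0
        · rw [hslide a s hz]
        · push Not at hz
          rw [hz, hz]
      by_cases ha : a + s • v (π a) ∈ Q
      · rw [Set.indicator_of_mem ha, Set.indicator_of_mem (show a ∈ {a : Fin m → ℝ |
          a + s • v (π a) ∈ Q} from ha)]
        exact h1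
      · rw [Set.indicator_of_notMem ha, Set.indicator_of_notMem (show a ∉ {a : Fin m → ℝ |
          a + s • v (π a) ∈ Q} from ha)]
    simp only [e2] at e1
    have hQs : MeasurableSet {a : Fin m → ℝ | a + s • v (π a) ∈ Q} := hΨm hQm
    rw [e1, ← integral_indicator hQm]
    have hQsv : volume {a : Fin m → ℝ | a + s • v (π a) ∈ Q} = 1 := by
      rw [← hQv]
      exact hp.measure_preimage hQm.nullMeasurableSet
    have hi : ∀ R : Set (Fin m → ℝ), MeasurableSet R → volume R ≠ ⊤ →
        Integrable (R.indicator (fun a => H (π a) (ℓ a + s))) := by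
      intro R hR hRf
      rw [integrable_indicator_iff hR]
      refine IntegrableOn.of_bound (lt_top_iff_ne_top.2 hRf) (hGs s).aestronglyMeasurable K ?_
      exact Filter.Eventually.of_forall fun a => hK _ _
    rw [← integral_sub (hi _ hQs (by rw [hQsv]; exact ENNReal.one_ne_top))
      (hi _ hQm (by rw [hQv]; exact ENNReal.one_ne_top))]
    have hb : ∀ a, ‖{a : Fin m → ℝ | a + s • v (π a) ∈ Q}.indicator
        (fun a => H (π a) (ℓ a + s)) a - Q.indicator (fun a => H (π a) (ℓ a + s)) a‖ ≤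
        Sh.indicator (fun _ => K) a := by
      intro a
      have hsv : ∀ j, |s * v (π a) j| ≤ x := by
        intro j
        rw [abs_mul, abs_of_pos hs.1, hx]
        exact mul_le_mul hs.2 (hv _ _) (abs_nonneg _) ht.le
      have hnn : 0 ≤ Sh.indicator (fun _ : Fin m → ℝ => K) a :=
        Set.indicator_nonneg (fun _ _ => hK0) a
      by_cases h1 : a + s • v (π a) ∈ Q
      · by_cases h2 : a ∈ Q
        · rw [Set.indicator_of_mem (show a ∈ {a : Fin m → ℝ | a + s • v (π a) ∈ Q} from h1),
            Set.indicator_of_mem h2, sub_self, norm_zero]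
          exact hnn
        · rw [Set.indicator_of_mem (show a ∈ {a : Fin m → ℝ | a + s • v (π a) ∈ Q} from h1),
            Set.indicator_of_notMem h2, sub_zero]
          have h3 : a ∈ Sh := by
            rw [hSh]
            rw [hQ] at h1 h2
            refine ⟨⟨fun j => ?_, fun j => ?_⟩, fun h4 => h2 ⟨fun j => ?_, fun j => ?_⟩⟩
            · have h5 := h1.1 j
              have h6 := abs_le.1 (hsv j)
              simp only [Pi.zero_apply, Pi.add_apply, Pi.smul_apply, smul_eq_mul] at h5 ⊢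
              linarith
            · have h5 := h1.2 j
              have h6 := abs_le.1 (hsv j)
              simp only [Pi.one_apply, Pi.add_apply, Pi.smul_apply, smul_eq_mul] at h5 ⊢
              linarith
            · have h5 := h4.1 j
              simp only [Pi.zero_apply] at h5 ⊢
              linarith
            · have h5 := h4.2 j
              simp only [Pi.one_apply] at h5 ⊢
              linarith
          rw [Set.indicator_of_mem h3]
          exact hK _ _
      · by_cases h2 : a ∈ Q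
        · rw [Set.indicator_of_notMem (show a ∉ {a : Fin m → ℝ | a + s • v (π a) ∈ Q} from h1),
            Set.indicator_of_mem h2, zero_sub, norm_neg]
          have h3 : a ∈ Sh := by
            rw [hSh]
            rw [hQ] at h1 h2
            refine ⟨⟨fun j => ?_, fun j => ?_⟩, fun h4 => h1 ⟨fun j => ?_, fun j => ?_⟩⟩
            · have h5 := h2.1 j
              simp only [Pi.zero_apply] at h5 ⊢
              linarith
            · have h5 := h2.2 j
              simp only [Pi.one_apply] at h5 ⊢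
              linarith
            · have h5 := h4.1 j
              have h6 := abs_le.1 (hsv j)
              simp only [Pi.zero_apply, Pi.add_apply, Pi.smul_apply, smul_eq_mul] at h5 ⊢
              linarith
            · have h5 := h4.2 j
              have h6 := abs_le.1 (hsv j)
              simp only [Pi.one_apply, Pi.add_apply, Pi.smul_apply, smul_eq_mul] at h5 ⊢
              linarith
          rw [Set.indicator_of_mem h3]
          exact hK _ _
        · rw [Set.indicator_of_notMem (show a ∉ {a : Fin m → ℝ | a + s • v (π a) ∈ Q} from h1),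
            Set.indicator_of_notMem h2, sub_self, norm_zero]
          exact hnn
    have hSi : Integrable (Sh.indicator (fun _ : Fin m → ℝ => K)) := by
      rw [integrable_indicator_iff hShm]
      exact integrableOn_const hShf
    have h7 := norm_integral_le_of_norm_le hSi (Filter.Eventually.of_forall hb)
    rw [integral_indicator hShm, setIntegral_const, smul_eq_mul, mul_comm] at h7
    rw [← Real.norm_eq_abs]
    exact h7
  -- Fubini
  have hint : Integrable (Function.uncurry fun (a : Fin m → ℝ) (s : ℝ) => H (π a) (ℓ a + s))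
      ((volume.restrict Q).prod (volume.restrict (Set.Ioc 0 t))) := by
    have : IsFiniteMeasure (volume.restrict Q) := ⟨by
      rw [Measure.restrict_apply_univ, hQv]
      exact ENNReal.one_lt_top⟩
    refine Integrable.of_bound hG.aestronglyMeasurable K ?_
    exact Filter.Eventually.of_forall fun a => hK _ _
  have hswap := integral_integral_swap hint
  have hi1 : Integrable (fun a => ∫ s in Set.Ioc 0 t, H (π a) (ℓ a + s)) (volume.restrict Q) :=
    hint.integral_prod_left
  have hi2 : Integrable (fun s => ∫ a in Q, H (π a) (ℓ a + s)) (volume.restrict (Set.Ioc 0 t)) :=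
    hint.integral_prod_right
  obtain ⟨I, hI⟩ : ∃ I, I = ∫ a in Q, H (π a) (ℓ a) := ⟨_, rfl⟩
  rw [← hI] at hshift ⊢
  have hvt : volume.real (Set.Ioc 0 t) = t := by
    rw [Measure.real, Real.volume_Ioc, sub_zero, ENNReal.toReal_ofReal ht.le]
  have h1 : |t * I - ∫ s in Set.Ioc 0 t, ∫ a in Q, H (π a) (ℓ a + s)| ≤ K * volume.real Sh * t := by
    have h2 : t * I - ∫ s in Set.Ioc 0 t, ∫ a in Q, H (π a) (ℓ a + s) =
        ∫ s in Set.Ioc 0 t, (I - ∫ a in Q, H (π a) (ℓ a + s)) := by
      have hc : Integrable (fun _ : ℝ => I) (volume.restrict (Set.Ioc 0 t)) :=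
        integrableOn_const (by rw [Real.volume_Ioc]; exact ENNReal.ofReal_ne_top)
      rw [integral_sub hc hi2, setIntegral_const, hvt, smul_eq_mul]
    rw [h2, ← Real.norm_eq_abs]
    have h3 := norm_setIntegral_le_of_norm_le_const (μ := volume) (s := Set.Ioc 0 t)
      (f := fun s => I - ∫ a in Q, H (π a) (ℓ a + s)) (C := K * volume.real Sh)
      (by rw [Real.volume_Ioc]; exact ENNReal.ofReal_lt_top) (fun s hs => hshift s hs)
    rw [hvt] at h3
    exact h3
  have hκb : IntegrableOn (fun a => κ (π a)) Q := by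
    refine IntegrableOn.of_bound (by rw [hQv]; exact ENNReal.one_lt_top)
      hκ.aestronglyMeasurable (η + K) ?_
    refine (ae_restrict_iff' hQm).2 (Filter.Eventually.of_forall fun a ha => ?_)
    have h2 := havg a ha
    have h3 : |(1 / t) * (∫ s in (0 : ℝ)..t, H (π a) (ℓ a + s))| ≤ K := by
      have h4 := intervalIntegral.norm_integral_le_of_norm_le_const (a := 0) (b := t)
        (f := fun s => H (π a) (ℓ a + s)) (C := K) (fun s _ => hK _ _)
      rw [sub_zero, abs_of_pos ht, Real.norm_eq_abs] at h4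
      rw [abs_mul, abs_of_pos (by positivity : 0 < 1 / t), one_div, inv_mul_le_iff₀ ht, mul_comm t K]
      exact h4
    rw [Real.norm_eq_abs]
    have h5 := abs_sub_abs_le_abs_sub (κ (π a)) ((1 / t) * (∫ s in (0 : ℝ)..t, H (π a) (ℓ a + s)))
    rw [abs_sub_comm (κ (π a))] at h5
    linarith
  have h2 : |(1 / t) * (∫ a in Q, ∫ s in Set.Ioc 0 t, H (π a) (ℓ a + s)) - ∫ a in Q, κ (π a)| ≤ η := by
    rw [← integral_const_mul, ← integral_sub (hi1.const_mul _) hκb, ← Real.norm_eq_abs]
    have h3 := norm_setIntegral_le_of_norm_le_const (μ := volume) (s := Q)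
      (f := fun a => 1 / t * (∫ s in Set.Ioc 0 t, H (π a) (ℓ a + s)) - κ (π a)) (C := η)
      (by rw [hQv]; exact ENNReal.one_lt_top) (fun a ha => by
        have h4 := havg a ha
        rw [intervalIntegral.integral_of_le ht.le] at h4
        exact h4)
    rw [hQr, mul_one] at h3
    exact h3
  rw [hswap] at h2
  obtain ⟨J, hJ⟩ : ∃ J, J = ∫ s in Set.Ioc 0 t, ∫ a in Q, H (π a) (ℓ a + s) := ⟨_, rfl⟩
  rw [← hJ] at h1 h2
  have h3 : |I - 1 / t * J| ≤ K * volume.real Sh := by
    have h4 : I - 1 / t * J = (1 / t) * (t * I - J) := by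
      field_simp
    rw [h4, abs_mul, abs_of_pos (by positivity : 0 < 1 / t), one_div, inv_mul_le_iff₀ ht]
    linarith
  have h5 := abs_sub_le I (1 / t * J) (∫ a in Q, κ (π a))
  have h6 : K * volume.real Sh ≤ K * (4 * m * 2 ^ m * x) := mul_le_mul_of_nonneg_left hShv hK0
  linarith

end Pool.Agent.PCn
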