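import Pool.Agent.PCn.Basic

/-!
# Size and residue classes of the terms of a chain

Induction on `i`.  For parameters in `[-1, 2]` and `q ≥ 3^2`: `|pf ε a q| ≤ ε q * q * 2 ∑_j (log q)^{-j} ≤ 4 ε q * q`
(`log q ≥ 2` for `q ≥ 8`), so `|S q| ≤ η q` for all `q ≥ Y'(η)`, uniformly in `a`.
Take `η` so small that `(2 + 2 M η)^n * 11/10 ≤ 5/4 * 2^n`, `(2 - 2 M η)^n ≥ 7/8 * 2^n`, `η * 5/4 * 2^n ≤ 1/(40 M)`.
`T M S q = 2q + 1 + M ⌊S q⌋` is then positive (so `toNat` does nothing), congruent to `2q + 1` modulo `M`, and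
`2^{i+1} (p+1) - 1 = 2 (2^i (p+1) - 1) + 1`.
`logs`: `log (2^(n+4) y) ≤ (n+4) + log y`, and a power of `log y` is `≤ exp(c (log y)^{1/28})` for large `y`.
`th_bd`: `0 ≤ th c ≤ log c` and `growth`.
-/

namespace Pool.Agent.PCn

open Filter Topology

private theorem Growth_SS {M : ℕ} {G ε : ℕ → ℝ} (h : Hyp M G ε) (m : ℕ) {η : ℝ} (hη : 0 < η) :
    ∃ Q : ℕ, ∀ q : ℕ, Q ≤ q → ∀ a : Fin m → ℝ, (∀ j, a j ∈ Set.Icc (-1 : ℝ) 2) →
      |SS G ε a q| ≤ η * q := by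
  have h1 : ∀ᶠ q : ℕ in atTop, |G q / q| < η / 2 := by
    have := (h.G0.abs).eventually_lt_const (u := η / 2) (by simpa using half_pos hη)
    exact this
  have h2 : ∀ᶠ q : ℕ in atTop, |ε q| * (2 * m) < η / 2 := by
    have h3 : Tendsto (fun q => |ε q| * (2 * (m : ℝ))) atTop (𝓝 (|0| * (2 * (m : ℝ)))) :=
      h.ε0.abs.mul_const _
    exact h3.eventually_lt_const (u := η / 2) (by simpa using half_pos hη)
  obtain ⟨Q, hQ⟩ := eventually_atTop.mp (h1.and h2)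
  refine ⟨max Q 3, fun q hq a ha => ?_⟩
  obtain ⟨h3, h4⟩ := hQ q (le_trans (le_max_left _ _) hq)
  have hq3 : 3 ≤ q := le_trans (le_max_right _ _) hq
  have hq0 : (0 : ℝ) < q := by
    have : (3 : ℝ) ≤ q := by exact_mod_cast hq3
    linarith
  have hlog : 1 ≤ Real.log q := by
    have h5 : Real.exp 1 ≤ q := by
      have h6 : Real.exp 1 < 2.7182818286 := Real.exp_one_lt_d9
      have : (3 : ℝ) ≤ q := by exact_mod_cast hq3
      linarith
    rwa [Real.le_log_iff_exp_le hq0]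
  have hG : |G q| ≤ η / 2 * q := by
    rw [abs_div, Nat.abs_cast, div_lt_iff₀ hq0] at h3
    exact h3.le
  have hsum : |∑ j : Fin m, a j / Real.log q ^ (j : ℕ)| ≤ 2 * m := by
    refine (Finset.abs_sum_le_sum_abs _ _).trans ?_
    have h5 : ∀ j ∈ (Finset.univ : Finset (Fin m)), |a j / Real.log q ^ (j : ℕ)| ≤ 2 := by
      intro j _
      have h6 : 1 ≤ Real.log q ^ (j : ℕ) := one_le_pow₀ hlog
      have h7 : |a j| ≤ 2 := abs_le.mpr ⟨by linarith [(ha j).1], (ha j).2⟩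
      rw [abs_div, abs_of_pos (by linarith : (0 : ℝ) < Real.log q ^ (j : ℕ)),
        div_le_iff₀ (by linarith)]
      nlinarith
    refine (Finset.sum_le_sum h5).trans ?_
    rw [Finset.sum_const, Finset.card_univ, Fintype.card_fin, nsmul_eq_mul]
    linarith
  have hpf : |pf ε a q| ≤ η / 2 * q := by
    unfold pf
    rw [abs_mul, abs_mul, Nat.abs_cast]
    calc |ε q| * q * |∑ j : Fin m, a j / Real.log q ^ (j : ℕ)|
        ≤ |ε q| * q * (2 * m) := mul_le_mul_of_nonneg_left hsum (by positivity)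
      _ = (|ε q| * (2 * m)) * q := by ring
      _ ≤ η / 2 * q := mul_le_mul_of_nonneg_right h4.le hq0.le
  unfold SS
  calc |G q + pf ε a q| ≤ |G q| + |pf ε a q| := abs_add_le _ _
    _ ≤ η / 2 * q + η / 2 * q := add_le_add hG hpf
    _ = η * q := by ring

/-- one step of the chain -/
private theorem Growth_step {M : ℕ} (hM : 0 < M) {S : ℕ → ℝ} {q : ℕ} {η : ℝ} (hη : 0 < η)
    (hη1 : M * η < 1) (hS : |S q| ≤ η * q) (hq : 1 ≤ η * q) :
    ((T M S q : ℕ) : ℤ) = 2 * (q : ℤ) + 1 + M * ⌊S q⌋ ∧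
      2 * (1 - M * η) * q ≤ (T M S q : ℝ) ∧ (T M S q : ℝ) ≤ 2 * (1 + M * η) * q := by
  have hM1 : (1 : ℝ) ≤ M := by exact_mod_cast hM
  have hq0 : (0 : ℝ) < q := by
    by_contra hcon
    have : (q : ℝ) = 0 := le_antisymm (not_lt.mp hcon) (Nat.cast_nonneg q)
    rw [this, mul_zero] at hq
    linarith
  obtain ⟨h1, h2⟩ := abs_le.mp hS
  have h3 : (⌊S q⌋ : ℝ) ≤ S q := Int.floor_le _
  have h4 : S q - 1 < (⌊S q⌋ : ℝ) := Int.sub_one_lt_floor _
  have hlow : 2 * (1 - M * η) * q ≤ 2 * (q : ℝ) + 1 + M * (⌊S q⌋ : ℝ) := by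
    have h5 : (M : ℝ) * (-(η * q) - 1) ≤ M * (⌊S q⌋ : ℝ) :=
      mul_le_mul_of_nonneg_left (by linarith) (by linarith)
    have h6 : (M : ℝ) * 1 ≤ M * (η * q) := mul_le_mul_of_nonneg_left hq (by linarith)
    nlinarith
  have hupp : 2 * (q : ℝ) + 1 + M * (⌊S q⌋ : ℝ) ≤ 2 * (1 + M * η) * q := by
    have h5 : (M : ℝ) * (⌊S q⌋ : ℝ) ≤ M * (η * q) :=
      mul_le_mul_of_nonneg_left (by linarith) (by linarith)
    have h6 : (1 : ℝ) ≤ M * (η * q) := by nlinarith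
    nlinarith
  have hpos : (0 : ℝ) < 2 * (q : ℝ) + 1 + M * (⌊S q⌋ : ℝ) := by
    refine lt_of_lt_of_le ?_ hlow
    have : 0 < 1 - M * η := by linarith
    positivity
  have hposZ : (0 : ℤ) < 2 * (q : ℤ) + 1 + M * ⌊S q⌋ := by exact_mod_cast hpos
  have e : ((T M S q : ℕ) : ℤ) = 2 * (q : ℤ) + 1 + M * ⌊S q⌋ := by
    unfold T
    exact Int.toNat_of_nonneg hposZ.le
  have eR : (T M S q : ℝ) = 2 * (q : ℝ) + 1 + M * (⌊S q⌋ : ℝ) := by
    have := congrArg (fun z : ℤ => (z : ℝ)) e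
    push_cast at this
    exact this
  refine ⟨e, ?_, ?_⟩
  · rw [eR]; exact hlow
  · rw [eR]; exact hupp

private theorem Growth_mod {M : ℕ} {q c b : ℕ} {f : ℤ} (hq : 0 < b)
    (h : c ≡ b - 1 [MOD M]) (e : (q : ℤ) = 2 * (c : ℤ) + 1 + M * f) :
    q ≡ 2 * b - 1 [MOD M] := by
  rw [← Int.natCast_modEq_iff] at h ⊢
  have h1 : ((b - 1 : ℕ) : ℤ) = b - 1 := by
    rw [Nat.cast_sub hq]; simp
  have h2 : ((2 * b - 1 : ℕ) : ℤ) = 2 * b - 1 := by
    rw [Nat.cast_sub (by omega)]; push_cast; ring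
  rw [h1] at h
  rw [h2, e]
  have h3 : (2 * (c : ℤ) + 1 + M * f) ≡ 2 * (c : ℤ) + 1 [ZMOD M] := by
    have : (2 * (c : ℤ) + 1 + M * f) ≡ 2 * (c : ℤ) + 1 + 0 [ZMOD M] := by
      refine Int.ModEq.add_left _ ?_
      exact (Int.modEq_zero_iff_dvd.mpr (dvd_mul_right _ _))
    simpa using this
  have h4 : 2 * (c : ℤ) + 1 ≡ 2 * ((b : ℤ) - 1) + 1 [ZMOD M] :=
    Int.ModEq.add_right _ (Int.ModEq.mul_left _ h)
  have h5 : 2 * ((b : ℤ) - 1) + 1 = 2 * (b : ℤ) - 1 := by ring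
  rw [h5] at h4
  exact h3.trans h4

private theorem Growth_pow {x : ℝ} (hx : 0 ≤ x) {n : ℕ} (hn : n * x ≤ 1 / 50) :
    (1 + x) ^ n ≤ 50 / 49 ∧ 49 / 50 ≤ (1 - x) ^ n := by
  rcases Nat.eq_zero_or_pos n with rfl | hn0
  · norm_num
  · have hn1 : (1 : ℝ) ≤ n := by exact_mod_cast hn0
    have hx1 : x ≤ 1 / 50 := by nlinarith
    have h1 : 1 + (n : ℝ) * (-x) ≤ (1 + -x) ^ n := one_add_mul_le_pow (by linarith) n
    have h2 : 49 / 50 ≤ (1 - x) ^ n := by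
      rw [← sub_eq_add_neg] at h1
      linarith
    refine ⟨?_, h2⟩
    have h3 : (1 + x) ^ n * (1 - x) ^ n ≤ 1 := by
      rw [← mul_pow]
      refine pow_le_one₀ (by nlinarith) (by nlinarith)
    have h4 : 0 < (1 + x) ^ n := by positivity
    nlinarith

private theorem Growth_inv {M : ℕ} (hM : 0 < M) {S : ℕ → ℝ} {η y : ℝ} (hη : 0 < η) {n : ℕ}
    (hx : n * (M * η) ≤ 1 / 50) (hx1 : M * η ≤ 1 / 50) (hy : 0 < y)
    (hS : ∀ q : ℕ, 7 / 8 * y ≤ q → |S q| ≤ η * q) (hy1 : 1 ≤ η * (7 / 8 * y))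
    {p : ℕ} (hp : y < p) (hp1 : (p : ℝ) ≤ 11 / 10 * y) (i : ℕ) (hi : i ≤ n) :
    2 ^ i * (1 - M * η) ^ i * y ≤ ch M S p i ∧
      (ch M S p i : ℝ) ≤ 2 ^ i * (1 + M * η) ^ i * (11 / 10 * y) ∧
      ch M S p i ≡ 2 ^ i * (p + 1) - 1 [MOD M] := by
  have hM1 : (1 : ℝ) ≤ M := by exact_mod_cast hM
  induction i with
  | zero =>
    rw [ch_zero]
    refine ⟨by simpa using hp.le, by simpa using hp1, ?_⟩
    simp
    rfl
  | succ i ih =>
    obtain ⟨h1, h2, h3⟩ := ih (by omega)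
    have hi' : (i : ℝ) * (M * η) ≤ 1 / 50 := by
      refine le_trans ?_ hx
      refine mul_le_mul_of_nonneg_right ?_ (by positivity)
      exact_mod_cast (by omega : i ≤ n)
    obtain ⟨h4, h5⟩ := Growth_pow (by positivity) hi'
    have h6 : 7 / 8 * y ≤ ch M S p i := by
      refine le_trans ?_ h1
      have h7 : (1 : ℝ) ≤ 2 ^ i := one_le_pow₀ (by norm_num)
      have h8 : 49 / 50 ≤ 2 ^ i * (1 - M * η) ^ i := by nlinarith
      nlinarith
    have h7 := hS _ h6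
    have h8 : 1 ≤ η * (ch M S p i : ℝ) := le_trans hy1 (mul_le_mul_of_nonneg_left h6 hη.le)
    obtain ⟨e, h9, h10⟩ := Growth_step hM hη (by linarith) h7 h8
    rw [ch_succ]
    refine ⟨?_, ?_, ?_⟩
    · calc 2 ^ (i + 1) * (1 - M * η) ^ (i + 1) * y
          = 2 * (1 - M * η) * (2 ^ i * (1 - M * η) ^ i * y) := by ring
        _ ≤ 2 * (1 - M * η) * (ch M S p i) :=
          mul_le_mul_of_nonneg_left h1 (by nlinarith)
        _ ≤ _ := h9
    · calc (T M S (ch M S p i) : ℝ) ≤ 2 * (1 + M * η) * (ch M S p i) := h10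
        _ ≤ 2 * (1 + M * η) * (2 ^ i * (1 + M * η) ^ i * (11 / 10 * y)) :=
          mul_le_mul_of_nonneg_left h2 (by positivity)
        _ = _ := by ring
    · have h11 := Growth_mod (b := 2 ^ i * (p + 1)) (by positivity) h3 e
      have e2 : 2 * (2 ^ i * (p + 1)) = 2 ^ (i + 1) * (p + 1) := by ring
      rw [e2] at h11
      exact h11

theorem growth {M : ℕ} {G ε : ℕ → ℝ} (h : Hyp M G ε) (n m : ℕ) : ∃ Y : ℝ, 3 ≤ Y ∧ ∀ y ≥ Y,
    ∀ a : Fin m → ℝ, (∀ j, a j ∈ Set.Icc (-1 : ℝ) 2) → ∀ p : ℕ, y < p → (p : ℝ) ≤ 11 / 10 * y →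
    ∀ i ≤ n, 7 / 8 * 2 ^ i * y ≤ ch M (SS G ε a) p i ∧
      (ch M (SS G ε a) p i : ℝ) ≤ 5 / 4 * 2 ^ i * y ∧
      ch M (SS G ε a) p i ≡ 2 ^ i * (p + 1) - 1 [MOD M] ∧
      |SS G ε a (ch M (SS G ε a) p i)| ≤ y / (40 * M) := by
  have hM := h.M0
  have hM1 : (1 : ℝ) ≤ M := by exact_mod_cast hM
  have h2n : (1 : ℝ) ≤ 2 ^ n := one_le_pow₀ (by norm_num)
  obtain ⟨η, hηe⟩ : ∃ η : ℝ, η = 1 / (50 * M * 2 ^ n) := ⟨_, rfl⟩
  have hη : 0 < η := by rw [hηe]; positivity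
  have hMη : M * η * 2 ^ n = 1 / 50 := by
    rw [hηe]; field_simp
  have hx1 : M * η ≤ 1 / 50 := by
    have : 0 < M * η := by positivity
    nlinarith
  have hx : n * (M * η) ≤ 1 / 50 := by
    have h1 : (n : ℝ) ≤ 2 ^ n := by exact_mod_cast (Nat.lt_two_pow_self (n := n)).le
    have : 0 < M * η := by positivity
    nlinarith
  obtain ⟨Q, hQ⟩ := Growth_SS h m hη
  refine ⟨max 3 (max (8 / 7 * Q) (8 / 7 * (1 / η))), le_max_left _ _, ?_⟩
  intro y hy a ha p hp hp1 i hi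
  have hy3 : 3 ≤ y := le_trans (le_max_left _ _) hy
  have hyQ : 8 / 7 * Q ≤ y := le_trans (le_trans (le_max_left _ _) (le_max_right _ _)) hy
  have hyη : 8 / 7 * (1 / η) ≤ y := le_trans (le_trans (le_max_right _ _) (le_max_right _ _)) hy
  have hy0 : 0 < y := by linarith
  have hS : ∀ q : ℕ, 7 / 8 * y ≤ q → |SS G ε a q| ≤ η * q := by
    intro q hq
    refine hQ q ?_ a ha
    have : (Q : ℝ) ≤ q := by linarith
    exact_mod_cast this
  have hy1 : 1 ≤ η * (7 / 8 * y) := by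
    have h1 : 1 / η ≤ 7 / 8 * y := by linarith
    rw [div_le_iff₀ hη] at h1
    linarith
  obtain ⟨h1, h2, h3⟩ := Growth_inv hM hη hx hx1 hy0 hS hy1 hp hp1 i hi
  have hi' : (i : ℝ) * (M * η) ≤ 1 / 50 := by
    refine le_trans ?_ hx
    refine mul_le_mul_of_nonneg_right ?_ (by positivity)
    exact_mod_cast hi
  obtain ⟨h4, h5⟩ := Growth_pow (by positivity) hi'
  have h2i : (1 : ℝ) ≤ 2 ^ i := one_le_pow₀ (by norm_num)
  have h2i' : (2 : ℝ) ^ i ≤ 2 ^ n := pow_le_pow_right₀ (by norm_num) hi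
  have hlo : 7 / 8 * 2 ^ i * y ≤ ch M (SS G ε a) p i := by
    refine le_trans ?_ h1
    refine mul_le_mul_of_nonneg_right ?_ hy0.le
    nlinarith
  have hup : (ch M (SS G ε a) p i : ℝ) ≤ 5 / 4 * 2 ^ i * y := by
    refine le_trans h2 ?_
    have h6 : 2 ^ i * (1 + M * η) ^ i * (11 / 10) ≤ 5 / 4 * 2 ^ i := by nlinarith
    calc 2 ^ i * (1 + M * η) ^ i * (11 / 10 * y) = (2 ^ i * (1 + M * η) ^ i * (11 / 10)) * y := by
          ring
      _ ≤ 5 / 4 * 2 ^ i * y := mul_le_mul_of_nonneg_right h6 hy0.le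
  refine ⟨hlo, hup, h3, ?_⟩
  have h6 : 7 / 8 * y ≤ ch M (SS G ε a) p i := by
    refine le_trans ?_ hlo
    refine mul_le_mul_of_nonneg_right ?_ hy0.le
    linarith
  refine (hS _ h6).trans ?_
  have h7 : η * (ch M (SS G ε a) p i : ℝ) ≤ η * (5 / 4 * 2 ^ n * y) := by
    refine mul_le_mul_of_nonneg_left ?_ hη.le
    refine hup.trans ?_
    refine mul_le_mul_of_nonneg_right ?_ hy0.le
    linarith
  refine h7.trans (le_of_eq ?_)
  rw [hηe]
  field_simp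
  norm_num

private theorem Growth_lam : Tendsto lam atTop atTop := by
  unfold lam
  exact (tendsto_rpow_atTop (by norm_num : (0 : ℝ) < 1 / 28)).comp Real.tendsto_log_atTop

theorem logs (n K : ℕ) (c : ℝ) (hc : 0 < c) : ∃ Y : ℝ, 3 ≤ Y ∧ ∀ y ≥ Y,
    1 ≤ Real.log (2 ^ (n + 4) * y) ∧ 1 ≤ lam y ∧
      Real.log (2 ^ (n + 4) * y) ^ K ≤ Real.exp (c * lam y) := by
  have h1 : ∀ᶠ v : ℝ in atTop, 2 ^ K * v ^ (28 * K) ≤ Real.exp (c * v) := by
    have h2 := (isLittleO_pow_exp_pos_mul_atTop (k := 28 * K) hc).bound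
      (show (0 : ℝ) < 1 / 2 ^ K by positivity)
    filter_upwards [h2, eventually_ge_atTop 0] with v hv hv0
    rw [Real.norm_of_nonneg (by positivity), Real.norm_of_nonneg (Real.exp_pos _).le] at hv
    have h3 := mul_le_mul_of_nonneg_left hv (show (0 : ℝ) ≤ 2 ^ K by positivity)
    refine h3.trans (le_of_eq ?_)
    field_simp
  have h2 : ∀ᶠ y : ℝ in atTop, 2 ^ K * lam y ^ (28 * K) ≤ Real.exp (c * lam y) :=
    Growth_lam.eventually h1
  have h3 : ∀ᶠ y : ℝ in atTop, 1 ≤ lam y := Growth_lam.eventually (eventually_ge_atTop 1)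
  have h4 : ∀ᶠ y : ℝ in atTop, max 1 (Real.log (2 ^ (n + 4))) ≤ Real.log y :=
    Real.tendsto_log_atTop.eventually (eventually_ge_atTop _)
  obtain ⟨Y, hY⟩ := eventually_atTop.mp ((h2.and h3).and h4)
  refine ⟨max Y 3, le_max_right _ _, fun y hy => ?_⟩
  obtain ⟨⟨h5, h6⟩, h7⟩ := hY y (le_trans (le_max_left _ _) hy)
  have hy3 : 3 ≤ y := le_trans (le_max_right _ _) hy
  have hy0 : 0 < y := by linarith
  have h8 : 1 ≤ Real.log y := le_trans (le_max_left _ _) h7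
  have h9 : Real.log (2 ^ (n + 4)) ≤ Real.log y := le_trans (le_max_right _ _) h7
  have h10 : 0 ≤ Real.log (2 ^ (n + 4)) := Real.log_nonneg (one_le_pow₀ (by norm_num))
  have e : Real.log (2 ^ (n + 4) * y) = Real.log (2 ^ (n + 4)) + Real.log y :=
    Real.log_mul (by positivity) hy0.ne'
  refine ⟨by rw [e]; linarith, h6, ?_⟩
  refine le_trans ?_ h5
  have h11 : lam y ^ (28 * K) = Real.log y ^ K := by
    rw [pow_mul]
    congr 1
    unfold lam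
    rw [← Real.rpow_natCast, ← Real.rpow_mul (by linarith)]
    norm_num
  rw [h11, ← mul_pow, e]
  exact pow_le_pow_left₀ (by linarith) (by linarith) K

theorem th_bd {M : ℕ} {G ε : ℕ → ℝ} (h : Hyp M G ε) (n m : ℕ) : ∃ Y : ℝ, 3 ≤ Y ∧ ∀ y ≥ Y,
    ∀ a ∈ Cu m, ∀ p : ℕ, y < p → (p : ℝ) ≤ 11 / 10 * y → ∀ i ≤ n,
      0 ≤ th (ch M (SS G ε a) p i) ∧
      th (ch M (SS G ε a) p i) ≤ Real.log (2 ^ (n + 4) * y) ∧
      thc (2 ^ (n + 4) * y) (ch M (SS G ε a) p i) = th (ch M (SS G ε a) p i) := by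
  obtain ⟨Y, hY3, hY⟩ := growth h n m
  refine ⟨Y, hY3, fun y hy a ha p hp hp1 i hi => ?_⟩
  have ha' : ∀ j, a j ∈ Set.Icc (-1 : ℝ) 2 := by
    intro j
    have h1 : (0 : ℝ) ≤ a j := ha.1 j
    have h2 : a j ≤ 1 := ha.2 j
    exact ⟨by linarith, by linarith⟩
  obtain ⟨h1, h2, -, -⟩ := hY y hy a ha' p hp hp1 i hi
  have hy3 : 3 ≤ y := le_trans hY3 hy
  have hy0 : 0 < y := by linarith
  have h2i : (1 : ℝ) ≤ 2 ^ i := one_le_pow₀ (by norm_num)
  have h2i' : (2 : ℝ) ^ i ≤ 2 ^ n := pow_le_pow_right₀ (by norm_num) hi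
  have h3 : (ch M (SS G ε a) p i : ℝ) ≤ 2 ^ (n + 4) * y := by
    refine h2.trans (mul_le_mul_of_nonneg_right ?_ hy0.le)
    rw [pow_add]
    nlinarith
  have h4 : (1 : ℝ) ≤ ch M (SS G ε a) p i := by
    refine le_trans ?_ h1
    nlinarith
  have h5 : 0 ≤ Real.log (ch M (SS G ε a) p i) := Real.log_nonneg h4
  have h6 : Real.log (ch M (SS G ε a) p i) ≤ Real.log (2 ^ (n + 4) * y) :=
    Real.log_le_log (by linarith) h3
  refine ⟨?_, ?_, ?_⟩
  · unfold th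
    split_ifs
    · exact h5
    · exact le_rfl
  · unfold th
    split_ifs
    · exact h6
    · exact h5.trans h6
  · unfold thc
    rw [if_pos h3]

end Pool.Agent.PCn
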