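import Pool.Agent.PCn.Defs

/-!
# Infinitely many parameters: measure theory

`comb m x b` replaces the first `m` terms of `b` by `x`.
`comb_map`: `Measure.eq_infinitePi`-type characterisation: check on the boxes `{a | ∀ j ∈ s, a j ∈ t j}` (`s` finite,
`t j` measurable): the preimage is the product of the box in the first variables (measure
`∏_{j < m} vol(t j ∩ [0,1])`: `Measure.restrict_pi_pi`, `Cu m = Set.pi univ (fun _ => Icc 0 1)`, `Set.pi_univ_Icc`) and of the box in `b`
(`infinitePi_pi` or similar).  `muI` is a probability measure (`isProbability`-instances for the restriction of the volume to `[0,1]`).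
`ae_comb`: from `comb_map`, `ae_map_iff`, `Measure.ae_prod_mem_iff_ae_ae_mem` (or `measure_prod_null`), after exchanging the
two factors (`Measure.prod_swap`).  `ae_box`: countably many conditions; the image of `muI` under `a ↦ a j` is the uniform measure
(`infinitePi_map_eval` or similar), or from `comb_map`.
-/

namespace Pool.Agent.PCn

open MeasureTheory Filter Topology

/-- the product of the uniform measures on `[0,1]` -/
noncomputable def muI : Measure (ℕ → ℝ) :=
  Measure.infinitePi (fun _ : ℕ => (volume : Measure ℝ).restrict (Set.Icc 0 1))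

/-- the sequence with the first terms `x` and the other terms from `b` -/
def comb (m : ℕ) (x : Fin m → ℝ) (b : ℕ → ℝ) : ℕ → ℝ :=
  fun j => if h : j < m then x ⟨j, h⟩ else b j

private theorem prob_unit : IsProbabilityMeasure ((volume : Measure ℝ).restrict (Set.Icc 0 1)) := by
  constructor
  rw [Measure.restrict_apply MeasurableSet.univ, Set.univ_inter, Real.volume_Icc]
  simp

private theorem prob_muI : IsProbabilityMeasure muI := by
  have := prob_unit
  unfold muI
  infer_instance

private theorem cube_pi (m : ℕ) : (volume : Measure (Fin m → ℝ)).restrict (Cu m) =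
    Measure.pi fun _ : Fin m => (volume : Measure ℝ).restrict (Set.Icc 0 1) := by
  have h1 : Cu m = Set.pi Set.univ fun _ : Fin m => Set.Icc (0 : ℝ) 1 := by
    unfold Cu
    rw [← Set.pi_univ_Icc]
    rfl
  rw [h1, volume_pi, Measure.restrict_pi_pi]

theorem comb_meas (m : ℕ) :
    Measurable (fun z : (Fin m → ℝ) × (ℕ → ℝ) => comb m z.1 z.2) := by
  refine measurable_pi_lambda _ fun j => ?_
  by_cases h : j < m
  · simp only [comb, dif_pos h]
    exact (measurable_pi_apply _).comp measurable_fst
  · simp only [comb, dif_neg h]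
    exact (measurable_pi_apply _).comp measurable_snd

theorem comb_map (m : ℕ) : Measure.map (fun z : (Fin m → ℝ) × (ℕ → ℝ) => comb m z.1 z.2)
    (((volume : Measure (Fin m → ℝ)).restrict (Cu m)).prod muI) = muI := by
  classical
  have := prob_unit
  have := prob_muI
  conv_rhs => rw [muI]
  refine Measure.eq_infinitePi _ fun s t ht => ?_
  rw [Measure.map_apply (comb_meas m) (MeasurableSet.pi s.countable_toSet fun i _ => ht i)]
  have h1 : (fun z : (Fin m → ℝ) × (ℕ → ℝ) => comb m z.1 z.2) ⁻¹' (Set.pi (s : Set ℕ) t) =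
      (Set.pi Set.univ fun j : Fin m => if (j : ℕ) ∈ s then t j else Set.univ) ×ˢ
        (Set.pi ((s.filter fun j => ¬ j < m : Finset ℕ) : Set ℕ) t) := by
    ext ⟨x, b⟩
    simp only [Set.mem_preimage, Set.mem_pi, Set.mem_prod, Finset.mem_coe, Set.mem_univ,
      true_implies, Finset.mem_filter, comb]
    constructor
    · intro h
      refine ⟨fun j => ?_, fun j hj => ?_⟩
      · split_ifs with hj
        · have := h j hj
          rw [dif_pos j.2] at this
          exact this
        · trivial
      · have := h j hj.1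
        rw [dif_neg hj.2] at this
        exact this
    · rintro ⟨h, h'⟩ j hj
      by_cases hjm : j < m
      · rw [dif_pos hjm]
        have := h ⟨j, hjm⟩
        rw [if_pos hj] at this
        exact this
      · rw [dif_neg hjm]
        exact h' j ⟨hj, hjm⟩
  rw [h1, Measure.prod_prod, cube_pi, Measure.pi_pi]
  conv_lhs => rw [muI]
  rw [Measure.infinitePi_pi _ fun i _ => ht i]
  have h2 : ∀ j : Fin m, (volume : Measure ℝ).restrict (Set.Icc 0 1)
      (if (j : ℕ) ∈ s then t j else Set.univ) =
      (fun i : ℕ => if i ∈ s then (volume : Measure ℝ).restrict (Set.Icc 0 1) (t i) else 1) j := by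
    intro j
    simp only
    split_ifs with h
    · rfl
    · exact measure_univ
  rw [Finset.prod_congr rfl fun j _ => h2 j,
    Fin.prod_univ_eq_prod_range
      (fun i : ℕ => if i ∈ s then (volume : Measure ℝ).restrict (Set.Icc 0 1) (t i) else 1) m,
    ← Finset.prod_filter]
  have h3 : (Finset.range m).filter (fun i => i ∈ s) = s.filter fun i => i < m := by
    ext i
    simp only [Finset.mem_filter, Finset.mem_range]
    exact and_comm
  rw [h3, Finset.prod_filter_mul_prod_filter_not]

theorem ae_comb (m : ℕ) {P : (ℕ → ℝ) → Prop} (hP : MeasurableSet {a | P a})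
    (h : ∀ᵐ b ∂muI, ∀ᵐ x ∂((volume : Measure (Fin m → ℝ)).restrict (Cu m)),
      P (comb m x b)) : ∀ᵐ a ∂muI, P a := by
  have := prob_unit
  have := prob_muI
  rw [← comb_map m, ae_map_iff (comb_meas m).aemeasurable hP]
  have h1 : MeasurableSet {z : (Fin m → ℝ) × (ℕ → ℝ) | P (comb m z.1 z.2)} :=
    comb_meas m hP
  have h2 : ∀ᵐ z ∂(muI.prod ((volume : Measure (Fin m → ℝ)).restrict (Cu m))),
      P (comb m z.2 z.1) := by
    have h4 : MeasurableSet {z : (ℕ → ℝ) × (Fin m → ℝ) | P (comb m z.2 z.1)} :=
      measurable_swap h1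
    exact (Measure.ae_prod_iff_ae_ae (p := fun z : (ℕ → ℝ) × (Fin m → ℝ) => P (comb m z.2 z.1))
      h4).2 h
  have h3 : Measure.map Prod.swap (muI.prod ((volume : Measure (Fin m → ℝ)).restrict (Cu m))) =
      ((volume : Measure (Fin m → ℝ)).restrict (Cu m)).prod muI := Measure.prod_swap
  rw [← h3, ae_map_iff measurable_swap.aemeasurable h1]
  exact h2

theorem ae_box : ∀ᵐ a ∂muI, ∀ j, a j ∈ Set.Icc (0 : ℝ) 1 := by
  have := prob_unit
  rw [ae_all_iff]
  intro j
  have h1 := measurePreserving_eval_infinitePi
    (fun _ : ℕ => (volume : Measure ℝ).restrict (Set.Icc 0 1)) j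
  have h2 : ∀ᵐ x ∂((volume : Measure ℝ).restrict (Set.Icc 0 1)), x ∈ Set.Icc (0 : ℝ) 1 :=
    ae_restrict_mem measurableSet_Icc
  exact h1.quasiMeasurePreserving.ae h2

end Pool.Agent.PCn
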