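import Pool.Agent.PCn.Basic

/-!
# Changing finitely many values of the map

`S q = o(q)`, so `T M S q ≥ q` for all `q ≥ Q₁` (`2q + 1 + M ⌊S q⌋ ≥ q`); for `p ≥ P = max Q Q₁` all the terms `ch M S p i`
are `≥ P ≥ Q` (induction), so `ch M S' p i = ch M S p i` (`ch_congr`).  Hence `|NN M S n x - NN M S' n x| ≤ P`, and
`P (log x)^(n+1)/x → 0`.
-/

namespace Pool.Agent.PCn

open Filter Topology

private theorem NNc_T {M : ℕ} {S : ℕ → ℝ} (hS : Tendsto (fun q : ℕ => S q / q) atTop (𝓝 0)) :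
    ∃ Q : ℕ, ∀ q ≥ Q, q ≤ T M S q := by
  have hM : (0 : ℝ) < 1 / (4 * ((M : ℝ) + 1)) := by positivity
  have h1 : ∀ᶠ q : ℕ in atTop, |S q / q| < 1 / (4 * ((M : ℝ) + 1)) := by
    have h2 := (hS.abs).eventually (gt_mem_nhds (show |(0 : ℝ)| < 1 / (4 * ((M : ℝ) + 1)) by
      rw [abs_zero]; exact hM))
    exact h2
  obtain ⟨Q0, hQ0⟩ := eventually_atTop.1 h1
  refine ⟨max Q0 (2 * M + 1), ?_⟩
  intro q hq
  have hq0 : Q0 ≤ q := le_trans (le_max_left _ _) hq
  have hq1 : 2 * M + 1 ≤ q := le_trans (le_max_right _ _) hq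
  have h2 := hQ0 q hq0
  have hqpos : (0 : ℝ) < q := by
    have : 0 < q := by omega
    exact_mod_cast this
  have hM0 : (0 : ℝ) ≤ M := Nat.cast_nonneg M
  rw [abs_div, abs_of_pos hqpos, div_lt_div_iff₀ hqpos (by positivity), one_mul] at h2
  have hq1' : 2 * (M : ℝ) + 1 ≤ q := by exact_mod_cast hq1
  have h3 : (M : ℝ) * |S q| ≤ q / 4 := by
    have h4 := abs_nonneg (S q)
    nlinarith
  have h5 := neg_abs_le (S q)
  have f2 := Int.lt_floor_add_one (S q)
  have u2 : -(q / 4 : ℝ) - M ≤ (M : ℝ) * ⌊S q⌋ := by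
    have h7 : (M : ℝ) * (-|S q| - 1) ≤ (M : ℝ) * ⌊S q⌋ :=
      mul_le_mul_of_nonneg_left (by linarith) hM0
    nlinarith
  have z1 : (q : ℤ) ≤ 2 * (q : ℤ) + 1 + M * ⌊S q⌋ := by
    have : (q : ℝ) ≤ 2 * (q : ℝ) + 1 + M * ⌊S q⌋ := by linarith
    exact_mod_cast this
  unfold T
  generalize 2 * (q : ℤ) + 1 + M * ⌊S q⌋ = z at z1
  omega

theorem ch_large {M : ℕ} {S : ℕ → ℝ} (hS : Tendsto (fun q : ℕ => S q / q) atTop (𝓝 0)) (Q : ℕ) :
    ∃ P : ℕ, ∀ p ≥ P, ∀ i, Q ≤ ch M S p i := by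
  obtain ⟨Q1, hQ1⟩ := NNc_T (M := M) hS
  refine ⟨max Q Q1, fun p hp i => ?_⟩
  have h : max Q Q1 ≤ ch M S p i := by
    induction i with
    | zero => exact hp
    | succ i ih =>
      rw [ch_succ]
      exact ih.trans (hQ1 _ ((le_max_right _ _).trans ih))
  exact (le_max_left _ _).trans h

open Classical in
private theorem NNc_card {M : ℕ} {S S' : ℕ → ℝ} {P n : ℕ}
    (h : ∀ p ≥ P, ∀ i, ch M S' p i = ch M S p i) (x : ℕ) :
    NN M S' n x ≤ NN M S n x + P := by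
  unfold NN
  have hsub : (Finset.range (x + 1)).filter (fun p => ∀ i ≤ n, (ch M S' p i).Prime) ⊆
      (Finset.range (x + 1)).filter (fun p => ∀ i ≤ n, (ch M S p i).Prime) ∪ Finset.range P := by
    intro p hp
    rw [Finset.mem_filter] at hp
    rw [Finset.mem_union, Finset.mem_filter]
    by_cases hpP : p < P
    · exact Or.inr (Finset.mem_range.2 hpP)
    · push Not at hpP
      refine Or.inl ⟨hp.1, fun i hi => ?_⟩
      rw [← h p hpP i]
      exact hp.2 i hi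
  have h1 := (Finset.card_le_card hsub).trans (Finset.card_union_le _ _)
  rwa [Finset.card_range] at h1

theorem nn_congr (M : ℕ) (S S' : ℕ → ℝ) (hS : Tendsto (fun q : ℕ => S q / q) atTop (𝓝 0))
    (Q : ℕ) (hQ : ∀ q ≥ Q, S q = S' q) (n : ℕ) (κ : ℝ)
    (h : Tendsto (fun x : ℕ => (NN M S n x : ℝ) * Real.log x ^ (n + 1) / x) atTop (𝓝 κ)) :
    Tendsto (fun x : ℕ => (NN M S' n x : ℝ) * Real.log x ^ (n + 1) / x) atTop (𝓝 κ) := by
  obtain ⟨P, hP⟩ := ch_large (M := M) hS Q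
  have hc : ∀ p ≥ P, ∀ i, ch M S' p i = ch M S p i := by
    intro p hp i
    exact ch_congr (i := i) (fun j _ => hQ _ (hP p hp j)) i le_rfl
  have hd : Tendsto (fun x : ℕ => (NN M S' n x : ℝ) * Real.log x ^ (n + 1) / x -
      (NN M S n x : ℝ) * Real.log x ^ (n + 1) / x) atTop (𝓝 0) := by
    have tX : Tendsto (fun x : ℕ => (x : ℝ)) atTop atTop := tendsto_natCast_atTop_atTop
    have h1 : Tendsto (fun x : ℕ => (P : ℝ) * (Real.log (x : ℝ) ^ (n + 1) / x)) atTop (𝓝 0) := by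
      have h2 := ((Real.isLittleO_pow_log_id_atTop (n := n + 1)).tendsto_div_nhds_zero).comp tX
      have h3 := h2.const_mul (P : ℝ)
      simpa using h3
    refine squeeze_zero_norm (fun x => ?_) h1
    have h4 : (NN M S' n x : ℝ) ≤ NN M S n x + P := by exact_mod_cast NNc_card hc x
    have h5 : (NN M S n x : ℝ) ≤ NN M S' n x + P := by
      exact_mod_cast NNc_card (fun p hp i => (hc p hp i).symm) x
    have h6 : (0 : ℝ) ≤ Real.log (x : ℝ) ^ (n + 1) / x :=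
      div_nonneg (pow_nonneg (Real.log_natCast_nonneg x) _) (Nat.cast_nonneg x)
    rw [show (NN M S' n x : ℝ) * Real.log x ^ (n + 1) / x -
      (NN M S n x : ℝ) * Real.log x ^ (n + 1) / x =
      ((NN M S' n x : ℝ) - NN M S n x) * (Real.log (x : ℝ) ^ (n + 1) / x) by ring,
      norm_mul, Real.norm_eq_abs, Real.norm_eq_abs, abs_of_nonneg h6]
    refine mul_le_mul_of_nonneg_right ?_ h6
    rw [abs_le]
    constructor <;> linarith
  have h7 := h.add hd
  simpa using h7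

end Pool.Agent.PCn
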