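import Pool.Agent.PCn.FinD
import Pool.Agent.PCn.InfM
import Pool.Agent.PCn.NNc

/-!
# Infinitely many parameters

`si_small`: `|∑' a_j/(log q)^j| ≤ ∑ (log q)^{-j} ≤ 2` for `q ≥ 8` (`log q ≥ 2`).
`inf_dim`: let `m = 2n`, `cl a j = max 0 (min 1 (a j))`, `S' a q = SI g ε (cl a) q` for `q ≥ 8` and `0` for `q < 8`; this is measurable in `a`
for each `q` (limit of the partial sums: `measurable_of_tendsto_metrizable`, the series converges absolutely).  Let `P a` be the
statement that `NN M (S' a) n x * (log x)^(n+1)/x` tends to `kap M n`; `{a | P a}` is measurable (`measurable_ch`, and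
`measurableSet_tendsto` or similar).  For `b` in the box let
`G b q = g q + ε q * q * ∑' j, (if j < m then 0 else b j)/(log q)^j`, which is `o(q)`, so `Hyp M (G b) ε`; for `x` in the cube
`S' (comb m x b) q = SS (G b) ε x q` for `q ≥ 8` (the `tsum` splits).  So `fin_dim` and `nn_congr` give `P (comb m x b)` for almost
all `x`, and `ae_comb` gives `P a` for almost every `a`.  Finally `SI g ε a q = S' a q` for `q ≥ 8` and `a` in the box, and `nn_congr`
again.
-/

namespace Pool.Agent.PCn

open MeasureTheory Filter Topology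

/-- the map with infinitely many parameters -/
noncomputable def SI (g ε : ℕ → ℝ) (a : ℕ → ℝ) (q : ℕ) : ℝ :=
  g q + ε q * q * ∑' j : ℕ, a j / Real.log q ^ j

private theorem InfD_log {q : ℕ} (hq : 8 ≤ q) : 2 ≤ Real.log q := by
  have h8 : (8 : ℝ) ≤ q := by exact_mod_cast hq
  rw [Real.le_log_iff_exp_le (by linarith)]
  refine le_trans ?_ h8
  have h1 : Real.exp 2 = Real.exp 1 * Real.exp 1 := by
    rw [← Real.exp_add]; norm_num
  have h2 := Real.exp_one_lt_d9
  have h3 := Real.exp_pos 1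
  rw [h1]
  nlinarith

private theorem InfD_term {q : ℕ} (hq : 8 ≤ q) {a : ℕ → ℝ} (ha : ∀ j, a j ∈ Set.Icc (0 : ℝ) 1)
    (j : ℕ) : ‖a j / Real.log q ^ j‖ ≤ (1 / 2 : ℝ) ^ j := by
  have h1 := InfD_log hq
  have h2 : (2 : ℝ) ^ j ≤ Real.log q ^ j := pow_le_pow_left₀ (by norm_num) h1 j
  have h3 : (0 : ℝ) < 2 ^ j := by positivity
  rw [norm_div, Real.norm_eq_abs, abs_of_nonneg (ha j).1, Real.norm_eq_abs,
    abs_of_pos (lt_of_lt_of_le h3 h2), one_div, inv_pow, ← one_div]
  exact div_le_div₀ zero_le_one (ha j).2 h3 h2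

private theorem InfD_summable {q : ℕ} (hq : 8 ≤ q) {a : ℕ → ℝ}
    (ha : ∀ j, a j ∈ Set.Icc (0 : ℝ) 1) : Summable fun j : ℕ => a j / Real.log q ^ j :=
  Summable.of_norm_bounded summable_geometric_two (InfD_term hq ha)

private theorem InfD_bound {q : ℕ} (hq : 8 ≤ q) {a : ℕ → ℝ}
    (ha : ∀ j, a j ∈ Set.Icc (0 : ℝ) 1) : |∑' j : ℕ, a j / Real.log q ^ j| ≤ 2 := by
  have h := tsum_of_norm_bounded hasSum_geometric_two (InfD_term hq ha)
  rwa [Real.norm_eq_abs] at h

theorem si_small {M : ℕ} {g ε : ℕ → ℝ} (h : Hyp M g ε) (a : ℕ → ℝ)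
    (ha : ∀ j, a j ∈ Set.Icc (0 : ℝ) 1) :
    Tendsto (fun q : ℕ => SI g ε a q / q) atTop (𝓝 0) := by
  have h1 : Tendsto (fun q : ℕ => ε q * ∑' j : ℕ, a j / Real.log q ^ j) atTop (𝓝 0) := by
    have h2 : Tendsto (fun q : ℕ => |ε q| * 2) atTop (𝓝 0) := by
      have := h.ε0.abs.mul_const (2 : ℝ)
      rwa [abs_zero, zero_mul] at this
    refine squeeze_zero_norm' ?_ h2
    filter_upwards [eventually_ge_atTop 8] with q hq
    rw [Real.norm_eq_abs, abs_mul]
    exact mul_le_mul_of_nonneg_left (InfD_bound hq ha) (abs_nonneg _)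
  have h3 := h.G0.add h1
  rw [add_zero] at h3
  refine h3.congr' ?_
  filter_upwards [eventually_ge_atTop 1] with q hq
  have hq0 : (q : ℝ) ≠ 0 := by
    have : q ≠ 0 := by omega
    exact_mod_cast this
  unfold SI
  field_simp

/-- the parameters cut off to the unit interval -/
private noncomputable def InfD_cl (a : ℕ → ℝ) (j : ℕ) : ℝ := max 0 (min 1 (a j))

private theorem InfD_cl_mem (a : ℕ → ℝ) (j : ℕ) : InfD_cl a j ∈ Set.Icc (0 : ℝ) 1 :=
  ⟨le_max_left _ _, max_le zero_le_one (min_le_left _ _)⟩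

private theorem InfD_cl_eq {a : ℕ → ℝ} {j : ℕ} (h : a j ∈ Set.Icc (0 : ℝ) 1) :
    InfD_cl a j = a j := by
  unfold InfD_cl
  rw [min_eq_right h.2, max_eq_right h.1]

/-- the map, with the parameters cut off, and `0` below `8` -/
private noncomputable def InfD_S (g ε : ℕ → ℝ) (a : ℕ → ℝ) (q : ℕ) : ℝ :=
  if 8 ≤ q then SI g ε (InfD_cl a) q else 0

private theorem InfD_S_meas (g ε : ℕ → ℝ) (q : ℕ) :
    Measurable fun a : ℕ → ℝ => InfD_S g ε a q := by
  unfold InfD_S
  by_cases hq : 8 ≤ q
  · simp only [if_pos hq]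
    unfold SI
    refine Measurable.const_add (Measurable.const_mul ?_ _) _
    refine measurable_of_tendsto_metrizable
      (f := fun N : ℕ => fun a : ℕ → ℝ => ∑ j ∈ Finset.range N, InfD_cl a j / Real.log q ^ j)
      (fun N => ?_) ?_
    · refine Finset.measurable_fun_sum _ fun j _ => ?_
      unfold InfD_cl
      exact ((measurable_const.max (measurable_const.min (measurable_pi_apply j)))).div_const _
    · rw [tendsto_pi_nhds]
      intro a
      exact (InfD_summable hq (InfD_cl_mem a)).hasSum.tendsto_sum_nat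
  · simp only [if_neg hq]
    exact measurable_const

open Classical in
private theorem InfD_NN_meas (M : ℕ) (g ε : ℕ → ℝ) (n x : ℕ) :
    Measurable fun a : ℕ → ℝ => (NN M (InfD_S g ε a) n x : ℝ) := by
  have h1 : ∀ a : ℕ → ℝ, (NN M (InfD_S g ε a) n x : ℝ) = ∑ p ∈ Finset.range (x + 1),
      if ∀ i ≤ n, (ch M (InfD_S g ε a) p i).Prime then (1 : ℝ) else 0 := by
    intro a
    unfold NN
    rw [Finset.card_filter]
    push_cast
    rfl
  simp only [h1]
  refine Finset.measurable_fun_sum _ fun p _ => ?_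
  refine Measurable.ite ?_ measurable_const measurable_const
  have h2 : {a : ℕ → ℝ | ∀ i ≤ n, (ch M (InfD_S g ε a) p i).Prime} =
      ⋂ i : ℕ, ⋂ _ : i ≤ n, {a : ℕ → ℝ | (ch M (InfD_S g ε a) p i).Prime} := by
    ext a
    simp
  rw [h2]
  refine MeasurableSet.iInter fun i => MeasurableSet.iInter fun _ => ?_
  exact measurable_ch M (InfD_S g ε) (InfD_S_meas g ε) p i (MeasurableSet.of_discrete (s := {k : ℕ | k.Prime}))

/-- the base function: the terms from `m` on -/
private noncomputable def InfD_G (g ε : ℕ → ℝ) (m : ℕ) (b : ℕ → ℝ) : ℕ → ℝ :=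
  SI g ε fun j => if j < m then 0 else b j

private theorem InfD_split {m q : ℕ} (hq : 8 ≤ q) (g ε : ℕ → ℝ) (x : Fin m → ℝ) (b : ℕ → ℝ)
    (hx : ∀ j, x j ∈ Set.Icc (0 : ℝ) 1) (hb : ∀ j, b j ∈ Set.Icc (0 : ℝ) 1) :
    SS (InfD_G g ε m b) ε x q = InfD_S g ε (comb m x b) q := by
  have hc : ∀ j, comb m x b j ∈ Set.Icc (0 : ℝ) 1 := by
    intro j
    unfold comb
    split_ifs with h
    · exact hx _
    · exact hb _
  have hc' : InfD_cl (comb m x b) = comb m x b := by
    funext j
    exact InfD_cl_eq (hc j)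
  have hd : ∀ j, (if j < m then 0 else b j) ∈ Set.Icc (0 : ℝ) 1 := by
    intro j
    split_ifs with h
    · exact ⟨le_rfl, zero_le_one⟩
    · exact hb _
  unfold InfD_S
  rw [if_pos hq, hc']
  unfold SS pf InfD_G SI
  have h1 : ∑' j : ℕ, comb m x b j / Real.log q ^ j =
      (∑ j : Fin m, x j / Real.log q ^ (j : ℕ)) +
        ∑' j : ℕ, (if j < m then 0 else b j) / Real.log q ^ j := by
    rw [← (InfD_summable hq hc).sum_add_tsum_nat_add m,
      ← (InfD_summable hq hd).sum_add_tsum_nat_add m]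
    have h2 : ∑ i ∈ Finset.range m, (if i < m then 0 else b i) / Real.log q ^ i = 0 := by
      refine Finset.sum_eq_zero fun i hi => ?_
      rw [if_pos (Finset.mem_range.1 hi), zero_div]
    have h3 : ∑ i ∈ Finset.range m, comb m x b i / Real.log q ^ i =
        ∑ j : Fin m, x j / Real.log q ^ (j : ℕ) := by
      rw [← Fin.sum_univ_eq_sum_range (fun i => comb m x b i / Real.log q ^ i) m]
      refine Finset.sum_congr rfl fun j _ => ?_
      have : comb m x b j = x j := by
        unfold comb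
        rw [dif_pos j.2]
      rw [this]
    have h4 : ∀ i : ℕ, comb m x b (i + m) / Real.log q ^ (i + m) =
        (if i + m < m then 0 else b (i + m)) / Real.log q ^ (i + m) := by
      intro i
      have h5 : ¬ i + m < m := by omega
      rw [if_neg h5]
      unfold comb
      rw [dif_neg h5]
    rw [h2, h3, tsum_congr h4, zero_add]
  rw [h1]
  ring

theorem inf_dim {M : ℕ} {g ε : ℕ → ℝ} (h : Hyp M g ε) (n : ℕ) :
    ∀ᵐ a ∂muI, Tendsto (fun x : ℕ => (NN M (SI g ε a) n x : ℝ) * Real.log x ^ (n + 1) / x) atTop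
        (𝓝 (kap M n)) := by
  have key : ∀ᵐ a ∂muI, Tendsto (fun x : ℕ => (NN M (InfD_S g ε a) n x : ℝ) *
      Real.log x ^ (n + 1) / x) atTop (𝓝 (kap M n)) := by
    refine ae_comb (2 * n) ?_ ?_
    · refine measurableSet_tendsto _ fun x => ?_
      exact ((InfD_NN_meas M g ε n x).mul_const _).div_const _
    · filter_upwards [ae_box] with b hb
      have hd : ∀ j, (if j < 2 * n then 0 else b j) ∈ Set.Icc (0 : ℝ) 1 := by
        intro j
        split_ifs with h
        · exact ⟨le_rfl, zero_le_one⟩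
        · exact hb _
      have hG : Hyp M (InfD_G g ε (2 * n) b) ε :=
        ⟨h.M0, si_small h _ hd, h.ε0, h.εlow⟩
      filter_upwards [fin_dim hG n (2 * n) le_rfl,
        ae_restrict_mem (μ := (volume : Measure (Fin (2 * n) → ℝ))) (s := Cu (2 * n))
          measurableSet_Icc] with x hx hxC
      have hx' : ∀ j, x j ∈ Set.Icc (0 : ℝ) 1 := fun j => ⟨hxC.1 j, hxC.2 j⟩
      have hS : Tendsto (fun q : ℕ => SS (InfD_G g ε (2 * n) b) ε x q / q) atTop (𝓝 0) := by
        have hc : ∀ j, comb (2 * n) x b j ∈ Set.Icc (0 : ℝ) 1 := by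
          intro j
          unfold comb
          split_ifs with h
          · exact hx' _
          · exact hb _
        refine (si_small h _ hc).congr' ?_
        filter_upwards [eventually_ge_atTop 8] with q hq
        rw [InfD_split hq g ε x b hx' hb]
        unfold InfD_S
        rw [if_pos hq]
        have hc' : InfD_cl (comb (2 * n) x b) = comb (2 * n) x b := by
          funext j
          exact InfD_cl_eq (hc j)
        rw [hc']
      exact nn_congr M _ _ hS 8 (fun q hq => InfD_split hq g ε x b hx' hb) n _ hx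
  filter_upwards [key, ae_box] with a ha hb
  have hcl : InfD_cl a = a := by
    funext j
    exact InfD_cl_eq (hb j)
  have hS : Tendsto (fun q : ℕ => InfD_S g ε a q / q) atTop (𝓝 0) := by
    refine (si_small h a hb).congr' ?_
    filter_upwards [eventually_ge_atTop 8] with q hq
    unfold InfD_S
    rw [if_pos hq, hcl]
  refine nn_congr M _ _ hS 8 (fun q hq => ?_) n _ ha
  unfold InfD_S
  rw [if_pos hq, hcl]

end Pool.Agent.PCn
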