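import Mathlib

/-!
# Lagrange interpolation in the variable `1/log q`

With `u_r = 1/log r` (`0 < u_r < 1` for `r ≥ 3`), the polynomial
`P = (1/(e q)) ∏_{r ∈ I} (X - u_r)/(u_q - u_r)` has degree `|I| < m`, `P(u_r) = 0` for `r ∈ I` and `P(u_q) = 1/(e q)`;
`v j` is its coefficient of `X^j` (so `∑_j v j u^j = P(u)`, `Polynomial.eval_eq_sum_range'`).  The coefficients of
`∏ (X - u_r)` are at most `∏ (1 + u_r) ≤ 2^|I|` in absolute value (induction), and
`|u_q - u_r| = |log r - log q|/(log q log r) ≥ (D/Y)/(log Y)^2` because `|log r - log q| ≥ |r - q|/max r q`.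
-/

namespace Pool.Agent.PCn

open Polynomial

/-- one linear factor. -/
private lemma interp_step (Q : ℝ[X]) (a u B : ℝ) (hQ : ∀ j, |Q.coeff j| ≤ B) (j : ℕ) :
    |(Q * (C a * (X - C u))).coeff j| ≤ B * (|a| * (1 + |u|)) := by
  have hB : 0 ≤ B := (abs_nonneg _).trans (hQ 0)
  have e1 : Q * (C a * (X - C u)) = C a * (Q * X - Q * C u) := by ring
  rw [e1, coeff_C_mul, coeff_sub, coeff_mul_C, abs_mul]
  have h1 : |(Q * X).coeff j| ≤ B := by
    cases j with
    | zero => simpa using hB
    | succ n => rw [coeff_mul_X]; exact hQ n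
  have h2 : |Q.coeff j * u| ≤ B * |u| := by
    rw [abs_mul]; exact mul_le_mul_of_nonneg_right (hQ j) (abs_nonneg _)
  have h3 := abs_sub ((Q * X).coeff j) (Q.coeff j * u)
  have h4 : |a| * |(Q * X).coeff j - Q.coeff j * u| ≤ |a| * (B + B * |u|) :=
    mul_le_mul_of_nonneg_left (h3.trans (add_le_add h1 h2)) (abs_nonneg _)
  nlinarith [h4]

/-- coefficients of a product of linear factors. -/
private lemma interp_prod (I : Finset ℕ) (a u : ℕ → ℝ) (T : ℝ)
    (hT : ∀ r ∈ I, |a r| * (1 + |u r|) ≤ T) (j : ℕ) :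
    |(∏ r ∈ I, (C (a r) * (X - C (u r)) : ℝ[X])).coeff j| ≤ T ^ I.card := by
  classical
  induction I using Finset.induction_on generalizing j with
  | empty =>
    simp only [Finset.prod_empty, Finset.card_empty, pow_zero, coeff_one]
    split_ifs <;> simp
  | insert r I hr ih =>
    rw [Finset.prod_insert hr, Finset.card_insert_of_notMem hr, mul_comm, pow_succ]
    have h1 := interp_step (∏ r ∈ I, (C (a r) * (X - C (u r)) : ℝ[X])) (a r) (u r) (T ^ I.card)
      (ih (fun s hs => hT s (Finset.mem_insert_of_mem hs))) j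
    have hr' := hT r (Finset.mem_insert_self r I)
    have hT0 : 0 ≤ T := le_trans (by positivity) hr'
    exact h1.trans (mul_le_mul_of_nonneg_left hr' (pow_nonneg hT0 _))

/-- separation of the logarithms. -/
private lemma interp_log {r q : ℕ} (hr : 3 ≤ r) (hq : 3 ≤ q) {Y D : ℝ} (hrY : (r : ℝ) ≤ Y)
    (hqY : (q : ℝ) ≤ Y) (hs : D ≤ |(r : ℝ) - q|) :
    D / Y ≤ |Real.log r - Real.log q| := by
  have key : ∀ x y : ℝ, 3 ≤ x → x ≤ y → y ≤ Y → (y - x) / Y ≤ Real.log y - Real.log x := by
    intro x y hx hxy hy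
    have hx0 : 0 < x := by linarith
    have hy0 : 0 < y := by linarith
    have hY0 : 0 < Y := by linarith
    have h1 : Real.log (x / y) ≤ x / y - 1 := Real.log_le_sub_one_of_pos (by positivity)
    rw [Real.log_div hx0.ne' hy0.ne'] at h1
    have h2 : (y - x) / Y ≤ (y - x) / y :=
      div_le_div_of_nonneg_left (by linarith) hy0 hy
    have h3 : (y - x) / y = 1 - x / y := by field_simp
    linarith
  have hr3 : (3 : ℝ) ≤ r := by exact_mod_cast hr
  have hq3 : (3 : ℝ) ≤ q := by exact_mod_cast hq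
  have hY0 : 0 < Y := by linarith
  rcases le_total (r : ℝ) q with h | h
  · have := key r q hr3 h hqY
    rw [abs_sub_comm, abs_of_nonneg (by linarith)] at hs
    rw [abs_sub_comm]
    exact ((div_le_div_of_nonneg_right hs hY0.le).trans this).trans (le_abs_self _)
  · have := key q r hq3 h hrY
    rw [abs_of_nonneg (by linarith)] at hs
    exact ((div_le_div_of_nonneg_right hs hY0.le).trans this).trans (le_abs_self _)

theorem interp {m : ℕ} (I : Finset ℕ) (q : ℕ) (hI : I.card < m) (Y D e : ℝ) (hq : 3 ≤ q)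
    (hqY : (q : ℝ) ≤ Y) (hIY : ∀ r ∈ I, 3 ≤ r ∧ (r : ℝ) ≤ Y) (hD : 0 < D)
    (hsep : ∀ r ∈ I, D ≤ |(r : ℝ) - q|) (he : 0 < e) :
    ∃ v : Fin m → ℝ, (∀ r ∈ I, ∑ j : Fin m, v j / Real.log r ^ (j : ℕ) = 0) ∧
      e * q * ∑ j : Fin m, v j / Real.log q ^ (j : ℕ) = 1 ∧
      ∀ j, |v j| ≤ (2 * Y * Real.log Y ^ 2 / D) ^ I.card / (e * q) := by
  classical
  have hq3 : (3 : ℝ) ≤ q := by exact_mod_cast hq
  have hY0 : 0 < Y := by linarith
  have hlog : ∀ r : ℕ, 3 ≤ r → 1 < Real.log r := by
    intro r hr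
    have hr3 : (3 : ℝ) ≤ r := by exact_mod_cast hr
    rw [Real.lt_log_iff_exp_lt (by linarith)]
    have := Real.exp_one_lt_d9
    linarith
  have hlogY : ∀ r : ℕ, 3 ≤ r → (r : ℝ) ≤ Y → Real.log r ≤ Real.log Y := by
    intro r hr hrY
    have hr3 : (3 : ℝ) ≤ r := by exact_mod_cast hr
    exact Real.log_le_log (by linarith) hrY
  have hlq := hlog q hq
  have hlY : 1 < Real.log Y := lt_of_lt_of_le hlq (hlogY q hq hqY)
  set u : ℕ → ℝ := fun r => 1 / Real.log r with hu
  -- the difference of the nodes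
  have hdiff : ∀ r ∈ I, D / Y ≤ |u q - u r| * Real.log Y ^ 2 := by
    intro r hr
    obtain ⟨hr3, hrY⟩ := hIY r hr
    have hlr := hlog r hr3
    have e1 : u q - u r = (Real.log r - Real.log q) / (Real.log q * Real.log r) := by
      simp only [hu]
      have : Real.log q ≠ 0 := by linarith
      have : Real.log r ≠ 0 := by linarith
      field_simp
    have h1 := interp_log hr3 hq hrY hqY (hsep r hr)
    have hpos : 0 < Real.log q * Real.log r := by positivity
    have h2 : Real.log q * Real.log r ≤ Real.log Y ^ 2 := by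
      rw [pow_two]
      exact mul_le_mul (hlogY q hq hqY) (hlogY r hr3 hrY) (by linarith) (by linarith)
    rw [e1, abs_div, abs_of_pos hpos]
    have h3 : |Real.log r - Real.log q| ≤
        |Real.log r - Real.log q| / (Real.log q * Real.log r) * Real.log Y ^ 2 := by
      rw [div_mul_eq_mul_div, le_div_iff₀ hpos]
      exact mul_le_mul_of_nonneg_left h2 (abs_nonneg _)
    exact h1.trans h3
  have hne : ∀ r ∈ I, u q - u r ≠ 0 := by
    intro r hr h0
    have := hdiff r hr
    rw [h0, abs_zero, zero_mul] at this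
    have : 0 < D / Y := by positivity
    linarith
  set a : ℕ → ℝ := fun r => (u q - u r)⁻¹ with ha
  set R : ℝ[X] := ∏ r ∈ I, (C (a r) * (X - C (u r)) : ℝ[X]) with hR
  set P : ℝ[X] := C (1 / (e * q)) * R with hP
  have hq0 : (0 : ℝ) < q := by linarith
  have hdeg : P.natDegree < m := by
    have h1 : P.natDegree ≤ R.natDegree := natDegree_C_mul_le _ _
    have h2 : R.natDegree ≤ ∑ r ∈ I, (C (a r) * (X - C (u r)) : ℝ[X]).natDegree :=
      natDegree_prod_le _ _
    have h3 : ∑ r ∈ I, (C (a r) * (X - C (u r)) : ℝ[X]).natDegree ≤ ∑ r ∈ I, 1 := by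
      refine Finset.sum_le_sum (fun r _ => ?_)
      refine (natDegree_C_mul_le _ _).trans ?_
      exact (natDegree_X_sub_C_le (u r))
    have h4 : ∑ r ∈ I, 1 = I.card := by simp
    omega
  have hev : ∀ r : ℕ, ∑ j : Fin m, P.coeff (j : ℕ) / Real.log r ^ (j : ℕ) = P.eval (u r) := by
    intro r
    rw [eval_eq_sum_range' hdeg, ← Fin.sum_univ_eq_sum_range (fun j => P.coeff j * u r ^ j)]
    refine Finset.sum_congr rfl (fun j _ => ?_)
    simp only [hu, one_div, inv_pow]
    rw [div_eq_mul_inv]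
  refine ⟨fun j => P.coeff (j : ℕ), ?_, ?_, ?_⟩
  · intro r hr
    rw [hev r, hP, eval_mul, hR, eval_prod, Finset.prod_eq_zero hr, mul_zero]
    simp
  · rw [hev q, hP, eval_mul, hR, eval_prod, eval_C]
    have h1 : ∏ r ∈ I, eval (u q) (C (a r) * (X - C (u r)) : ℝ[X]) = 1 := by
      refine Finset.prod_eq_one (fun r hr => ?_)
      simp only [eval_mul, eval_C, eval_sub, eval_X, ha]
      exact inv_mul_cancel₀ (hne r hr)
    rw [h1, mul_one]
    have : e * q ≠ 0 := by positivity
    field_simp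
  · intro j
    show |P.coeff (j : ℕ)| ≤ _
    rw [hP, coeff_C_mul, abs_mul, abs_of_pos (by positivity : (0 : ℝ) < 1 / (e * q))]
    have hb : |R.coeff (j : ℕ)| ≤ (2 * Y * Real.log Y ^ 2 / D) ^ I.card := by
      refine interp_prod I a u _ ?_ j
      intro r hr
      obtain ⟨hr3, hrY⟩ := hIY r hr
      have hlr := hlog r hr3
      have hur : |u r| ≤ 1 := by
        simp only [hu]
        rw [abs_of_pos (by positivity), div_le_one (by linarith)]
        exact hlr.le
      have hapos : 0 < |u q - u r| := abs_pos.2 (hne r hr)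
      have har : |a r| ≤ Y * Real.log Y ^ 2 / D := by
        simp only [ha]
        rw [abs_inv, inv_le_comm₀ hapos (by positivity), inv_div, div_le_iff₀ (by positivity)]
        have := hdiff r hr
        rw [div_le_iff₀ hY0] at this
        calc D ≤ |u q - u r| * Real.log Y ^ 2 * Y := this
          _ = |u q - u r| * (Y * Real.log Y ^ 2) := by ring
      calc |a r| * (1 + |u r|) ≤ (Y * Real.log Y ^ 2 / D) * 2 :=
            mul_le_mul har (by linarith) (by positivity) (by positivity)
        _ = 2 * Y * Real.log Y ^ 2 / D := by ring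
    calc 1 / (e * q) * |R.coeff (j : ℕ)| ≤ 1 / (e * q) * (2 * Y * Real.log Y ^ 2 / D) ^ I.card :=
          mul_le_mul_of_nonneg_left hb (by positivity)
      _ = (2 * Y * Real.log Y ^ 2 / D) ^ I.card / (e * q) := by ring

end Pool.Agent.PCn
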