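import Pool.Agent.PCn.InfD

/-!
# Exact lengths

The number of the `p ≤ x` which start a chain of exact length `k = n + 1` is `NN n x - NN (n+1) x` minus the number of
those `p` with all `ch p i` prime, `i ≤ n`, and `ch p (n+1) ≤ 1`, of which there are finitely many (`ch_large`, `si_small`, `ae_box`), and
`NN (n+1) x * (log x)^(n+1)/x = (NN (n+1) x (log x)^(n+2)/x)/log x → 0`.  `ae_all_iff` over `n`.
`kap_pos`: `b = M - 1`: `2^i M - 1` is prime to `M`.
-/

namespace Pool.Agent.PCn

open MeasureTheory Filter Topology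

open Classical in
/-- the number of the `p ≤ x` which start a chain of exact length `n + 1` -/
private noncomputable def Main_E (M : ℕ) (S : ℕ → ℝ) (n x : ℕ) : ℕ :=
  ((Finset.range (x + 1)).filter (fun p => (∀ i < n + 1, (ch M S p i).Prime) ∧
    1 < ch M S p (n + 1) ∧ ¬ (ch M S p (n + 1)).Prime)).card

open Classical in
private theorem Main_upper (M : ℕ) (S : ℕ → ℝ) (n x : ℕ) :
    Main_E M S n x + NN M S (n + 1) x ≤ NN M S n x := by
  unfold Main_E NN
  rw [← Finset.card_union_of_disjoint]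
  · refine Finset.card_le_card ?_
    intro p hp
    rcases Finset.mem_union.1 hp with hp | hp
    · obtain ⟨h1, h2, -⟩ := Finset.mem_filter.1 hp
      exact Finset.mem_filter.2 ⟨h1, fun i hi => h2 i (by omega)⟩
    · obtain ⟨h1, h2⟩ := Finset.mem_filter.1 hp
      exact Finset.mem_filter.2 ⟨h1, fun i hi => h2 i (by omega)⟩
  · rw [Finset.disjoint_left]
    intro p hp hp'
    exact (Finset.mem_filter.1 hp).2.2.2 ((Finset.mem_filter.1 hp').2 (n + 1) le_rfl)

open Classical in
private theorem Main_lower {M : ℕ} {S : ℕ → ℝ} {P : ℕ} (hP : ∀ p ≥ P, ∀ i, 2 ≤ ch M S p i)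
    (n x : ℕ) : NN M S n x ≤ Main_E M S n x + NN M S (n + 1) x + P := by
  have hsub : (Finset.range (x + 1)).filter (fun p => ∀ i ≤ n, (ch M S p i).Prime) ⊆
      (((Finset.range (x + 1)).filter (fun p => (∀ i < n + 1, (ch M S p i).Prime) ∧
        1 < ch M S p (n + 1) ∧ ¬ (ch M S p (n + 1)).Prime)) ∪
      ((Finset.range (x + 1)).filter (fun p => ∀ i ≤ n + 1, (ch M S p i).Prime))) ∪
        Finset.range P := by
    intro p hp
    obtain ⟨h1, h2⟩ := Finset.mem_filter.1 hp
    by_cases hpP : p < P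
    · exact Finset.mem_union_right _ (Finset.mem_range.2 hpP)
    · refine Finset.mem_union_left _ ?_
      by_cases hpr : (ch M S p (n + 1)).Prime
      · refine Finset.mem_union_right _ (Finset.mem_filter.2 ⟨h1, fun i hi => ?_⟩)
        rcases Nat.lt_or_ge n i with hi' | hi'
        · have : i = n + 1 := by omega
          rw [this]
          exact hpr
        · exact h2 i hi'
      · refine Finset.mem_union_left _ (Finset.mem_filter.2 ⟨h1, fun i hi => h2 i (by omega),
          ?_, hpr⟩)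
        have := hP p (by omega) (n + 1)
        omega
  have h1 := Finset.card_le_card hsub
  have h2 := (Finset.card_union_le (((Finset.range (x + 1)).filter
    (fun p => (∀ i < n + 1, (ch M S p i).Prime) ∧
        1 < ch M S p (n + 1) ∧ ¬ (ch M S p (n + 1)).Prime)) ∪
      ((Finset.range (x + 1)).filter (fun p => ∀ i ≤ n + 1, (ch M S p i).Prime)))
        (Finset.range P))
  have h3 := Finset.card_union_le ((Finset.range (x + 1)).filter
    (fun p => (∀ i < n + 1, (ch M S p i).Prime) ∧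
        1 < ch M S p (n + 1) ∧ ¬ (ch M S p (n + 1)).Prime))
      ((Finset.range (x + 1)).filter (fun p => ∀ i ≤ n + 1, (ch M S p i).Prime))
  rw [Finset.card_range] at h2
  unfold NN Main_E
  omega

private theorem Main_log (n : ℕ) :
    Tendsto (fun x : ℕ => Real.log x ^ n / x) atTop (𝓝 0) := by
  have h := (Real.isLittleO_pow_log_id_atTop (n := n)).tendsto_div_nhds_zero
  exact h.comp tendsto_natCast_atTop_atTop

private theorem Main_lim {M : ℕ} {S : ℕ → ℝ} {P : ℕ} (hP : ∀ p ≥ P, ∀ i, 2 ≤ ch M S p i)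
    (n : ℕ) (κ κ' : ℝ)
    (h : Tendsto (fun x : ℕ => (NN M S n x : ℝ) * Real.log x ^ (n + 1) / x) atTop (𝓝 κ))
    (h' : Tendsto (fun x : ℕ => (NN M S (n + 1) x : ℝ) * Real.log x ^ (n + 1 + 1) / x) atTop
      (𝓝 κ')) :
    Tendsto (fun x : ℕ => (Main_E M S n x : ℝ) * Real.log x ^ (n + 1) / x) atTop (𝓝 κ) := by
  have hlog : Tendsto (fun x : ℕ => (Real.log x)⁻¹) atTop (𝓝 0) :=
    tendsto_inv_atTop_zero.comp (Real.tendsto_log_atTop.comp tendsto_natCast_atTop_atTop)
  have h1 : Tendsto (fun x : ℕ => (NN M S (n + 1) x : ℝ) * Real.log x ^ (n + 1) / x) atTop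
      (𝓝 0) := by
    have h2 := h'.mul hlog
    rw [mul_zero] at h2
    refine h2.congr' ?_
    filter_upwards [eventually_ge_atTop 3] with x hx
    have hx' : (1 : ℝ) < x := by
      have : (3 : ℝ) ≤ x := by exact_mod_cast hx
      linarith
    have hl : Real.log x ≠ 0 := (Real.log_pos hx').ne'
    field_simp
    ring
  have h3 : Tendsto (fun x : ℕ => (P : ℝ) * (Real.log x ^ (n + 1) / x)) atTop (𝓝 0) := by
    have := (Main_log (n + 1)).const_mul (P : ℝ)
    rwa [mul_zero] at this
  have hup : Tendsto (fun x : ℕ => (NN M S n x : ℝ) * Real.log x ^ (n + 1) / x -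
      (NN M S (n + 1) x : ℝ) * Real.log x ^ (n + 1) / x) atTop (𝓝 κ) := by
    have := h.sub h1
    rwa [sub_zero] at this
  have hlo : Tendsto (fun x : ℕ => (NN M S n x : ℝ) * Real.log x ^ (n + 1) / x -
      (NN M S (n + 1) x : ℝ) * Real.log x ^ (n + 1) / x -
      (P : ℝ) * (Real.log x ^ (n + 1) / x)) atTop (𝓝 κ) := by
    have := hup.sub h3
    rwa [sub_zero] at this
  refine tendsto_of_tendsto_of_tendsto_of_le_of_le' hlo hup ?_ ?_
  · filter_upwards [eventually_ge_atTop 3] with x hx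
    have hx' : (1 : ℝ) < x := by
      have : (3 : ℝ) ≤ x := by exact_mod_cast hx
      linarith
    have hw : 0 ≤ Real.log x ^ (n + 1) / x :=
      div_nonneg (pow_nonneg (Real.log_pos hx').le _) (by linarith)
    have hn : (NN M S n x : ℝ) ≤ Main_E M S n x + NN M S (n + 1) x + P := by
      exact_mod_cast Main_lower hP n x
    have := mul_le_mul_of_nonneg_right hn hw
    rw [mul_div_assoc, mul_div_assoc, mul_div_assoc]
    linarith
  · filter_upwards [eventually_ge_atTop 3] with x hx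
    have hx' : (1 : ℝ) < x := by
      have : (3 : ℝ) ≤ x := by exact_mod_cast hx
      linarith
    have hw : 0 ≤ Real.log x ^ (n + 1) / x :=
      div_nonneg (pow_nonneg (Real.log_pos hx').le _) (by linarith)
    have hn : (Main_E M S n x : ℝ) + NN M S (n + 1) x ≤ NN M S n x := by
      exact_mod_cast Main_upper M S n x
    have := mul_le_mul_of_nonneg_right hn hw
    rw [mul_div_assoc, mul_div_assoc, mul_div_assoc]
    linarith

open Classical in
theorem main {M : ℕ} {g ε : ℕ → ℝ} (h : Hyp M g ε) :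
    ∀ᵐ a ∂muI, ∀ k : ℕ, 1 ≤ k → Tendsto (fun x : ℕ =>
      (((Finset.range (x + 1)).filter (fun p => (∀ i < k, (ch M (SI g ε a) p i).Prime) ∧
        1 < ch M (SI g ε a) p k ∧ ¬ (ch M (SI g ε a) p k).Prime)).card : ℝ) *
        Real.log x ^ k / x) atTop (𝓝 (kap M (k - 1))) := by
  have h1 : ∀ᵐ a ∂muI, ∀ n : ℕ,
      Tendsto (fun x : ℕ => (NN M (SI g ε a) n x : ℝ) * Real.log x ^ (n + 1) / x) atTop
        (𝓝 (kap M n)) := ae_all_iff.2 fun n => inf_dim h n
  filter_upwards [h1, ae_box] with a ha hbox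
  intro k hk
  obtain ⟨n, rfl⟩ : ∃ n, k = n + 1 := ⟨k - 1, by omega⟩
  obtain ⟨P, hP⟩ := ch_large (si_small h a hbox) 2
  have h2 := Main_lim hP n (kap M n) (kap M (n + 1)) (ha n) (ha (n + 1))
  exact h2

open Classical in
theorem kap_pos {M : ℕ} (hM : 0 < M) (n : ℕ) : 0 < kap M n := by
  unfold kap
  have hφ : 0 < M.totient := Nat.totient_pos.2 hM
  have hcard : 0 < ((Finset.range M).filter
      (fun b => ∀ i ≤ n, Nat.Coprime (2 ^ i * (b + 1) - 1) M)).card := by
    refine Finset.card_pos.2 ⟨M - 1, Finset.mem_filter.2 ⟨Finset.mem_range.2 (by omega),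
      fun i _ => ?_⟩⟩
    have e : M - 1 + 1 = M := by omega
    rw [e]
    refine Nat.dvd_one.1 ?_
    have hpos : 0 < 2 ^ i * M := Nat.mul_pos (by positivity) hM
    have h1 : Nat.gcd (2 ^ i * M - 1) M ∣ 2 ^ i * M - 1 := Nat.gcd_dvd_left _ _
    have h2 : Nat.gcd (2 ^ i * M - 1) M ∣ 2 ^ i * M := (Nat.gcd_dvd_right _ _).mul_left _
    have h3 : 2 ^ i * M - 1 + 1 = 2 ^ i * M := by omega
    exact (Nat.dvd_add_right h1).1 (h3.symm ▸ h2)
  have h1 : (0 : ℝ) < ((Finset.range M).filter
      (fun b => ∀ i ≤ n, Nat.Coprime (2 ^ i * (b + 1) - 1) M)).card := by exact_mod_cast hcard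
  have h2 : (0 : ℝ) < M := by exact_mod_cast hM
  have h3 : (0 : ℝ) < M.totient := by exact_mod_cast hφ
  positivity

end Pool.Agent.PCn
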