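import Pool.Agent.PCn.Sep
import Pool.Agent.PCn.AvgC

/-!
# The expectation for two chains

`A_j = Asq m j`, `E_i = SepE M G ε m y p p' i`, `J_i = ∫_{Cu m} 1[E_i] ∏_{j=1}^i θ(c_j) θ(c'_j)`, `J_0 ≤ 1`.  For `i < n`, as
`E_{i+1} ⊆ E_i` and all the factors are `≥ 0`, `J_{i+1} ≤ ∫ 1[E_i] ∏_{j=1}^{i+1} θ(c_j) θ(c'_j)`.  Apply `two` twice with
`A = A_i`, `f = thc (2^(n+4) y)` and `η = e^{-λ}` (`avg_ch`): first for `c'_{i+1}` (moving chain `p'`, index `i`; other chain `p`,
`k = i + 1`, `F` = indicator of `E_i` times `∏_{j=1}^{i+1} θ(c_j) ∏_{j=1}^i θ(c'_j)`, `κ = kp M p' i`), then for `c_{i+1}` (moving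
chain `p`, index `i`; other chain `p'`, `k = i`, `F` = indicator of `E_i` times `∏_{j=1}^i θ(c_j) θ(c'_j)`, `κ = kp M p i`).
The number of nodes is `≤ 2i + 1 < 2n ≤ m`.  (`th_bd`; `logs` with `K = 2n` and `c = 1/4`.)  So
`J_{i+1} ≤ kp M p i * kp M p' i * J_i + C e^{-3λ/4}` and `J_n ≤ gd M n p * gd M n p' + C' e^{-3λ/4}` (`gd_eq`, `kp_bd`).
On `Cu m \ E_n` (of measure `≤ n e^{-λ/2}`, `sep`) the product is at most `(log (2^(n+4) y))^{2n} ≤ e^{λ/8}`.
-/

namespace Pool.Agent.PCn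

open MeasureTheory

open Classical in
/-- indicator of separation up to `i`, times the two products -/
private noncomputable def W (y : ℝ) (m i r s : ℕ) (x x' : ℕ → ℕ) : ℝ :=
  if (∀ j ≤ i, y * Real.exp (-(Asq m j * lam y)) ≤ |(x j : ℝ) - x' j|) then
    (∏ j ∈ Finset.Icc 1 r, th (x j)) * ∏ j ∈ Finset.Icc 1 s, th (x' j) else 0

private theorem W_congr (y : ℝ) (m i r s : ℕ) (x x' z z' : ℕ → ℕ)
    (h1 : ∀ j ≤ max i r, z j = x j) (h2 : ∀ j ≤ max i s, z' j = x' j) :
    W y m i r s z z' = W y m i r s x x' := by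
  unfold W
  have e1 : (∀ j ≤ i, y * Real.exp (-(Asq m j * lam y)) ≤ |(z j : ℝ) - z' j|) ↔
      (∀ j ≤ i, y * Real.exp (-(Asq m j * lam y)) ≤ |(x j : ℝ) - x' j|) := by
    refine forall_congr' fun j => forall_congr' fun hj => ?_
    rw [h1 j (le_trans hj (le_max_left _ _)), h2 j (le_trans hj (le_max_left _ _))]
  have e2 : (∏ j ∈ Finset.Icc 1 r, th (z j)) = ∏ j ∈ Finset.Icc 1 r, th (x j) := by
    refine Finset.prod_congr rfl fun j hj => ?_
    rw [h1 j (le_trans (Finset.mem_Icc.1 hj).2 (le_max_right _ _))]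
  have e3 : (∏ j ∈ Finset.Icc 1 s, th (z' j)) = ∏ j ∈ Finset.Icc 1 s, th (x' j) := by
    refine Finset.prod_congr rfl fun j hj => ?_
    rw [h2 j (le_trans (Finset.mem_Icc.1 hj).2 (le_max_right _ _))]
  simp only [e1, e2, e3]

private theorem W_tr (y : ℝ) (m i r s R R' : ℕ) (x x' : ℕ → ℕ)
    (h1 : max i r ≤ R) (h2 : max i s ≤ R') :
    W y m i r s (tr R x) (tr R' x') = W y m i r s x x' := by
  refine W_congr y m i r s x x' _ _ (fun j hj => ?_) (fun j hj => ?_)
  · simp [tr, le_trans hj h1]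
  · simp [tr, le_trans hj h2]

private theorem W_succ_right (y : ℝ) (m i r s : ℕ) (x x' : ℕ → ℕ) :
    W y m i r (s + 1) x x' = W y m i r s x x' * th (x' (s + 1)) := by
  unfold W
  rw [Finset.prod_Icc_succ_top (by omega : 1 ≤ s + 1)]
  split_ifs
  · ring
  · simp

private theorem W_succ_left (y : ℝ) (m i r s : ℕ) (x x' : ℕ → ℕ) :
    W y m i (r + 1) s x x' = W y m i r s x x' * th (x (r + 1)) := by
  unfold W
  rw [Finset.prod_Icc_succ_top (by omega : 1 ≤ r + 1)]
  split_ifs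
  · ring
  · simp

private theorem W_nonneg (y : ℝ) (m i r s : ℕ) (x x' : ℕ → ℕ)
    (h1 : ∀ j ∈ Finset.Icc 1 r, 0 ≤ th (x j)) (h2 : ∀ j ∈ Finset.Icc 1 s, 0 ≤ th (x' j)) :
    0 ≤ W y m i r s x x' := by
  unfold W
  split_ifs
  · exact mul_nonneg (Finset.prod_nonneg h1) (Finset.prod_nonneg h2)
  · exact le_refl _

private theorem W_le (y : ℝ) (m i r s : ℕ) (x x' : ℕ → ℕ) (B : ℝ) (hB : 1 ≤ B) (K : ℕ)
    (hK : r + s ≤ K)
    (h1 : ∀ j ∈ Finset.Icc 1 r, 0 ≤ th (x j) ∧ th (x j) ≤ B)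
    (h2 : ∀ j ∈ Finset.Icc 1 s, 0 ≤ th (x' j) ∧ th (x' j) ≤ B) :
    W y m i r s x x' ≤ B ^ K := by
  have hB0 : 0 ≤ B := by linarith
  have p1 : (∏ j ∈ Finset.Icc 1 r, th (x j)) ≤ B ^ r := by
    calc (∏ j ∈ Finset.Icc 1 r, th (x j)) ≤ ∏ j ∈ Finset.Icc 1 r, B :=
          Finset.prod_le_prod (fun j hj => (h1 j hj).1) (fun j hj => (h1 j hj).2)
      _ = B ^ r := by simp
  have p2 : (∏ j ∈ Finset.Icc 1 s, th (x' j)) ≤ B ^ s := by
    calc (∏ j ∈ Finset.Icc 1 s, th (x' j)) ≤ ∏ j ∈ Finset.Icc 1 s, B :=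
          Finset.prod_le_prod (fun j hj => (h2 j hj).1) (fun j hj => (h2 j hj).2)
      _ = B ^ s := by simp
  have p3 : (∏ j ∈ Finset.Icc 1 r, th (x j)) * ∏ j ∈ Finset.Icc 1 s, th (x' j) ≤ B ^ K := by
    calc (∏ j ∈ Finset.Icc 1 r, th (x j)) * ∏ j ∈ Finset.Icc 1 s, th (x' j)
        ≤ B ^ r * B ^ s := mul_le_mul p1 p2 (Finset.prod_nonneg fun j hj => (h2 j hj).1)
          (by positivity)
      _ = B ^ (r + s) := by rw [pow_add]
      _ ≤ B ^ K := pow_le_pow_right₀ hB hK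
  unfold W
  split_ifs
  · exact p3
  · positivity

private theorem W_mono (y : ℝ) (m i r s : ℕ) (x x' : ℕ → ℕ)
    (h1 : ∀ j ∈ Finset.Icc 1 r, 0 ≤ th (x j)) (h2 : ∀ j ∈ Finset.Icc 1 s, 0 ≤ th (x' j)) :
    W y m (i + 1) r s x x' ≤ W y m i r s x x' := by
  by_cases hc : ∀ j ≤ i + 1, y * Real.exp (-(Asq m j * lam y)) ≤ |(x j : ℝ) - x' j|
  · have hc' : ∀ j ≤ i, y * Real.exp (-(Asq m j * lam y)) ≤ |(x j : ℝ) - x' j| :=
      fun j hj => hc j (by omega)
    unfold W
    rw [if_pos hc, if_pos hc']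
  · have : W y m (i + 1) r s x x' = 0 := by
      unfold W
      rw [if_neg hc]
    rw [this]
    exact W_nonneg y m i r s x x' h1 h2

private theorem unif (P : ℕ → ℝ → Prop) (h : ∀ i, ∃ Y : ℝ, 3 ≤ Y ∧ ∀ y ≥ Y, P i y) (n : ℕ) :
    ∃ Y : ℝ, 3 ≤ Y ∧ ∀ y ≥ Y, ∀ i < n, P i y := by
  induction n with
  | zero => exact ⟨3, le_refl _, fun y _ i hi => absurd hi (Nat.not_lt_zero _)⟩
  | succ n ih =>
    obtain ⟨Y1, h1, h1'⟩ := ih
    obtain ⟨Y2, h2, h2'⟩ := h n
    refine ⟨max Y1 Y2, le_max_of_le_left h1, fun y hy i hi => ?_⟩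
    rcases Nat.lt_succ_iff_lt_or_eq.1 hi with hi | hi
    · exact h1' y (le_trans (le_max_left _ _) hy) i hi
    · subst hi
      exact h2' y (le_trans (le_max_right _ _) hy)

private theorem lam_large (B : ℝ) : ∃ Y : ℝ, 3 ≤ Y ∧ ∀ y ≥ Y, B ≤ lam y := by
  have h1 : Filter.Tendsto lam Filter.atTop Filter.atTop := by
    unfold lam
    exact (tendsto_rpow_atTop (by norm_num)).comp Real.tendsto_log_atTop
  obtain ⟨Y, hY⟩ := Filter.eventually_atTop.1 (h1.eventually_ge_atTop B)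
  exact ⟨max 3 Y, le_max_left _ _, fun y hy => hY y (le_trans (le_max_right _ _) hy)⟩

private theorem Cu_meas (m : ℕ) : MeasurableSet (Cu m) := measurableSet_Icc

private theorem Cu_vol (m : ℕ) : volume (Cu m) = 1 := by
  unfold Cu
  rw [Real.volume_Icc_pi]
  simp

private theorem Cu_real (m : ℕ) : volume.real (Cu m) = 1 := by
  rw [Measure.real, Cu_vol]
  simp


/-- measurability of `W` along the chains -/
private theorem W_meas (M : ℕ) (G ε : ℕ → ℝ) (m : ℕ) (y : ℝ) (p p' i r s : ℕ) :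
    Measurable (fun a : Fin m → ℝ =>
      W y m i r s (ch M (SS G ε a) p) (ch M (SS G ε a) p')) := by
  have h := measurable_tr (X := Fin m → ℝ) M (fun a => SS G ε a)
    (fun q => measurable_SS G ε q) p p' (max i r) (max i s) (W y m i r s)
  have e : (fun a : Fin m → ℝ => W y m i r s (tr (max i r) (ch M (SS G ε a) p))
      (tr (max i s) (ch M (SS G ε a) p'))) =
      fun a : Fin m → ℝ => W y m i r s (ch M (SS G ε a) p) (ch M (SS G ε a) p') := by
    funext a
    exact W_tr y m i r s _ _ _ _ (le_refl _) (le_refl _)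
  rw [← e]
  exact h

/-- one step: the inequality between the integrals -/
private theorem stepJ {M : ℕ} {G ε : ℕ → ℝ} (h : Hyp M G ε) (n m : ℕ) (hm : 2 * n ≤ m) (i : ℕ) :
    ∃ Y : ℝ, 3 ≤ Y ∧ ∀ y ≥ Y, i < n → ∀ p p' : ℕ, y < p → (p : ℝ) ≤ 11 / 10 * y → y < p' →
    (p' : ℝ) ≤ 11 / 10 * y →
    (∫ a in Cu m, W y m (i + 1) (i + 1) (i + 1) (ch M (SS G ε a) p) (ch M (SS G ε a) p')) ≤
      kp M p i * kp M p' i *
        (∫ a in Cu m, W y m i i i (ch M (SS G ε a) p) (ch M (SS G ε a) p')) +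
        4 * ((M : ℝ) / M.totient) * Real.exp (-(3 / 4 * lam y)) := by
  by_cases hi : i < n
  swap
  · exact ⟨3, le_refl _, fun y _ hh => absurd hh hi⟩
  obtain ⟨Y1, h1, H1⟩ := two h n m (Asq m i) (Asq_pos m i)
  obtain ⟨Y2, h2, H2⟩ := avg_ch h n m (Asq m i) (by linarith [Asq_pos m i])
  obtain ⟨Y3, h3, H3⟩ := logs n (2 * n) (1 / 4) (by norm_num)
  obtain ⟨Y4, h4, H4⟩ := th_bd h n m
  refine ⟨max (max Y1 Y2) (max Y3 Y4), le_max_of_le_left (le_max_of_le_left h1), ?_⟩
  intro y hy _ p p' hp1 hp2 hq1 hq2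
  have hy1 : Y1 ≤ y := le_trans (le_trans (le_max_left _ _) (le_max_left _ _)) hy
  have hy2 : Y2 ≤ y := le_trans (le_trans (le_max_right _ _) (le_max_left _ _)) hy
  have hy3 : Y3 ≤ y := le_trans (le_trans (le_max_left _ _) (le_max_right _ _)) hy
  have hy4 : Y4 ≤ y := le_trans (le_trans (le_max_right _ _) (le_max_right _ _)) hy
  obtain ⟨hl1, hlam, hlog⟩ := H3 y hy3
  set B : ℝ := Real.log (2 ^ (n + 4) * y) with hB
  have hexp : B ^ (2 * n) ≤ Real.exp (lam y / 4) := by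
    refine le_trans hlog (le_of_eq ?_)
    congr 1
    ring
  -- bounds for the factors
  have hth : ∀ a ∈ Cu m, ∀ j ≤ n, 0 ≤ th (ch M (SS G ε a) p j) ∧
      th (ch M (SS G ε a) p j) ≤ B ∧
      thc (2 ^ (n + 4) * y) (ch M (SS G ε a) p j) = th (ch M (SS G ε a) p j) :=
    fun a ha j hj => H4 y hy4 a ha p hp1 hp2 j hj
  have hth' : ∀ a ∈ Cu m, ∀ j ≤ n, 0 ≤ th (ch M (SS G ε a) p' j) ∧
      th (ch M (SS G ε a) p' j) ≤ B ∧
      thc (2 ^ (n + 4) * y) (ch M (SS G ε a) p' j) = th (ch M (SS G ε a) p' j) :=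
    fun a ha j hj => H4 y hy4 a ha p' hq1 hq2 j hj
  have hthc : ∀ c : ℕ, |thc (2 ^ (n + 4) * y) c| ≤ Real.exp (lam y / 4) := by
    intro c
    have hc : |thc (2 ^ (n + 4) * y) c| ≤ B := by
      unfold thc th
      split_ifs with hc1 hc2
      · have hc0 : (1 : ℝ) ≤ c := by exact_mod_cast hc2.one_lt.le
        rw [abs_of_nonneg (Real.log_nonneg hc0)]
        exact Real.log_le_log (by linarith) hc1
      · simp only [abs_zero]; linarith
      · simp only [abs_zero]; linarith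
    have hB1 : B ≤ B ^ (2 * n) := le_self_pow₀ hl1 (by omega)
    exact le_trans hc (le_trans hB1 hexp)
  have hWb : ∀ a ∈ Cu m, ∀ i' r s : ℕ, r ≤ n → s ≤ n → r + s ≤ 2 * n →
      0 ≤ W y m i' r s (ch M (SS G ε a) p) (ch M (SS G ε a) p') ∧
      W y m i' r s (ch M (SS G ε a) p) (ch M (SS G ε a) p') ≤ B ^ (2 * n) := by
    intro a ha i' r s hr hs hrs
    constructor
    · exact W_nonneg _ _ _ _ _ _ _ (fun j hj => (hth a ha j (le_trans (Finset.mem_Icc.1 hj).2 hr)).1)
        (fun j hj => (hth' a ha j (le_trans (Finset.mem_Icc.1 hj).2 hs)).1)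
    · refine W_le _ _ _ _ _ _ _ B hl1 (2 * n) hrs (fun j hj => ?_) (fun j hj => ?_)
      · have := hth a ha j (le_trans (Finset.mem_Icc.1 hj).2 hr)
        exact ⟨this.1, this.2.1⟩
      · have := hth' a ha j (le_trans (Finset.mem_Icc.1 hj).2 hs)
        exact ⟨this.1, this.2.1⟩
  have hint : ∀ i' r s : ℕ, r ≤ n → s ≤ n → r + s ≤ 2 * n →
      IntegrableOn (fun a => W y m i' r s (ch M (SS G ε a) p) (ch M (SS G ε a) p')) (Cu m)
        volume := by
    intro i' r s hr hs hrs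
    refine Measure.integrableOn_of_bounded (M := B ^ (2 * n)) ?_
      (W_meas M G ε m y p p' i' r s).aestronglyMeasurable ?_
    · rw [Cu_vol]; exact ENNReal.one_ne_top
    · refine (ae_restrict_iff' (Cu_meas m)).2 (Filter.Eventually.of_forall fun a ha => ?_)
      rw [Real.norm_eq_abs, abs_of_nonneg (hWb a ha i' r s hr hs hrs).1]
      exact (hWb a ha i' r s hr hs hrs).2
  have hDp := kp_bd h.M0 p i
  have hDp' := kp_bd h.M0 p' i
  set D : ℝ := (M : ℝ) / M.totient with hD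
  set e : ℝ := Real.exp (-(3 / 4 * lam y)) with he
  have he1 : Real.exp (lam y / 4) * Real.exp (-lam y) + Real.exp (-lam y) ≤ 2 * e := by
    have a1 : Real.exp (lam y / 4) * Real.exp (-lam y) = e := by
      rw [← Real.exp_add, he]
      congr 1
      ring
    have a2 : Real.exp (-lam y) ≤ e := by
      rw [he]
      apply Real.exp_le_exp.2
      linarith
    linarith
  -- first application: the chain of `p'`
  have A1 := H1 y hy1 p' p hq1 hq2 hp1 hp2 i (i + 1) hi (le_refl _) (by omega)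
    (fun x' x => W y m i (i + 1) i x x') (fun _ _ c => thc (2 ^ (n + 4) * y) c)
    (fun _ _ => kp M p' i) (Real.exp (-lam y)) (Real.exp_pos _).le
    (by
      intro a ha
      rw [W_tr y m i (i + 1) i (i + 1) i _ _ (by simp) (by simp),
        abs_of_nonneg (hWb a ha i (i + 1) i (by omega) (by omega) (by omega)).1]
      exact le_trans (hWb a ha i (i + 1) i (by omega) (by omega) (by omega)).2 hexp)
    (fun a ha c => hthc c)
    (by
      intro a ha _ hne
      rw [W_tr y m i (i + 1) i (i + 1) i _ _ (by simp) (by simp)] at hne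
      unfold W at hne
      split_ifs at hne with hc
      · have := hc i (le_refl _)
        rw [abs_sub_comm]
        exact this
      · exact absurd rfl hne)
    (by
      intro a ha _
      exact H2 y hy2 a ha p' hq1 hq2 i hi)
  have A2 := H1 y hy1 p p' hp1 hp2 hq1 hq2 i i hi (by omega) (by omega)
    (fun x x' => W y m i i i x x') (fun _ _ c => thc (2 ^ (n + 4) * y) c)
    (fun _ _ => kp M p i) (Real.exp (-lam y)) (Real.exp_pos _).le
    (by
      intro a ha
      rw [W_tr y m i i i i i _ _ (by simp) (by simp),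
        abs_of_nonneg (hWb a ha i i i (by omega) (by omega) (by omega)).1]
      exact le_trans (hWb a ha i i i (by omega) (by omega) (by omega)).2 hexp)
    (fun a ha c => hthc c)
    (by
      intro a ha hk
      omega)
    (by
      intro a ha _
      exact H2 y hy2 a ha p hp1 hp2 i hi)
  have B1 : (∫ a in Cu m, (fun x' x => W y m i (i + 1) i x x') (tr i (ch M (SS G ε a) p'))
      (tr (i + 1) (ch M (SS G ε a) p)) *
      (fun _ _ c => thc (2 ^ (n + 4) * y) c) (tr i (ch M (SS G ε a) p'))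
      (tr (i + 1) (ch M (SS G ε a) p)) (ch M (SS G ε a) p' (i + 1))) =
      ∫ a in Cu m, W y m i (i + 1) (i + 1) (ch M (SS G ε a) p) (ch M (SS G ε a) p') := by
    refine setIntegral_congr_fun (Cu_meas m) fun a ha => ?_
    simp only
    rw [W_tr y m i (i + 1) i (i + 1) i _ _ (by simp) (by simp), (hth' a ha (i + 1) (by omega)).2.2,
      W_succ_right]
  have B2 : (∫ a in Cu m, (fun x' x => W y m i (i + 1) i x x') (tr i (ch M (SS G ε a) p'))
      (tr (i + 1) (ch M (SS G ε a) p)) * (fun _ _ => kp M p' i) (tr i (ch M (SS G ε a) p'))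
      (tr (i + 1) (ch M (SS G ε a) p))) =
      (∫ a in Cu m, W y m i (i + 1) i (ch M (SS G ε a) p) (ch M (SS G ε a) p')) * kp M p' i := by
    rw [← integral_mul_const]
    refine setIntegral_congr_fun (Cu_meas m) fun a ha => ?_
    simp only
    rw [W_tr y m i (i + 1) i (i + 1) i _ _ (by simp) (by simp)]
  have B3 : (∫ a in Cu m, (fun x x' => W y m i i i x x') (tr i (ch M (SS G ε a) p))
      (tr i (ch M (SS G ε a) p')) *
      (fun _ _ c => thc (2 ^ (n + 4) * y) c) (tr i (ch M (SS G ε a) p))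
      (tr i (ch M (SS G ε a) p')) (ch M (SS G ε a) p (i + 1))) =
      ∫ a in Cu m, W y m i (i + 1) i (ch M (SS G ε a) p) (ch M (SS G ε a) p') := by
    refine setIntegral_congr_fun (Cu_meas m) fun a ha => ?_
    simp only
    rw [W_tr y m i i i i i _ _ (by simp) (by simp), (hth a ha (i + 1) (by omega)).2.2,
      W_succ_left]
  have B4 : (∫ a in Cu m, (fun x x' => W y m i i i x x') (tr i (ch M (SS G ε a) p))
      (tr i (ch M (SS G ε a) p')) * (fun _ _ => kp M p i) (tr i (ch M (SS G ε a) p))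
      (tr i (ch M (SS G ε a) p'))) =
      (∫ a in Cu m, W y m i i i (ch M (SS G ε a) p) (ch M (SS G ε a) p')) * kp M p i := by
    rw [← integral_mul_const]
    refine setIntegral_congr_fun (Cu_meas m) fun a ha => ?_
    simp only
    rw [W_tr y m i i i i i _ _ (by simp) (by simp)]
  rw [B1, B2] at A1
  rw [B3, B4] at A2
  have C1 := (abs_le.1 A1).2
  have C2 := (abs_le.1 A2).2
  have C3 : (∫ a in Cu m, W y m (i + 1) (i + 1) (i + 1) (ch M (SS G ε a) p)
      (ch M (SS G ε a) p')) ≤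
      ∫ a in Cu m, W y m i (i + 1) (i + 1) (ch M (SS G ε a) p) (ch M (SS G ε a) p') := by
    refine setIntegral_mono_on (hint (i + 1) (i + 1) (i + 1) (by omega) (by omega) (by omega))
      (hint i (i + 1) (i + 1) (by omega) (by omega) (by omega)) (Cu_meas m) fun a ha => ?_
    exact W_mono _ _ _ _ _ _ _
      (fun j hj => (hth a ha j (le_trans (Finset.mem_Icc.1 hj).2 (by omega))).1)
      (fun j hj => (hth' a ha j (le_trans (Finset.mem_Icc.1 hj).2 (by omega))).1)
  set K1 := ∫ a in Cu m, W y m i (i + 1) i (ch M (SS G ε a) p) (ch M (SS G ε a) p')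
  set K0 := ∫ a in Cu m, W y m i i i (ch M (SS G ε a) p) (ch M (SS G ε a) p')
  have he0 : 0 < e := Real.exp_pos _
  have D1 : K1 ≤ K0 * kp M p i + 2 * e := by linarith
  have D2 : K1 * kp M p' i ≤ (K0 * kp M p i + 2 * e) * kp M p' i :=
    mul_le_mul_of_nonneg_right D1 hDp'.1
  have D3 : 2 * e * kp M p' i ≤ 2 * e * D := mul_le_mul_of_nonneg_left hDp'.2.1 (by positivity)
  have D4 : 2 * e ≤ 2 * e * D := le_mul_of_one_le_right (by positivity) hDp'.2.2
  calc _ ≤ K1 * kp M p' i + 2 * e := by linarith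
    _ ≤ (K0 * kp M p i + 2 * e) * kp M p' i + 2 * e := by linarith
    _ ≤ kp M p i * kp M p' i * K0 + 4 * D * e := by nlinarith


/-- the bound for the integral over the separated part -/
private theorem iterJ {M : ℕ} {G ε : ℕ → ℝ} (h : Hyp M G ε) (n m : ℕ) (hm : 2 * n ≤ m) :
    ∃ Y K : ℝ, 3 ≤ Y ∧ 0 ≤ K ∧ ∀ y ≥ Y, ∀ p p' : ℕ, y < p → (p : ℝ) ≤ 11 / 10 * y → y < p' →
    (p' : ℝ) ≤ 11 / 10 * y →
    (∫ a in Cu m, W y m n n n (ch M (SS G ε a) p) (ch M (SS G ε a) p')) ≤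
      gd M n p * gd M n p' + K * Real.exp (-(3 / 4 * lam y)) := by
  obtain ⟨Y, hY3, hY⟩ := unif _ (stepJ h n m hm) n
  set D : ℝ := (M : ℝ) / M.totient with hD
  have hD1 : 1 ≤ D := (kp_bd h.M0 0 0).2.2
  have key : ∀ i ≤ n, ∃ K : ℝ, 0 ≤ K ∧ ∀ y ≥ Y, ∀ p p' : ℕ, y < p → (p : ℝ) ≤ 11 / 10 * y →
      y < p' → (p' : ℝ) ≤ 11 / 10 * y →
      (∫ a in Cu m, W y m i i i (ch M (SS G ε a) p) (ch M (SS G ε a) p')) ≤
        (∏ j ∈ Finset.range i, kp M p j) * (∏ j ∈ Finset.range i, kp M p' j) +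
          K * Real.exp (-(3 / 4 * lam y)) := by
    intro i
    induction i with
    | zero =>
      intro _
      refine ⟨0, le_refl _, fun y hy p p' _ _ _ _ => ?_⟩
      have h1 : (∫ a in Cu m, W y m 0 0 0 (ch M (SS G ε a) p) (ch M (SS G ε a) p')) ≤
          ∫ a in Cu m, (1 : ℝ) := by
        have hb : ∀ a : Fin m → ℝ, 0 ≤ W y m 0 0 0 (ch M (SS G ε a) p) (ch M (SS G ε a) p') ∧
            W y m 0 0 0 (ch M (SS G ε a) p) (ch M (SS G ε a) p') ≤ 1 := by
          intro a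
          unfold W
          split_ifs <;> simp
        refine setIntegral_mono_on ?_ ?_ (Cu_meas m) fun a _ => (hb a).2
        · refine Measure.integrableOn_of_bounded (M := 1) ?_
            (W_meas M G ε m y p p' 0 0 0).aestronglyMeasurable ?_
          · rw [Cu_vol]; exact ENNReal.one_ne_top
          · refine Filter.Eventually.of_forall fun a => ?_
            rw [Real.norm_eq_abs, abs_of_nonneg (hb a).1]
            exact (hb a).2
        · refine integrableOn_const ?_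
          rw [Cu_vol]; exact ENNReal.one_ne_top
      rw [setIntegral_const, Cu_real] at h1
      simpa using h1
    | succ i ih =>
      intro hi
      obtain ⟨K, hK0, hK⟩ := ih (by omega)
      refine ⟨D * D * K + 4 * D, by positivity, fun y hy p p' hp1 hp2 hq1 hq2 => ?_⟩
      have s1 := hY y hy i (by omega) (by omega) p p' hp1 hp2 hq1 hq2
      have s2 := hK y hy p p' hp1 hp2 hq1 hq2
      have hDp := kp_bd h.M0 p i
      have hDp' := kp_bd h.M0 p' i
      set e : ℝ := Real.exp (-(3 / 4 * lam y)) with he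
      have he0 : 0 < e := Real.exp_pos _
      set J := ∫ a in Cu m, W y m i i i (ch M (SS G ε a) p) (ch M (SS G ε a) p')
      have hkk : 0 ≤ kp M p i * kp M p' i := mul_nonneg hDp.1 hDp'.1
      have hkk' : kp M p i * kp M p' i ≤ D * D :=
        mul_le_mul hDp.2.1 hDp'.2.1 hDp'.1 (by linarith)
      rw [Finset.prod_range_succ, Finset.prod_range_succ]
      set Q := ∏ j ∈ Finset.range i, kp M p j
      set Q' := ∏ j ∈ Finset.range i, kp M p' j
      have s3 : kp M p i * kp M p' i * J ≤ kp M p i * kp M p' i * (Q * Q' + K * e) :=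
        mul_le_mul_of_nonneg_left s2 hkk
      have s4 : kp M p i * kp M p' i * (K * e) ≤ D * D * (K * e) :=
        mul_le_mul_of_nonneg_right hkk' (by positivity)
      nlinarith
  obtain ⟨K, hK0, hK⟩ := key n (le_refl _)
  refine ⟨Y, K, hY3, hK0, fun y hy p p' hp1 hp2 hq1 hq2 => ?_⟩
  rw [gd_eq, gd_eq]
  exact hK y hy p p' hp1 hp2 hq1 hq2

theorem pair {M : ℕ} {G ε : ℕ → ℝ} (h : Hyp M G ε) (n m : ℕ) (hm : 2 * n ≤ m) :
    ∃ Y : ℝ, 3 ≤ Y ∧ ∀ y ≥ Y, ∀ p p' : ℕ, y < p → (p : ℝ) ≤ 11 / 10 * y → y < p' →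
    (p' : ℝ) ≤ 11 / 10 * y → y * Real.exp (-lam y) ≤ |(p : ℝ) - p'| →
    (∫ a in Cu m, ∏ i ∈ Finset.Icc 1 n,
      th (ch M (SS G ε a) p i) * th (ch M (SS G ε a) p' i)) ≤
      gd M n p * gd M n p' + Real.exp (-(lam y / 4)) := by
  obtain ⟨Y1, K, h1, hK0, H1⟩ := iterJ h n m hm
  obtain ⟨Y2, h2, H2⟩ := sep h n m hm
  obtain ⟨Y3, h3, H3⟩ := logs n (2 * n) (1 / 8) (by norm_num)
  obtain ⟨Y4, h4, H4⟩ := th_bd h n m
  obtain ⟨Y5, h5, H5⟩ := lam_large (max (4 * K) (16 * n))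
  refine ⟨max (max (max Y1 Y2) (max Y3 Y4)) Y5, le_max_of_le_right h5, ?_⟩
  intro y hy p p' hp1 hp2 hq1 hq2 hpp
  have hyA : max (max Y1 Y2) (max Y3 Y4) ≤ y := le_trans (le_max_left _ _) hy
  have hy1 : Y1 ≤ y := le_trans (le_trans (le_max_left _ _) (le_max_left _ _)) hyA
  have hy2 : Y2 ≤ y := le_trans (le_trans (le_max_right _ _) (le_max_left _ _)) hyA
  have hy3 : Y3 ≤ y := le_trans (le_trans (le_max_left _ _) (le_max_right _ _)) hyA
  have hy4 : Y4 ≤ y := le_trans (le_trans (le_max_right _ _) (le_max_right _ _)) hyA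
  have hy5 : Y5 ≤ y := le_trans (le_max_right _ _) hy
  obtain ⟨hl1, hlam, hlog⟩ := H3 y hy3
  set B : ℝ := Real.log (2 ^ (n + 4) * y) with hB
  have hexp : B ^ (2 * n) ≤ Real.exp (lam y / 8) := by
    refine le_trans hlog (le_of_eq ?_)
    congr 1
    ring
  have hB0 : 0 ≤ B := by linarith
  have hth : ∀ a ∈ Cu m, ∀ j ≤ n, 0 ≤ th (ch M (SS G ε a) p j) ∧
      th (ch M (SS G ε a) p j) ≤ B :=
    fun a ha j hj => ⟨(H4 y hy4 a ha p hp1 hp2 j hj).1, (H4 y hy4 a ha p hp1 hp2 j hj).2.1⟩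
  have hth' : ∀ a ∈ Cu m, ∀ j ≤ n, 0 ≤ th (ch M (SS G ε a) p' j) ∧
      th (ch M (SS G ε a) p' j) ≤ B :=
    fun a ha j hj => ⟨(H4 y hy4 a ha p' hq1 hq2 j hj).1, (H4 y hy4 a ha p' hq1 hq2 j hj).2.1⟩
  set E : Set (Fin m → ℝ) := SepE M G ε m y p p' n with hE
  have hEm : MeasurableSet E := sep_meas M G ε m y p p' n
  have hWb : ∀ a ∈ Cu m, 0 ≤ W y m n n n (ch M (SS G ε a) p) (ch M (SS G ε a) p') ∧
      W y m n n n (ch M (SS G ε a) p) (ch M (SS G ε a) p') ≤ B ^ (2 * n) := by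
    intro a ha
    constructor
    · exact W_nonneg _ _ _ _ _ _ _ (fun j hj => (hth a ha j (Finset.mem_Icc.1 hj).2).1)
        (fun j hj => (hth' a ha j (Finset.mem_Icc.1 hj).2).1)
    · exact W_le _ _ _ _ _ _ _ B hl1 (2 * n) (by omega)
        (fun j hj => hth a ha j (Finset.mem_Icc.1 hj).2)
        (fun j hj => hth' a ha j (Finset.mem_Icc.1 hj).2)
  have hintW : IntegrableOn (fun a => W y m n n n (ch M (SS G ε a) p) (ch M (SS G ε a) p'))
      (Cu m) volume := by
    refine Measure.integrableOn_of_bounded (M := B ^ (2 * n)) ?_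
      (W_meas M G ε m y p p' n n n).aestronglyMeasurable ?_
    · rw [Cu_vol]; exact ENNReal.one_ne_top
    · refine (ae_restrict_iff' (Cu_meas m)).2 (Filter.Eventually.of_forall fun a ha => ?_)
      rw [Real.norm_eq_abs, abs_of_nonneg (hWb a ha).1]
      exact (hWb a ha).2
  have hintI : IntegrableOn (Set.indicator (Cu m \ E) fun _ : Fin m → ℝ => B ^ (2 * n))
      (Cu m) volume := by
    have : IntegrableOn (fun _ : Fin m → ℝ => B ^ (2 * n)) (Cu m) volume := by
      refine integrableOn_const ?_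
      rw [Cu_vol]; exact ENNReal.one_ne_top
    exact Integrable.indicator this ((Cu_meas m).diff hEm)
  -- pointwise comparison
  have hpt : ∀ a ∈ Cu m, (∏ i ∈ Finset.Icc 1 n,
      th (ch M (SS G ε a) p i) * th (ch M (SS G ε a) p' i)) ≤
      W y m n n n (ch M (SS G ε a) p) (ch M (SS G ε a) p') +
        Set.indicator (Cu m \ E) (fun _ : Fin m → ℝ => B ^ (2 * n)) a := by
    intro a ha
    by_cases hc : a ∈ E
    · have hi : Set.indicator (Cu m \ E) (fun _ : Fin m → ℝ => B ^ (2 * n)) a = 0 :=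
        Set.indicator_of_notMem (fun hh => hh.2 hc) _
      have hW : W y m n n n (ch M (SS G ε a) p) (ch M (SS G ε a) p') =
          (∏ j ∈ Finset.Icc 1 n, th (ch M (SS G ε a) p j)) *
            ∏ j ∈ Finset.Icc 1 n, th (ch M (SS G ε a) p' j) := by
        unfold W
        exact if_pos hc
      rw [hi, hW, Finset.prod_mul_distrib, add_zero]
    · have hi : Set.indicator (Cu m \ E) (fun _ : Fin m → ℝ => B ^ (2 * n)) a = B ^ (2 * n) :=
        by
          have hmem : a ∈ Cu m \ E := ⟨ha, hc⟩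
          exact Set.indicator_of_mem hmem _
      rw [hi]
      have hp : (∏ i ∈ Finset.Icc 1 n,
          th (ch M (SS G ε a) p i) * th (ch M (SS G ε a) p' i)) ≤ B ^ (2 * n) := by
        calc (∏ i ∈ Finset.Icc 1 n, th (ch M (SS G ε a) p i) * th (ch M (SS G ε a) p' i))
            ≤ ∏ i ∈ Finset.Icc 1 n, B * B := by
              refine Finset.prod_le_prod (fun j hj => ?_) (fun j hj => ?_)
              · exact mul_nonneg (hth a ha j (Finset.mem_Icc.1 hj).2).1
                  (hth' a ha j (Finset.mem_Icc.1 hj).2).1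
              · exact mul_le_mul (hth a ha j (Finset.mem_Icc.1 hj).2).2
                  (hth' a ha j (Finset.mem_Icc.1 hj).2).2
                  (hth' a ha j (Finset.mem_Icc.1 hj).2).1 hB0
          _ = B ^ (2 * n) := by
              rw [Finset.prod_const, Nat.card_Icc, ← pow_two, ← pow_mul]
              congr 1
      linarith [(hWb a ha).1]
  have hP0 : ∀ a ∈ Cu m, 0 ≤ ∏ i ∈ Finset.Icc 1 n,
      th (ch M (SS G ε a) p i) * th (ch M (SS G ε a) p' i) := fun a ha =>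
    Finset.prod_nonneg fun j hj => mul_nonneg (hth a ha j (Finset.mem_Icc.1 hj).2).1
      (hth' a ha j (Finset.mem_Icc.1 hj).2).1
  have hint : (∫ a in Cu m, ∏ i ∈ Finset.Icc 1 n,
      th (ch M (SS G ε a) p i) * th (ch M (SS G ε a) p' i)) ≤
      ∫ a in Cu m, (W y m n n n (ch M (SS G ε a) p) (ch M (SS G ε a) p') +
        Set.indicator (Cu m \ E) (fun _ : Fin m → ℝ => B ^ (2 * n)) a) := by
    refine integral_mono_of_nonneg ?_ (hintW.add hintI) ?_
    · exact (ae_restrict_iff' (Cu_meas m)).2 (Filter.Eventually.of_forall fun a ha => hP0 a ha)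
    · exact (ae_restrict_iff' (Cu_meas m)).2 (Filter.Eventually.of_forall fun a ha => hpt a ha)
  rw [integral_add hintW hintI] at hint
  have hI2 : (∫ a in Cu m, Set.indicator (Cu m \ E) (fun _ : Fin m → ℝ => B ^ (2 * n)) a) ≤
      Real.exp (lam y / 8) * (n * Real.exp (-(lam y / 2))) := by
    rw [setIntegral_indicator ((Cu_meas m).diff hEm), setIntegral_const, smul_eq_mul,
      Set.inter_eq_self_of_subset_right Set.sdiff_subset, mul_comm]
    exact mul_le_mul hexp (H2 y hy2 p p' hp1 hp2 hq1 hq2 hpp n (le_refl _)) measureReal_nonneg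
      (Real.exp_pos _).le
  have hJ := H1 y hy1 p p' hp1 hp2 hq1 hq2
  -- the error terms
  have hl5 := H5 y hy5
  have hlK : 4 * K ≤ lam y := le_trans (le_max_left _ _) hl5
  have hln : 16 * (n : ℝ) ≤ lam y := le_trans (le_max_right _ _) hl5
  have e1 : K * Real.exp (-(3 / 4 * lam y)) ≤ 1 / 2 * Real.exp (-(lam y / 4)) := by
    have : Real.exp (-(3 / 4 * lam y)) = Real.exp (-(lam y / 2)) * Real.exp (-(lam y / 4)) := by
      rw [← Real.exp_add]; congr 1; ring
    rw [this, ← mul_assoc]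
    refine mul_le_mul_of_nonneg_right ?_ (Real.exp_pos _).le
    rw [Real.exp_neg, ← div_eq_mul_inv, div_le_iff₀ (Real.exp_pos _)]
    have := Real.add_one_le_exp (lam y / 2)
    nlinarith
  have e2 : Real.exp (lam y / 8) * (n * Real.exp (-(lam y / 2))) ≤
      1 / 2 * Real.exp (-(lam y / 4)) := by
    have : Real.exp (lam y / 8) * (n * Real.exp (-(lam y / 2))) =
        (n * Real.exp (-(lam y / 8))) * Real.exp (-(lam y / 4)) := by
      have : Real.exp (lam y / 8) * Real.exp (-(lam y / 2)) =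
          Real.exp (-(lam y / 8)) * Real.exp (-(lam y / 4)) := by
        rw [← Real.exp_add, ← Real.exp_add]; congr 1; ring
      calc Real.exp (lam y / 8) * (n * Real.exp (-(lam y / 2)))
          = n * (Real.exp (lam y / 8) * Real.exp (-(lam y / 2))) := by ring
        _ = _ := by rw [this]; ring
    rw [this]
    refine mul_le_mul_of_nonneg_right ?_ (Real.exp_pos _).le
    rw [Real.exp_neg, ← div_eq_mul_inv, div_le_iff₀ (Real.exp_pos _)]
    have := Real.add_one_le_exp (lam y / 8)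
    nlinarith
  linarith

end Pool.Agent.PCn
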