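import Pool.Agent.PCn.Defs
import Pool.Agent.PNE.Fin

/-!
# The main term

`Good M n p` and hence `gd M n p` depend only on `p mod M`.  For `p > y ≥ M` a prime `p` is prime to `M`.  Split the sum into the classes
`b < M` prime to `M` and use `theta_window` (`C` = the sum of the constants; `r y ≤ 2 y`): the sum is
`∑_{b good, coprime} (M/φ)^n ((r-1) y/φ(M)) + O(...)`, and the number of the `b < M` prime to `M` with `Good M n b` is the
cardinality in `kap` (`i = 0`: `2^0 (b+1) - 1 = b`).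
-/

namespace Pool.Agent.PCn

private theorem cop_congr {M p b : ℕ} (i : ℕ) (h : p ≡ b [MOD M]) :
    Nat.Coprime (2 ^ i * (p + 1) - 1) M ↔ Nat.Coprime (2 ^ i * (b + 1) - 1) M := by
  have h1 : 2 ^ i * (p + 1) - 1 ≡ 2 ^ i * (b + 1) - 1 [MOD M] := by
    have h2 : 2 ^ i * (p + 1) ≡ 2 ^ i * (b + 1) [MOD M] := (h.add_right 1).mul_left _
    have hp : 1 ≤ 2 ^ i * (p + 1) := Nat.one_le_iff_ne_zero.2 (by positivity)
    have hb : 1 ≤ 2 ^ i * (b + 1) := Nat.one_le_iff_ne_zero.2 (by positivity)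
    apply Nat.ModEq.add_right_cancel' 1
    rw [Nat.sub_add_cancel hp, Nat.sub_add_cancel hb]
    exact h2
  unfold Nat.Coprime
  rw [h1.gcd_eq]

private theorem good_congr {M n p b : ℕ} (h : p ≡ b [MOD M]) : Good M n p ↔ Good M n b := by
  unfold Good
  exact forall₂_congr (fun i _ => cop_congr i h)

open Classical in
private noncomputable def BB (M n : ℕ) : Finset ℕ :=
  (Finset.range M).filter (fun b => ∀ i ≤ n, Nat.Coprime (2 ^ i * (b + 1) - 1) M)

private theorem BB_good {M n b : ℕ} (h : b ∈ BB M n) : Nat.Coprime b M ∧ Good M n b := by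
  unfold BB at h
  rw [Finset.mem_filter] at h
  refine ⟨by simpa using h.2 0 (Nat.zero_le _), fun i hi => h.2 i (Finset.mem_Icc.1 hi).2⟩

private theorem BB_mem {M n b : ℕ} (hb : b < M) (h1 : Nat.Coprime b M) (h2 : Good M n b) :
    b ∈ BB M n := by
  unfold BB
  rw [Finset.mem_filter]
  refine ⟨Finset.mem_range.2 hb, fun i hi => ?_⟩
  rcases Nat.eq_zero_or_pos i with h | h
  · subst h
    simpa using h1
  · exact h2 i (Finset.mem_Icc.2 ⟨h, hi⟩)

private theorem split_sum {M : ℕ} (hM : 0 < M) (n : ℕ) (u v : ℕ) (hu : M ≤ u) :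
    ∑ p ∈ Finset.Ioc u v, th p * gd M n p =
      ∑ b ∈ BB M n, ((M : ℝ) / M.totient) ^ n *
        ∑ p ∈ (Finset.Ioc u v).filter (fun p => p.Prime ∧ p ≡ b [MOD M]), Real.log p := by
  classical
  have hmaps : ∀ p ∈ Finset.Ioc u v, p % M ∈ Finset.range M := fun p _ =>
    Finset.mem_range.2 (Nat.mod_lt _ hM)
  rw [← Finset.sum_fiberwise_of_maps_to hmaps]
  have hsub : BB M n ⊆ Finset.range M := Finset.filter_subset _ _
  rw [← Finset.sum_subset hsub]
  · apply Finset.sum_congr rfl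
    intro b hb
    obtain ⟨_, hg⟩ := BB_good hb
    have hbM : b < M := Finset.mem_range.1 (hsub hb)
    rw [Finset.mul_sum, Finset.sum_filter, Finset.sum_filter]
    apply Finset.sum_congr rfl
    intro p _
    have hiff : p % M = b ↔ p ≡ b [MOD M] := by
      unfold Nat.ModEq
      rw [Nat.mod_eq_of_lt hbM]
    by_cases h1 : p % M = b
    · have h2 : p ≡ b [MOD M] := hiff.1 h1
      have h3 : Good M n p := (good_congr h2).2 hg
      by_cases hp : p.Prime
      · rw [if_pos h1, if_pos ⟨hp, h2⟩]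
        unfold th gd
        rw [if_pos hp, if_pos h3]
        ring
      · rw [if_pos h1, if_neg (fun h => hp h.1)]
        unfold th
        rw [if_neg hp, zero_mul]
    · rw [if_neg h1, if_neg (fun h => h1 (hiff.2 h.2))]
  · intro b hb hnb
    apply Finset.sum_eq_zero
    intro p hp
    rw [Finset.mem_filter, Finset.mem_Ioc] at hp
    have hbM : b < M := Finset.mem_range.1 hb
    have hcong : p ≡ b [MOD M] := by
      unfold Nat.ModEq
      rw [Nat.mod_eq_of_lt hbM]
      exact hp.2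
    by_cases hpp : p.Prime
    · have hcop : Nat.Coprime p M :=
        (Nat.Prime.coprime_iff_not_dvd hpp).2 (Nat.not_dvd_of_pos_of_lt hM (lt_of_le_of_lt hu hp.1.1))
      have hcb : Nat.Coprime b M := by
        unfold Nat.Coprime at hcop ⊢
        rw [← hcong.gcd_eq]
        exact hcop
      have hng : ¬ Good M n p := fun h => hnb (BB_mem hbM hcb ((good_congr hcong).1 h))
      unfold gd
      rw [if_neg hng, mul_zero]
    · unfold th
      rw [if_neg hpp, zero_mul]

theorem sum_gd {M : ℕ} (hM : 0 < M) (n : ℕ) (r : ℝ) (hr : 1 < r) (hr2 : r ≤ 11 / 10) :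
    ∃ C : ℝ, 0 < C ∧ ∀ y : ℝ, 2 ≤ y → (M : ℝ) ≤ y →
    |∑ p ∈ Finset.Ioc ⌊y⌋₊ ⌊r * y⌋₊, th p * gd M n p - kap M n * ((r - 1) * y)| ≤
      C * y * Real.exp (-(Real.log y) ^ (1 / 25 : ℝ)) := by
  obtain ⟨C, hC, hw⟩ := PNE.theta_window M hM
  refine ⟨(BB M n).card * (((M : ℝ) / M.totient) ^ n * C) + 1, by positivity, ?_⟩
  intro y hy hMy
  have hy0 : 0 < y := by linarith
  have hfl : M ≤ ⌊y⌋₊ := Nat.le_floor hMy
  rw [split_sum hM n _ _ hfl]
  have hkap : kap M n * ((r - 1) * y) =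
      ∑ b ∈ BB M n, ((M : ℝ) / M.totient) ^ n * ((r * y - y) / M.totient) := by
    rw [Finset.sum_const, nsmul_eq_mul]
    have hcard : kap M n = (BB M n).card * (M : ℝ) ^ n / (M.totient : ℝ) ^ (n + 1) := rfl
    rw [hcard, div_pow, pow_succ]
    have hphi : (M.totient : ℝ) ≠ 0 := by
      exact_mod_cast (Nat.totient_pos.2 hM).ne'
    field_simp
  rw [hkap, ← Finset.sum_sub_distrib]
  have hE : 0 ≤ y * Real.exp (-(Real.log y) ^ (1 / 25 : ℝ)) := by positivity
  calc |∑ b ∈ BB M n, (((M : ℝ) / M.totient) ^ n *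
        ∑ p ∈ (Finset.Ioc ⌊y⌋₊ ⌊r * y⌋₊).filter (fun p => p.Prime ∧ p ≡ b [MOD M]), Real.log p -
          ((M : ℝ) / M.totient) ^ n * ((r * y - y) / M.totient))|
      ≤ ∑ b ∈ BB M n, |((M : ℝ) / M.totient) ^ n *
        ∑ p ∈ (Finset.Ioc ⌊y⌋₊ ⌊r * y⌋₊).filter (fun p => p.Prime ∧ p ≡ b [MOD M]), Real.log p -
          ((M : ℝ) / M.totient) ^ n * ((r * y - y) / M.totient)| := Finset.abs_sum_le_sum_abs _ _
    _ ≤ ∑ b ∈ BB M n, ((M : ℝ) / M.totient) ^ n *
          (C * y * Real.exp (-(Real.log y) ^ (1 / 25 : ℝ))) := by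
        apply Finset.sum_le_sum
        intro b hb
        rw [← mul_sub, abs_mul, abs_of_nonneg (by positivity : (0 : ℝ) ≤ ((M : ℝ) / M.totient) ^ n)]
        apply mul_le_mul_of_nonneg_left _ (by positivity)
        exact hw b (BB_good hb).1 y (r * y) hy (by nlinarith) (by nlinarith)
    _ ≤ ((BB M n).card * (((M : ℝ) / M.totient) ^ n * C) + 1) * y *
          Real.exp (-(Real.log y) ^ (1 / 25 : ℝ)) := by
        rw [Finset.sum_const, nsmul_eq_mul]
        nlinarith [hE]

end Pool.Agent.PCn
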