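import Pool.Agent.PCn.Growth
import Pool.Agent.PCn.Step

/-!
# One step of a chain, given the past of two chains

The terms `c_0, ..., c_i` of the chain of `p` and `c'_0, ..., c'_k` of the chain of `p'` are the past, and `c_{i+1} = T(c_i)`
is averaged.  Apply `step` with `ι = (Fin (i+1) → ℕ) × (Fin (k+1) → ℕ)`, `π a` = the past, `I u` = the set of the values
`u.1 j`, `j < i`, and `u.2 j`, `j < k` (at most `i + k < m` elements), `q u = u.1 i`,
`F̃ u = F (ext u.1) (ext u.2)` (`ext` = extension by `0`, so that `ext` of the past is `tr` of the chain) if there is an `a` in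
the cube with `π a = u`, and `F̃ u = 0` otherwise; the same for `f`.  `hdep` is `ch_congr`.  If `F̃ u ≠ 0`, the values are
in the ranges of `growth`, so between `7/8 y` and `2^(n+2) y`, and terms of different levels are at distance
`≥ 2^(i-1) (7/4 - 5/4) y ≥ y/2 ≥ y e^{-Aλ}` from `u.1 i` (`A ≥ 1`, `λ ≥ 1`); the only node of level `i` is `u.2 i`, if
`k = i + 1`, where the separation hypothesis is used.
-/

namespace Pool.Agent.PCn

open MeasureTheory

/-- extension by `0` -/
private def Two_ext {n : ℕ} (u : Fin (n + 1) → ℕ) (j : ℕ) : ℕ :=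
  if h : j < n + 1 then u ⟨j, h⟩ else 0

private theorem Two_ext_tr (n : ℕ) (c : ℕ → ℕ) : Two_ext (fun j : Fin (n + 1) => c j) = tr n c := by
  funext j
  unfold Two_ext tr
  by_cases h : j < n + 1
  · rw [dif_pos h, if_pos (Nat.lt_succ_iff.1 h)]
  · rw [dif_neg h, if_neg (fun h' => h (Nat.lt_succ_iff.2 h'))]

/-- the past -/
private noncomputable def Two_pi (M : ℕ) (S : ℕ → ℝ) (p p' i k : ℕ) :
    (Fin (i + 1) → ℕ) × (Fin (k + 1) → ℕ) :=
  (fun j => ch M S p j, fun j => ch M S p' j)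

/-- the nodes -/
private def Two_I {i k : ℕ} (u : (Fin (i + 1) → ℕ) × (Fin (k + 1) → ℕ)) : Finset ℕ :=
  (Finset.univ.image fun j : Fin i => u.1 j.castSucc) ∪
    (Finset.univ.image fun j : Fin k => u.2 j.castSucc)

private theorem Two_card {i k : ℕ} (u : (Fin (i + 1) → ℕ) × (Fin (k + 1) → ℕ)) :
    (Two_I u).card ≤ i + k := by
  refine (Finset.card_union_le _ _).trans (add_le_add ?_ ?_)
  · refine Finset.card_image_le.trans ?_
    rw [Finset.card_univ, Fintype.card_fin]
  · refine Finset.card_image_le.trans ?_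
    rw [Finset.card_univ, Fintype.card_fin]

private theorem Two_dep {M : ℕ} {S S' : ℕ → ℝ} {p p' i k : ℕ}
    (h : ∀ r ∈ Two_I (Two_pi M S p p' i k), S r = S' r) :
    Two_pi M S' p p' i k = Two_pi M S p p' i k := by
  have h1 : ∀ j ≤ i, ch M S' p j = ch M S p j := by
    refine ch_congr fun j hj => h _ ?_
    exact Finset.mem_union_left _ (Finset.mem_image.2 ⟨⟨j, hj⟩, Finset.mem_univ _, rfl⟩)
  have h2 : ∀ j ≤ k, ch M S' p' j = ch M S p' j := by
    refine ch_congr fun j hj => h _ ?_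
    exact Finset.mem_union_right _ (Finset.mem_image.2 ⟨⟨j, hj⟩, Finset.mem_univ _, rfl⟩)
  unfold Two_pi
  refine Prod.ext ?_ ?_
  · funext j
    exact h1 j (Nat.lt_succ_iff.1 j.2)
  · funext j
    exact h2 j (Nat.lt_succ_iff.1 j.2)

private theorem Two_meas {m : ℕ} (M : ℕ) (G ε : ℕ → ℝ) (p p' i k : ℕ) :
    Measurable fun a : Fin m → ℝ => Two_pi M (SS G ε a) p p' i k := by
  unfold Two_pi
  refine Measurable.prodMk ?_ ?_
  · exact measurable_pi_lambda _ fun j => measurable_ch M _ (fun q => measurable_SS G ε q) p j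
  · exact measurable_pi_lambda _ fun j => measurable_ch M _ (fun q => measurable_SS G ε q) p' j

theorem two {M : ℕ} {G ε : ℕ → ℝ} (h : Hyp M G ε) (n m : ℕ) (A : ℝ) (hA : 1 ≤ A) :
    ∃ Y : ℝ, 3 ≤ Y ∧ ∀ y ≥ Y, ∀ p p' : ℕ, y < p → (p : ℝ) ≤ 11 / 10 * y → y < p' →
      (p' : ℝ) ≤ 11 / 10 * y → ∀ i k : ℕ, i < n → k ≤ i + 1 → i + k < m →
      ∀ (F : (ℕ → ℕ) → (ℕ → ℕ) → ℝ) (f : (ℕ → ℕ) → (ℕ → ℕ) → ℕ → ℝ)
        (κ : (ℕ → ℕ) → (ℕ → ℕ) → ℝ) (η : ℝ), 0 ≤ η →
      (∀ a ∈ Cu m, |F (tr i (ch M (SS G ε a) p)) (tr k (ch M (SS G ε a) p'))| ≤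
        Real.exp (lam y / 4)) →
      (∀ a ∈ Cu m, ∀ c, |f (tr i (ch M (SS G ε a) p)) (tr k (ch M (SS G ε a) p')) c| ≤
        Real.exp (lam y / 4)) →
      (∀ a ∈ Cu m, k = i + 1 → F (tr i (ch M (SS G ε a) p)) (tr k (ch M (SS G ε a) p')) ≠ 0 →
        y * Real.exp (-(A * lam y)) ≤
          |(ch M (SS G ε a) p i : ℝ) - ch M (SS G ε a) p' i|) →
      (∀ a ∈ Cu m, F (tr i (ch M (SS G ε a) p)) (tr k (ch M (SS G ε a) p')) ≠ 0 →
        |(1 / tt m A y) * (∫ s in (0 : ℝ)..tt m A y,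
          f (tr i (ch M (SS G ε a) p)) (tr k (ch M (SS G ε a) p'))
            ((2 * (ch M (SS G ε a) p i : ℤ) + 1 +
              M * ⌊SS G ε a (ch M (SS G ε a) p i) + s⌋).toNat)) -
          κ (tr i (ch M (SS G ε a) p)) (tr k (ch M (SS G ε a) p'))| ≤ η) →
      |(∫ a in Cu m, F (tr i (ch M (SS G ε a) p)) (tr k (ch M (SS G ε a) p')) *
          f (tr i (ch M (SS G ε a) p)) (tr k (ch M (SS G ε a) p'))
            (ch M (SS G ε a) p (i + 1))) -
        ∫ a in Cu m, F (tr i (ch M (SS G ε a) p)) (tr k (ch M (SS G ε a) p')) *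
          κ (tr i (ch M (SS G ε a) p)) (tr k (ch M (SS G ε a) p'))| ≤
        Real.exp (lam y / 4) * η + Real.exp (-lam y) := by
  classical
  obtain ⟨Y1, hY1, H1⟩ := step h n m A (by linarith)
  obtain ⟨Y2, hY2, H2⟩ := growth h n m
  obtain ⟨Y3, hY3, H3⟩ := logs n 0 1 one_pos
  refine ⟨max Y1 (max Y2 Y3), le_max_of_le_left hY1, ?_⟩
  intro y hy p p' hp hp1 hp' hp1' i k hi hk hikm F f κ η hη hF hf hsep hint
  have hy1 : Y1 ≤ y := (le_max_left _ _).trans hy
  have hy2 : Y2 ≤ y := (le_max_left _ _).trans ((le_max_right _ _).trans hy)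
  have hy3 : Y3 ≤ y := (le_max_right _ _).trans ((le_max_right _ _).trans hy)
  have hy0 : 0 < y := by linarith
  obtain ⟨-, hlam, -⟩ := H3 y hy3
  set π : (Fin m → ℝ) → (Fin (i + 1) → ℕ) × (Fin (k + 1) → ℕ) :=
    fun a => Two_pi M (SS G ε a) p p' i k with hπ
  set R : (Fin (i + 1) → ℕ) × (Fin (k + 1) → ℕ) → Prop := fun u => ∃ a ∈ Cu m, π a = u with hR
  have hx1 : ∀ a, Two_ext (π a).1 = tr i (ch M (SS G ε a) p) := fun a =>
    Two_ext_tr i (ch M (SS G ε a) p)
  have hx2 : ∀ a, Two_ext (π a).2 = tr k (ch M (SS G ε a) p') := fun a =>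
    Two_ext_tr k (ch M (SS G ε a) p')
  have hq : ∀ a, (π a).1 (Fin.last i) = ch M (SS G ε a) p i := fun a => rfl
  have hexp : 0 < Real.exp (lam y / 4) := Real.exp_pos _
  have hRa : ∀ a ∈ Cu m, R (π a) := fun a ha => ⟨a, ha, rfl⟩
  have hhalf : y * Real.exp (-(A * lam y)) ≤ y / 2 := by
    have h1 : Real.exp (-(A * lam y)) ≤ Real.exp (-1) := by
      refine Real.exp_le_exp.2 ?_
      have : 1 * 1 ≤ A * lam y := mul_le_mul hA hlam zero_le_one (by linarith)
      linarith
    have h2 : Real.exp (-1) ≤ 1 / 2 := by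
      rw [Real.exp_neg, ← one_div]
      refine one_div_le_one_div_of_le (by norm_num) ?_
      have := Real.add_one_le_exp 1
      linarith
    have h3 : y * Real.exp (-(A * lam y)) ≤ y * (1 / 2) :=
      mul_le_mul_of_nonneg_left (h1.trans h2) hy0.le
    linarith
  have key := H1 y hy1 ((Fin (i + 1) → ℕ) × (Fin (k + 1) → ℕ)) π (Two_meas M G ε p p' i k)
    (fun u => Two_I u) (fun u => u.1 (Fin.last i))
    (fun u => if R u then F (Two_ext u.1) (Two_ext u.2) else 0)
    (fun u => if R u then f (Two_ext u.1) (Two_ext u.2) else fun _ => 0)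
    (fun u => κ (Two_ext u.1) (Two_ext u.2)) η hη ?_ ?_ ?_ ?_ ?_
  · have e1 : (∫ a in Cu m, (if R (π a) then F (Two_ext (π a).1) (Two_ext (π a).2) else 0) *
        (if R (π a) then f (Two_ext (π a).1) (Two_ext (π a).2) else fun _ => 0)
          (T M (SS G ε a) ((π a).1 (Fin.last i)))) =
        ∫ a in Cu m, F (tr i (ch M (SS G ε a) p)) (tr k (ch M (SS G ε a) p')) *
          f (tr i (ch M (SS G ε a) p)) (tr k (ch M (SS G ε a) p'))
            (ch M (SS G ε a) p (i + 1)) := by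
      refine setIntegral_congr_fun measurableSet_Icc fun a ha => ?_
      have h1 := hRa a ha
      simp only [if_pos h1, hx1, hx2, hq, ch_succ]
    have e2 : (∫ a in Cu m, (if R (π a) then F (Two_ext (π a).1) (Two_ext (π a).2) else 0) *
        κ (Two_ext (π a).1) (Two_ext (π a).2)) =
        ∫ a in Cu m, F (tr i (ch M (SS G ε a) p)) (tr k (ch M (SS G ε a) p')) *
          κ (tr i (ch M (SS G ε a) p)) (tr k (ch M (SS G ε a) p')) := by
      refine setIntegral_congr_fun measurableSet_Icc fun a ha => ?_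
      have h1 := hRa a ha
      simp only [if_pos h1, hx1, hx2]
    rw [← e1, ← e2]
    exact key
  · intro a a' haa
    exact Two_dep haa
  · intro u hu
    have hu' : (if R u then F (Two_ext u.1) (Two_ext u.2) else 0) ≠ 0 := hu
    have hRu : R u := by
      by_contra hR'
      rw [if_neg hR'] at hu'
      exact hu' rfl
    rw [if_pos hRu] at hu'
    obtain ⟨a, ha, rfl⟩ := hRu
    rw [hx1, hx2] at hu'
    have haj : ∀ j, a j ∈ Set.Icc (-1 : ℝ) 2 := by
      intro j
      have h1 : (0 : ℝ) ≤ a j := ha.1 j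
      have h2 : a j ≤ 1 := ha.2 j
      exact ⟨by linarith, by linarith⟩
    have g := fun j hj => H2 y hy2 a haj p hp hp1 j hj
    have g' := fun j hj => H2 y hy2 a haj p' hp' hp1' j hj
    have hpow : ∀ j ≤ n, (2 : ℝ) ^ j ≤ 2 ^ n := fun j hj =>
      pow_le_pow_right₀ one_le_two hj
    have hpow1 : ∀ j : ℕ, (1 : ℝ) ≤ 2 ^ j := fun j => one_le_pow₀ one_le_two
    have hlow : ∀ (j : ℕ) (x : ℝ), 7 / 8 * 2 ^ j * y ≤ x → 7 / 8 * y ≤ x := by
      intro j x hx
      refine le_trans ?_ hx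
      have := mul_le_mul_of_nonneg_right (hpow1 j) hy0.le
      linarith
    have hupp : ∀ j ≤ n, ∀ x : ℝ, x ≤ 5 / 4 * 2 ^ j * y → x ≤ 2 ^ (n + 2) * y := by
      intro j hj x hx
      refine hx.trans ?_
      have h1 := mul_le_mul_of_nonneg_right (hpow j hj) hy0.le
      have h2 : (0 : ℝ) < 2 ^ n * y := by positivity
      rw [pow_add]
      linarith
    have hdist : ∀ j < i, ∀ x : ℝ, x ≤ 5 / 4 * 2 ^ j * y →
        y * Real.exp (-(A * lam y)) ≤ |x - ((ch M (SS G ε a) p i : ℕ) : ℝ)| := by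
      intro j hj x hx
      have h1 := (g i hi.le).1
      have h2 : (2 : ℝ) ^ j * 2 ≤ 2 ^ i := by
        rw [← pow_succ]
        exact pow_le_pow_right₀ one_le_two hj
      have h3 := mul_le_mul_of_nonneg_right h2 hy0.le
      have h4 : (2 : ℝ) * y ≤ 2 ^ i * y := by
        refine mul_le_mul_of_nonneg_right ?_ hy0.le
        calc (2 : ℝ) = 2 ^ 1 := (pow_one _).symm
          _ ≤ 2 ^ i := pow_le_pow_right₀ one_le_two (by omega)
      have h5 : y / 2 ≤ ((ch M (SS G ε a) p i : ℕ) : ℝ) - x := by linarith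
      rw [abs_sub_comm]
      exact hhalf.trans (h5.trans (le_abs_self _))
    refine ⟨lt_of_le_of_lt (Two_card _) hikm, ?_, ?_, ?_⟩
    · exact hlow i _ (g i hi.le).1
    · exact hupp i hi.le _ (g i hi.le).2.1
    · intro r hr
      rcases Finset.mem_union.1 hr with hr | hr
      · obtain ⟨j, -, rfl⟩ := Finset.mem_image.1 hr
        have hj : (j : ℕ) < i := j.2
        have h1 := g j (by omega)
        exact ⟨hlow j _ h1.1, hupp j (by omega) _ h1.2.1, hdist j hj _ h1.2.1⟩
      · obtain ⟨j, -, rfl⟩ := Finset.mem_image.1 hr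
        have hj : (j : ℕ) < k := j.2
        have h1 := g' j (by omega)
        refine ⟨hlow j _ h1.1, hupp j (by omega) _ h1.2.1, ?_⟩
        rcases Nat.lt_or_ge j i with hji | hji
        · exact hdist j hji _ h1.2.1
        · have hji' : (j : ℕ) = i := by omega
          have h2 := hsep a ha (by omega) hu'
          rw [abs_sub_comm]
          change y * Real.exp (-(A * lam y)) ≤ |((ch M (SS G ε a) p i : ℕ) : ℝ) -
            ((ch M (SS G ε a) p' j : ℕ) : ℝ)|
          rw [hji']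
          exact h2
  · intro u
    by_cases hRu : R u
    · simp only [if_pos hRu]
      obtain ⟨a, ha, rfl⟩ := hRu
      rw [hx1, hx2]
      exact hF a ha
    · simp only [if_neg hRu, abs_zero]
      exact hexp.le
  · intro u c
    by_cases hRu : R u
    · simp only [if_pos hRu]
      obtain ⟨a, ha, rfl⟩ := hRu
      rw [hx1, hx2]
      exact hf a ha c
    · simp only [if_neg hRu, abs_zero]
      exact hexp.le
  · intro a ha hne
    have h1 := hRa a ha
    simp only [if_pos h1, hx1, hx2] at hne ⊢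
    simp only [hq]
    exact hint a ha hne

end Pool.Agent.PCn
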