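import Pool.Agent.PCn.AvgC
import Pool.Agent.PCn.Two

/-!
# The expectation for one chain

`J_i = ∫ ∏_{j=1}^i θ(c_j)`, `J_0 = 1` (the volume of the cube).  For `i < n`: `two` with `p' = p`, `k = 0`, `A = 1`,
`F x x' = ∏_{j=1}^i θ(x_j)`, `f = thc (2^(n+4) y)`, `κ = kp M p i`, `η = e^{-λ}` (`avg_ch`) gives
`|J_{i+1} - kp M p i * J_i| ≤ 2 e^{-3λ/4}`.  (`th_bd`, `logs` with `c = 1/4`.)  Induction with `kp ≤ M/φ(M)`:
`|J_i - ∏_{j<i} kp M p j| ≤ 2 i (M/φ(M))^i e^{-3λ/4}`; `gd_eq`; and `λ → ∞`.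
-/

namespace Pool.Agent.PCn

open MeasureTheory

private theorem Sgl_lam : Filter.Tendsto lam Filter.atTop Filter.atTop := by
  unfold lam
  exact (tendsto_rpow_atTop (by norm_num)).comp Real.tendsto_log_atTop

private theorem Sgl_vol (m : ℕ) : (∫ _a in Cu m, (1 : ℝ)) = 1 := by
  unfold Cu
  rw [setIntegral_const, smul_eq_mul, mul_one, measureReal_def, Real.volume_Icc_pi]
  simp

private theorem Sgl_thc_abs {X : ℝ} (hX : 1 ≤ Real.log X) (c : ℕ) : |thc X c| ≤ Real.log X := by
  unfold thc th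
  split_ifs with h1 h2
  · have hc : (1 : ℝ) ≤ c := by exact_mod_cast h2.one_lt.le
    rw [abs_of_nonneg (Real.log_nonneg hc)]
    exact Real.log_le_log (by linarith) h1
  · rw [abs_zero]
    linarith
  · rw [abs_zero]
    linarith

theorem sgl {M : ℕ} {G ε : ℕ → ℝ} (h : Hyp M G ε) (n m : ℕ) (hm : n ≤ m) :
    ∃ Y : ℝ, 3 ≤ Y ∧ ∀ y ≥ Y, ∀ p : ℕ, y < p → (p : ℝ) ≤ 11 / 10 * y →
    |(∫ a in Cu m, ∏ i ∈ Finset.Icc 1 n, th (ch M (SS G ε a) p i)) - gd M n p| ≤
      Real.exp (-(lam y / 2)) := by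
  obtain ⟨Y1, hY1, H1⟩ := two h n m 1 le_rfl
  obtain ⟨Y2, hY2, H2⟩ := avg_ch h n m 1 zero_le_one
  obtain ⟨Y3, hY3, H3⟩ := th_bd h n m
  obtain ⟨Y4, hY4, H4⟩ := logs n (n + 1) (1 / 4) (by norm_num)
  set R : ℝ := (M : ℝ) / M.totient with hR
  obtain ⟨Y5, H5⟩ := Filter.eventually_atTop.1
    (Sgl_lam.eventually_ge_atTop (4 * Real.log (2 * n * R ^ n + 1)))
  refine ⟨max (max (max Y1 Y2) (max Y3 Y4)) Y5, ?_, ?_⟩
  · exact hY1.trans ((le_max_left _ _).trans ((le_max_left _ _).trans (le_max_left _ _)))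
  intro y hy p hp1 hp2
  have hyY1 : y ≥ Y1 := ((le_max_left _ _).trans ((le_max_left _ _).trans (le_max_left _ _))).trans hy
  have hyY2 : y ≥ Y2 := ((le_max_right _ _).trans ((le_max_left _ _).trans (le_max_left _ _))).trans hy
  have hyY3 : y ≥ Y3 := ((le_max_left _ _).trans ((le_max_right _ _).trans (le_max_left _ _))).trans hy
  have hyY4 : y ≥ Y4 := ((le_max_right _ _).trans ((le_max_right _ _).trans (le_max_left _ _))).trans hy
  have hyY5 : y ≥ Y5 := (le_max_right _ _).trans hy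
  obtain ⟨hL1, hlam1, hLpow⟩ := H4 y hyY4
  set X : ℝ := 2 ^ (n + 4) * y with hX
  have hLpow' : Real.log X ^ (n + 1) ≤ Real.exp (lam y / 4) := by
    refine hLpow.trans (le_of_eq ?_)
    congr 1
    ring
  have hR0 : 0 ≤ R := (kp_bd h.M0 p 0).1.trans (kp_bd h.M0 p 0).2.1
  have hR1 : 1 ≤ R := (kp_bd h.M0 p 0).2.2
  set J : ℕ → ℝ := fun i => ∫ a in Cu m, ∏ j ∈ Finset.Icc 1 i, th (ch M (SS G ε a) p j) with hJ
  have hstep : ∀ i < n, |J (i + 1) - kp M p i * J i| ≤ 2 * Real.exp (-(3 / 4 * lam y)) := by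
    intro i hi
    have key := H1 y hyY1 p p hp1 hp2 hp1 hp2 i 0 hi (Nat.zero_le _) (by omega)
      (fun x _ => ∏ j ∈ Finset.Icc 1 i, th (x j)) (fun _ _ c => thc X c) (fun _ _ => kp M p i)
      (Real.exp (-lam y)) (Real.exp_pos _).le
    have hFeq : ∀ a : Fin m → ℝ, ∏ j ∈ Finset.Icc 1 i, th (tr i (ch M (SS G ε a) p) j) =
        ∏ j ∈ Finset.Icc 1 i, th (ch M (SS G ε a) p j) := by
      intro a
      refine Finset.prod_congr rfl fun j hj => ?_
      rw [tr, if_pos (Finset.mem_Icc.mp hj).2]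
    have key2 := key ?_ ?_ ?_ ?_
    · have e1 : (∫ a in Cu m, (∏ j ∈ Finset.Icc 1 i, th (tr i (ch M (SS G ε a) p) j)) *
          thc X (ch M (SS G ε a) p (i + 1))) = J (i + 1) := by
        rw [hJ]
        refine setIntegral_congr_fun measurableSet_Icc fun a ha => ?_
        have h3 := (H3 y hyY3 a ha p hp1 hp2 (i + 1) hi).2.2
        simp only [hFeq]
        rw [h3, Finset.prod_Icc_succ_top (by omega)]
      have e2 : (∫ a in Cu m, (∏ j ∈ Finset.Icc 1 i, th (tr i (ch M (SS G ε a) p) j)) *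
          kp M p i) = kp M p i * J i := by
        simp only [hFeq]
        rw [integral_mul_const, mul_comm]
      simp only [e1, e2] at key2
      refine key2.trans ?_
      rw [← Real.exp_add]
      have e3 : lam y / 4 + -lam y = -(3 / 4 * lam y) := by ring
      have e4 : Real.exp (-lam y) ≤ Real.exp (-(3 / 4 * lam y)) := by
        apply Real.exp_le_exp.mpr
        linarith
      rw [e3]
      linarith
    · intro a ha
      simp only [hFeq]
      have hb : ∀ j ∈ Finset.Icc 1 i, 0 ≤ th (ch M (SS G ε a) p j) ∧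
          th (ch M (SS G ε a) p j) ≤ Real.log X := by
        intro j hj
        have hj2 := (Finset.mem_Icc.mp hj).2
        have := H3 y hyY3 a ha p hp1 hp2 j (by omega)
        exact ⟨this.1, this.2.1⟩
      rw [abs_of_nonneg (Finset.prod_nonneg fun j hj => (hb j hj).1)]
      calc ∏ j ∈ Finset.Icc 1 i, th (ch M (SS G ε a) p j)
          ≤ ∏ j ∈ Finset.Icc 1 i, Real.log X :=
            Finset.prod_le_prod (fun j hj => (hb j hj).1) (fun j hj => (hb j hj).2)
        _ = Real.log X ^ i := by simp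
        _ ≤ Real.log X ^ (n + 1) := pow_le_pow_right₀ hL1 (by omega)
        _ ≤ _ := hLpow'
    · intro a ha c
      refine (Sgl_thc_abs hL1 c).trans (le_trans ?_ hLpow')
      calc Real.log X = Real.log X ^ 1 := (pow_one _).symm
        _ ≤ _ := pow_le_pow_right₀ hL1 (by omega)
    · intro a _ hk
      omega
    · intro a ha _
      exact H2 y hyY2 a ha p hp1 hp2 i hi
  have hind : ∀ i ≤ n, |J i - ∏ j ∈ Finset.range i, kp M p j| ≤
      2 * i * R ^ i * Real.exp (-(3 / 4 * lam y)) := by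
    intro i
    induction i with
    | zero =>
      intro _
      have : J 0 = 1 := by
        rw [hJ]
        simp only [Finset.Icc_eq_empty (show ¬ (1 : ℕ) ≤ 0 by omega), Finset.prod_empty]
        exact Sgl_vol m
      rw [this]
      simp
    | succ i ih =>
      intro hi
      have h1 := ih (by omega)
      have h2 := hstep i (by omega)
      obtain ⟨k0, k1, _⟩ := kp_bd h.M0 p i
      rw [Finset.prod_range_succ]
      have e : J (i + 1) - (∏ j ∈ Finset.range i, kp M p j) * kp M p i =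
          (J (i + 1) - kp M p i * J i) + kp M p i * (J i - ∏ j ∈ Finset.range i, kp M p j) := by
        ring
      rw [e]
      refine (abs_add_le _ _).trans ?_
      rw [abs_mul, abs_of_nonneg k0]
      have hE : 0 < Real.exp (-(3 / 4 * lam y)) := Real.exp_pos _
      have hRi : (1 : ℝ) ≤ R ^ (i + 1) := one_le_pow₀ hR1
      have h3 : kp M p i * |J i - ∏ j ∈ Finset.range i, kp M p j| ≤
          R * (2 * i * R ^ i * Real.exp (-(3 / 4 * lam y))) :=
        mul_le_mul k1 h1 (abs_nonneg _) hR0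
      have h4 : 2 * Real.exp (-(3 / 4 * lam y)) ≤
          2 * R ^ (i + 1) * Real.exp (-(3 / 4 * lam y)) := by
        nlinarith
      have h5 : R * (2 * i * R ^ i * Real.exp (-(3 / 4 * lam y))) =
          2 * i * R ^ (i + 1) * Real.exp (-(3 / 4 * lam y)) := by
        ring
      push_cast
      linarith
  have hfin := hind n le_rfl
  rw [← gd_eq] at hfin
  refine hfin.trans ?_
  have hlam5 := H5 y hyY5
  have hpos : (0 : ℝ) < 2 * n * R ^ n + 1 := by positivity
  have h6 : 2 * n * R ^ n + 1 ≤ Real.exp (lam y / 4) := by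
    rw [← Real.log_le_iff_le_exp hpos]
    linarith
  calc 2 * n * R ^ n * Real.exp (-(3 / 4 * lam y))
      ≤ Real.exp (lam y / 4) * Real.exp (-(3 / 4 * lam y)) :=
        mul_le_mul_of_nonneg_right (by linarith) (Real.exp_pos _).le
    _ = Real.exp (-(lam y / 2)) := by
        rw [← Real.exp_add]
        congr 1
        ring

end Pool.Agent.PCn
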